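import Pool.Agent.Work.MP_db9399_da_helper99.PARTV
import Pool.Agent.Work.MP_db9399_da.Frame2

/-!
# MP_db9399, DENSE-ALL, phase 2: PARTS2, as helper99's PARTS with `SameP` (owner helper62)
-/

set_option autoImplicit false

namespace Pool.Agent.Work.MP_db9399_da.helper62

open Finset Classical
open Pool.Agent.Work.MP_db9399_all (nb)

universe u

open helper99 helper99.PA

theorem parts_core2 (hLAB3 : Stmt_LAB3.{u}) (hCPB : Stmt_CPB.{u}) (hCPN : Stmt_CPN.{u})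
    (C g ρ : ℝ) (M : ℕ) (hC : 1 ≤ C) (hρ : 0 < ρ) :
    ∃ ρ' K : ℝ, 0 < ρ' ∧ ρ' ≤ ρ ∧ 0 < K ∧ ∀ ε : ℝ, 0 < ε → ε ≤ 1 → ∃ ζ0 : ℝ, 0 < ζ0 ∧
    ∀ ζ : ℝ, 0 < ζ → ζ ≤ ζ0 → ∃ θ0 : ℝ, 0 < θ0 ∧ ∀ θ : ℝ, 0 < θ → θ ≤ θ0 → ∃ d0 : ℕ,
    ∀ {V : Type u} [Fintype V] (G : SimpleGraph V) (d : ℕ) (P : Pcs V M), d0 ≤ d →
      DecP C g ρ ζ θ G d P →
      ∃ P' : Pcs V M, SameP P P' ∧ DecP C g ρ ζ θ G d P' ∧ PartL ρ' ε G d P' ∧
        PartD K ζ ε G d P' := by
  obtain ⟨Mb, db, ρb, ιb, hρb, hιb, hcpb⟩ := hCPB C ρ hC hρ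
  obtain ⟨Mn, dn, ρn, ιn, hρn, hιn, hcpn⟩ := hCPN C ρ hC hρ
  obtain ⟨K3, hK3, hlab⟩ := hLAB3 (Fintype.card (Option (Fin M × Bool)))
  obtain ⟨ρ', hρ'⟩ : ∃ ρ' : ℝ, ρ' = min ρ (min ρb ρn) := ⟨_, rfl⟩
  have hρ0 : 0 < ρ' := by rw [hρ']; exact lt_min hρ (lt_min hρb hρn)
  have hρ1 : ρ' ≤ ρ := by rw [hρ']; exact min_le_left _ _
  have hρ2 : ρ' ≤ ρb := by rw [hρ']; exact (min_le_right _ _).trans (min_le_left _ _)
  have hρ3 : ρ' ≤ ρn := by rw [hρ']; exact (min_le_right _ _).trans (min_le_right _ _)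
  obtain ⟨ι, hι⟩ : ∃ ι : ℝ, ι = min ιb ιn := ⟨_, rfl⟩
  have hι0 : 0 < ι := by rw [hι]; exact lt_min hιb hιn
  have hι1 : ι ≤ ιb := by rw [hι]; exact min_le_left _ _
  have hι2 : ι ≤ ιn := by rw [hι]; exact min_le_right _ _
  refine ⟨ρ', 2 * K3 + 2 * M + 2 * 10 ^ 6, hρ0, hρ1, by positivity, ?_⟩
  intro ε hε hε1
  refine ⟨min ι ε, lt_min hι0 hε, ?_⟩
  intro ζ hζ hζ0
  have hζι : ζ ≤ ι := hζ0.trans (min_le_left _ _)
  have hζε : ζ ≤ ε := hζ0.trans (min_le_right _ _)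
  refine ⟨1, one_pos, ?_⟩
  intro θ hθ hθ1
  obtain ⟨δ, hδ⟩ : ∃ δ : ℝ, δ = min ι (min (ε / 2) (ζ ^ 2 / 400)) := ⟨_, rfl⟩
  have hδ0 : 0 < δ := by rw [hδ]; positivity
  have hδ1 : δ ≤ ι := by rw [hδ]; exact min_le_left _ _
  have hδ2 : δ ≤ ε / 2 := by rw [hδ]; exact (min_le_right _ _).trans (min_le_left _ _)
  have hδ3 : δ ≤ ζ ^ 2 / 400 := by rw [hδ]; exact (min_le_right _ _).trans (min_le_right _ _)
  obtain ⟨d1, hd1⟩ := hlab C δ ζ 2 hC hδ0 hζ
  refine ⟨max (max db dn) (max d1 (⌈C⌉₊ + M * (Mb + Mn) + ⌈1 / ε⌉₊ + 1)), ?_⟩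
  intro V _ G d P hd H
  have hdb : db ≤ d := (le_max_left _ _).trans ((le_max_left _ _).trans hd)
  have hdn : dn ≤ d := (le_max_right _ _).trans ((le_max_left _ _).trans hd)
  have hdd1 : d1 ≤ d := (le_max_left _ _).trans ((le_max_right _ _).trans hd)
  have hd2 : ⌈C⌉₊ + M * (Mb + Mn) + ⌈1 / ε⌉₊ + 1 ≤ d :=
    (le_max_right _ _).trans ((le_max_right _ _).trans hd)
  have hd0 : (0 : ℝ) ≤ d := Nat.cast_nonneg _
  have hεd : 1 ≤ ε * d := by
    have h1 : 1 / ε ≤ d := by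
      refine (Nat.le_ceil _).trans ?_
      exact_mod_cast (by omega : ⌈1 / ε⌉₊ ≤ d)
    rw [div_le_iff₀ hε] at h1
    linarith
  have hTs : ∀ n, (Fintype.card (Ts P n) : ℝ) ≤ C * d := by
    intro n
    refine le_trans ?_ H.siz
    exact_mod_cast Fintype.card_subtype_le _
  have hdeg : ∀ (n : Fin M) (ι' : ℝ), ι ≤ ι' → ∀ v : Ts P n,
      (nb (bk G P n) v).card ≤ d ∧ (1 - ι') * d ≤ ((nb (bk G P n) v).card : ℝ) := by
    intro n ι' hι' v
    obtain ⟨h1, h2⟩ := deg_bk C g ρ ζ θ G d P H n v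
    refine ⟨h1, le_trans ?_ h2⟩
    exact mul_le_mul_of_nonneg_right (by linarith) hd0
  -- classes
  have hex : ∀ n : Fin M, ∃ cl : Ts P n → ℕ,
      (P.ty n = Ty.N → ∃ (k : ℕ) (c : Ts P n → Fin k), k ≤ Mb + Mn ∧ (∀ v, (c v : ℕ) = cl v) ∧
        GoodN G P d ρ' ι n k c) ∧
      (P.ty n = Ty.B → ∃ (k : ℕ) (c : Ts P n → Fin k), k ≤ Mb + Mn ∧ (∀ v, (c v : ℕ) = cl v) ∧
        GoodB G P d ρ' ι n k c) := by
    intro n
    by_cases hN : P.ty n = Ty.N
    · have h5 : CutW (fun a b => Classical.propDecidable (a = b)) (bk G P n) ρ :=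
        cutW_inst _ _ (H.cut n (Or.inl hN))
      have h6 : NbiW (fun a b => Classical.propDecidable (a = b)) (bk G P n) ρ d :=
        nbiW_inst _ _ (H.nbi n hN)
      obtain ⟨c, hc⟩ := hcpn (bk G P n) d hdn (hTs n) (hdeg n ιn hι2) h5 h6
      refine ⟨fun v => c v, fun _ => ⟨Mn, c, by omega, fun v => rfl, ?_⟩,
        fun h => absurd (hN.symm.trans h) (by decide)⟩
      intro sd pt h1 h2
      have hι3 : ι * d ≤ ιn * d := mul_le_mul_of_nonneg_right hι2 hd0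
      have h2' : NqW (fun a b => Classical.propDecidable (a = b)) (bk G P n) sd pt (ι * d) :=
        nqW_inst _ _ h2
      have h3 : PcW (fun a b => Classical.propDecidable (a = b)) (bk G P n) sd pt ρn :=
        hc sd pt (fun m β i => (h1 m β i).trans hι3) (fun u β i => (h2' u β i).trans hι3)
      exact pcW_inst _ _ (pcW_mono _ hρ3 h3)
    · by_cases hB : P.ty n = Ty.B
      · have h5 : CutW (fun a b => Classical.propDecidable (a = b)) (bk G P n) ρ :=
          cutW_inst _ _ (H.cut n (Or.inr hB))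
        obtain ⟨c, hc⟩ := hcpb (bk G P n) d (sdn P n) hdb (hTs n)
          (fun v w h => ((adj_B G P n hB v w).1 h).2) (hdeg n ιb hι1) h5
        refine ⟨fun v => c v, fun h => absurd h hN,
          fun _ => ⟨Mb, c, by omega, fun v => rfl, ?_⟩⟩
        intro pt h1 h2
        have hι3 : ι * d ≤ ιb * d := mul_le_mul_of_nonneg_right hι1 hd0
        have h2' : NpW (fun a b => Classical.propDecidable (a = b)) (bk G P n) pt (ι * d) :=
          npW_inst _ _ h2
        have h3 : PcW (fun a b => Classical.propDecidable (a = b)) (bk G P n) (sdn P n) pt ρb :=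
          hc pt (fun m β i => (h1 m β i).trans hι3) (fun u i => (h2' u i).trans hι3)
        exact pcW_inst _ _ (pcW_mono _ hρ2 h3)
      · exact ⟨fun _ => 0, fun h => absurd h hN, fun h => absurd h hB⟩
  choose cl hclN hclB using hex
  let I : Finset (Finset V) := (univ.image (fun v => nb G v)) ∪
    (((univ : Finset (Fin M)) ×ˢ Finset.range (Mb + Mn)).image
      (fun q => cset P q.1 (cl q.1) q.2))
  have hInb : ∀ v, nb G v ∈ I := fun v =>
    Finset.mem_union_left _ (Finset.mem_image_of_mem _ (Finset.mem_univ v))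
  have hIcl : ∀ n, ∀ m < Mb + Mn, cset P n (cl n) m ∈ I := fun n m hm =>
    Finset.mem_union_right _ (Finset.mem_image.2 ⟨(n, m), by
      rw [Finset.mem_product, Finset.mem_range]; exact ⟨Finset.mem_univ _, hm⟩, rfl⟩)
  have hIc : I.card ≤ d ^ 2 := by
    have h1 : I.card ≤ Fintype.card V + M * (Mb + Mn) := by
      refine (Finset.card_union_le _ _).trans (Nat.add_le_add ?_ ?_)
      · exact Finset.card_image_le
      · refine Finset.card_image_le.trans ?_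
        rw [Finset.card_product, Finset.card_range, Finset.card_univ, Fintype.card_fin]
    have h2 : (Fintype.card V : ℝ) ≤ ⌈C⌉₊ * d :=
      H.siz.trans (mul_le_mul_of_nonneg_right (Nat.le_ceil _) hd0)
    have h3 : Fintype.card V ≤ ⌈C⌉₊ * d := by exact_mod_cast h2
    have h4 : M * (Mb + Mn) ≤ M * (Mb + Mn) * d := Nat.le_mul_of_pos_right _ (by omega)
    calc I.card ≤ ⌈C⌉₊ * d + M * (Mb + Mn) * d := by omega
      _ = (⌈C⌉₊ + M * (Mb + Mn)) * d := by ring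
      _ ≤ d * d := Nat.mul_le_mul_right d (by omega)
      _ = d ^ 2 := (sq d).symm
  -- the labels
  let e := Fintype.equivFin (Option (Fin M × Bool))
  let w : V → ℝ := fun v => if v ∈ P.V0 then 0 else ((nb (thin G P) v).card : ℝ)
  have hw0 : ∀ v, 0 ≤ w v ∧ w v ≤ ζ * d := by
    intro v
    have hζd : 0 ≤ ζ * d := by positivity
    by_cases hv : v ∈ P.V0
    · have : w v = 0 := if_pos hv
      rw [this]
      exact ⟨le_refl _, hζd⟩
    · have : w v = ((nb (thin G P) v).card : ℝ) := if_neg hv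
      rw [this]
      exact ⟨Nat.cast_nonneg _, H.thd v hv⟩
  obtain ⟨lab, hQ, hwt⟩ := hd1 d (fun v => e (op P v)) (fun j => rq P (e.symm j)) (tG G P) w
    (ζ * d) I P.V0 (fun z => nb G z) hdd1 H.siz (fun j => rq_pos P _) (by positivity) hw0 hIc
    (deg_tG C g ρ ζ θ G d P hζ.le H)
  have hr : ∀ o, rq P (e.symm (e o)) = rq P o := fun o => by rw [e.symm_apply_apply]
  have hnode : ∀ o, nodeS (fun v => e (op P v)) (e o) = nS P o := by
    intro o
    unfold nodeS nS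
    ext v
    simp
  have hclass : ∀ o i, clS (fun v => e (op P v)) lab (e o) i = cS P lab o i := by
    intro o i
    unfold clS cS
    ext v
    simp
  have F : LF G P d δ (K3 * ζ * d) K3 (ζ * d) I (tG G P) w lab := by
    refine ⟨?_, ?_, ?_, ?_, ?_, ?_⟩
    · intro v
      have := hQ.lt v
      rwa [hr] at this
    · intro o i hi
      have := hQ.siz (e o) i (by rw [hr]; exact hi)
      rw [hnode, hclass, hr] at this
      exact this
    · intro A hA o i hi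
      have := hQ.spl A hA (e o) i (by rw [hr]; exact hi)
      rw [hnode, hclass, hr] at this
      exact this
    · intro o o' hL i hi i' hi'
      have := hQ.edg (e o) (e o') (by rw [hnode, hnode]; exact hL) i (by rw [hr]; exact hi) i'
        (by rw [hr]; exact hi')
      rw [hnode, hnode, hclass, hclass, hr, hr] at this
      exact this
    · refine le_trans (le_of_eq ?_) hQ.bad
      refine Finset.sum_congr rfl (fun z _ => ?_)
      rw [← Equiv.sum_comp e]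
      refine Finset.sum_congr rfl (fun o _ => ?_)
      simp only [hnode, hclass, hr]
    · intro o i hi i' hi'
      have := hwt (e o) i (by rw [hr]; exact hi) i' (by rw [hr]; exact hi')
      rw [hclass, hclass] at this
      exact this
  refine ⟨nP P lab, ⟨rfl, rfl, rfl, rfl, ?_⟩, decP C g ρ ζ θ G d P lab H, ?_, ?_⟩
  · intro v hv
    simp [nP, hv]
  · exact partL C g ρ ζ θ G d P H δ _ _ _ I _ w lab F hInb ρ' ι ε (Mb + Mn) hδ1 hδ2 hζε hεd cl
      hIcl hclN hclB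
  · exact partD C g ρ ζ θ H F hInb (fun v hv => if_neg hv) ε _ hε hε1 hζ hδ0.le hδ3 hK3
      (le_refl _)

theorem stmt_PARTS2 (hLAB3 : Stmt_LAB3.{u}) (hCPB : Stmt_CPB.{u}) (hCPN : Stmt_CPN.{u}) :
    Stmt_PARTS2.{u} := by
  intro C g ρ M hC _ _ hρ _
  exact parts_core2 hLAB3 hCPB hCPN C g ρ M hC hρ

end Pool.Agent.Work.MP_db9399_da.helper62
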