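import Pool.Agent.Work.MP_db9399_da.Defs

/-!
# MP_db9399, DENSE-ALL: easy facts about the definitions (owner helper62)
-/

set_option autoImplicit false

namespace Pool.Agent.Work.MP_db9399_da.helper62

open Finset Classical
open Pool.Agent.Work.MP_db9399_all (nb)
open Pool.Agent.Work.MP_db9399_nc (nn)
open Pool.Agent.Work.MP_db9399_lt (us)
open Pool.Agent.Work.MP_db9399_dn (Tot)

universe u

/-- decidability instances do not matter (used instead of a conversion tactic) -/
theorem dec_irrel {α : Type u} {p : DecidableEq α → Prop} {i1 i2 : DecidableEq α} (h : p i1) :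
    p i2 := by
  rw [Subsingleton.elim i2 i1]
  exact h

section base
variable {V : Type u} {M : ℕ} [Fintype V]

theorem mem_nb (G : SimpleGraph V) (v w : V) : w ∈ nb G v ↔ G.Adj v w := by
  simp [nb]

theorem mem_us {W : Type u} [Fintype W] (F : W → Finset ℕ) (b : ℕ) (v : W) :
    v ∈ us F b ↔ b ∈ F v := by
  simp [us]

theorem nb_split (G : SimpleGraph V) (P : Pcs V M) (v : V) :
    (nb (bulk G P) v).card + (nb (thin G P) v).card = (nb G v).card := by
  have h : nb G v = nb (bulk G P) v ∪ nb (thin G P) v := by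
    ext w
    simp only [mem_union, mem_nb]
    constructor
    · intro h
      by_cases hb : (bulk G P).Adj v w
      · exact Or.inl hb
      · exact Or.inr ⟨h, hb⟩
    · rintro (h | h)
      · exact h.1
      · exact h.1
  rw [h, card_union_of_disjoint]
  rw [disjoint_left]
  intro w hw hw'
  rw [mem_nb] at hw hw'
  exact hw'.2 hw

theorem card_nb_bk (G : SimpleGraph V) (P : Pcs V M) (n : Fin M) (v : Ts P n) :
    (nb (bk G P n) v).card = (nb (bulk G P) v.1).card := by
  apply card_bij (fun w _ => w.1)
  · intro w hw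
    rw [mem_nb] at hw ⊢
    exact hw
  · intro w _ w' _ h
    exact Subtype.ext h
  · intro w hw
    rw [mem_nb] at hw
    refine ⟨⟨w, hw.2.2.1, ?_⟩, ?_, rfl⟩
    · rw [← hw.2.2.2.1]
      exact v.2.2
    · rw [mem_nb]
      exact hw

theorem card_nb_tk (G : SimpleGraph V) (P : Pcs V M) (n : Fin M) (v : Ts P n) :
    (nb (tk G P n) v).card ≤ (nb (thin G P) v.1).card := by
  apply card_le_card_of_injOn (fun w => w.1)
  · intro w hw
    rw [mem_coe, mem_nb] at hw
    rw [mem_coe, mem_nb]
    exact hw
  · intro w _ w' _ h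
    exact Subtype.ext h

theorem card_Fc (G : SimpleGraph V) (P : Pcs V M) (t : V → V → ℕ) (v : V)
    (h : Set.InjOn (t v) (nb (thin G P) v : Set V)) :
    (Fc G P t v).card = (nb (thin G P) v).card := by
  unfold Fc
  exact card_image_of_injOn h

/-- cardinality of a filter on the piece -/
theorem card_Ts (P : Pcs V M) (n : Fin M) (p : V → Prop) :
    ((univ : Finset (Ts P n)).filter (fun v => p v.1)).card =
      ((univ : Finset V).filter (fun v => (v ∉ P.V0 ∧ P.pc v = n) ∧ p v)).card := by
  apply card_bij (fun w _ => w.1)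
  · intro w hw
    rw [mem_filter] at hw ⊢
    exact ⟨mem_univ _, w.2, hw.2⟩
  · intro w _ w' _ h
    exact Subtype.ext h
  · intro w hw
    rw [mem_filter] at hw
    exact ⟨⟨w, hw.2.1⟩, by rw [mem_filter]; exact ⟨mem_univ _, hw.2.2⟩, rfl⟩

theorem card_Ts_le (P : Pcs V M) (n : Fin M) : Fintype.card (Ts P n) ≤ Fintype.card V :=
  Fintype.card_subtype_le _

end base

end Pool.Agent.Work.MP_db9399_da.helper62
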