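import Pool.Agent.Work.MP_db9399_da_helper62.Bsm7
import Pool.Agent.Work.MP_db9399_da_helper62.PARTS2
import Pool.Agent.Work.MP_db9399_da_helper55.DEC2
import Pool.Agent.Work.MP_db9399_da_helper55.DECS
import Pool.Agent.Work.MP_db9399_da_helper45.LBB
import Pool.Agent.Work.MP_db9399_da_helper74.LBH
import Pool.Agent.Work.MP_db9399_da_helper85.LBV
import Pool.Agent.Work.MP_db9399_da_helper73.CPB
import Pool.Agent.Work.MP_db9399_da_helper73.CPN
import Pool.Agent.Work.MP_db9399_da_helper73.WR
import Pool.Agent.Work.MP_db9399_da_helper73.PCUT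
import Pool.Agent.Work.MP_db9399_da_helper19.DCUT
import Pool.Agent.Work.MP_db9399_da_helper99.SUP
import Pool.Agent.Work.MP_db9399_da_helper26.PRX
import Pool.Agent.Work.MP_db9399_dp_helper82.PREE
import Pool.Agent.Work.MP_db9399_da_helper82.SHF
import Pool.Agent.Work.MP_db9399_da_helper93.INI
import Pool.Agent.Work.MP_db9399_da_helper46.FIXS
import Pool.Agent.Work.MP_db9399_da_helper94.FIXH
import Pool.Agent.Work.MP_db9399_da_helper94.CNH
import Pool.Agent.Work.MP_db9399_da_helper74.PAR
import Pool.Agent.Work.MP_db9399_da_helper45.PAR1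
import Pool.Agent.Work.MP_db9399_da_helper85.STPB
import Pool.Agent.Work.MP_db9399_da_helper72.STPA
import Pool.Agent.Work.MP_db9399_da_helper30.DEX
import Pool.Agent.Work.MP_db9399_da_helper26.FRE
import Pool.Agent.Work.MP_db9399_da_helper99.EXF
import Pool.Agent.Work.MP_db9399_da_helper99.CMP
import Pool.Agent.Work.MP_db9399_da_helper94.OWNN
import Pool.Agent.Work.MP_db9399_da_helper46.LOCN2
import Pool.Agent.Work.MP_db9399_da_helper71.MIS1B
import Pool.Agent.Work.MP_db9399_da_helper72.LOCB2U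
import Pool.Agent.Work.MP_db9399_da_helper26.LOCK2
import Pool.Agent.Work.MP_db9399_ot_helper94.LTZFinal
import Pool.Agent.Work.MP_db9399_da_helper99.EMB2
import Pool.Agent.Work.MP_db9399_da_helper46.FIN2

/-!
# MP_db9399, DENSE-ALL, phase 2: the theorem (owner helper62)

All blocks of phase 2 together: Q1 for all large dense graphs.
-/

set_option autoImplicit false

namespace Pool.Agent.Work.MP_db9399_da.helper62

open Pool.Agent.Work.MP_db9399_da

universe u

theorem all_pcut2 : MP_db9399_da_helper72.Stmt_PCUT.{u} :=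
  MP_db9399_da_helper73.stmt_PCUT MP_db9399_da_helper73.stmt_WR

theorem all_parts2 : Stmt_PARTS2.{u} :=
  stmt_PARTS2
    (helper45.stmt_LAB3 helper45.stmt_LBA (helper45.stmt_LBB helper74.stmt_LBH helper85.stmt_LBV))
    (helper73.stmt_CPB all_pcut2) (helper73.stmt_CPN all_pcut2 helper19.stmt_DCUT)

theorem all_stpa : Stmt_STPA.{u} := helper72.stmt_STPA helper30.stmt_DEX

theorem all_pre2 : Stmt_PRE2.{u} :=
  helper26.PRX.prx MP_db9399_dp.helper82.stmt_PREE helper82.stmt_SHF helper93.stmt_INI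
    (helper46.stmt_FIXS helper26.stmt_FRE all_stpa)
    (helper94.stmt_FIXH helper94.stmt_CNH helper26.stmt_FRE all_stpa)
    (helper94.stmt_FIXO helper94.stmt_CNH helper26.stmt_FRE all_stpa)
    (helper74.stmt_PAR (helper45.stmt_PAR1 helper46.stmt_CNS helper85.stmt_STPB))
    helper99.stmt_EXF helper99.stmt_CMP

theorem all_reg2 : Stmt_REG2.{u} :=
  stmt_ASSEMBLY2 (helper55.stmt_DECS2 helper55.stmt_DEC1) all_parts2 helper99.stmt_SUP all_pre2
    helper94.stmt_OWNN helper46.stmt_LOCN2
    (MP_db9399_da_helper72.stmt_LOCB2 MP_db9399_da_helper71.stmt_MIS1B)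
    (helper26.stmt_LOCK2 MP_db9399_ot.helper94.ltz)

theorem main2 : Stmt_MAIN2.{u} := helper46.stmt_FIN2 helper99.stmt_EMB2 all_reg2

end Pool.Agent.Work.MP_db9399_da.helper62
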