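import Pool.Agent.Work.MP_db9399_da_helper62.Glue
import Pool.Agent.Work.MP_db9399_da.Frame

/-!
# MP_db9399, DENSE-ALL: assembly, part 1 (owner helper62)

The state of the construction: the vertices of `V0` and of the pieces in `Dn` are coloured.
-/

set_option autoImplicit false

namespace Pool.Agent.Work.MP_db9399_da.helper62

open Finset Classical
open Pool.Agent.Work.MP_db9399_all (nb)
open Pool.Agent.Work.MP_db9399_nc (nn)
open Pool.Agent.Work.MP_db9399_lt (us)
open Pool.Agent.Work.MP_db9399_dn (Tot)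

universe u

section state
variable {V : Type u} {M : ℕ} [Fintype V]

/-- the coloured vertices -/
noncomputable def DV (P : Pcs V M) (Dn : Finset (Fin M)) : Finset V :=
  univ.filter (fun v => v ∈ P.V0 ∨ P.pc v ∈ Dn)

/-- State of the sequential construction. `b1`: bound for the thin degrees of the vertices with own
colour in `Sp`. -/
structure Inv (Mx : ℕ) (b1 : ℝ) (G : SimpleGraph V) (d : ℕ) (P : Pcs V M) (t : V → V → ℕ)
    (c0 : V → ℕ) (Sp : Finset ℕ) (Dn : Finset (Fin M)) (c : V → ℕ) : Prop where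
  clt : ∀ v ∈ DV P Dn, c v < d + 2
  cF : ∀ v ∈ DV P Dn, c v ∉ Fc G P t v
  cc : ∀ v ∈ DV P Dn, ∀ w ∈ DV P Dn, G.Adj v w → c v ≠ c w
  c0 : ∀ v ∈ P.V0, c v = c0 v
  cls : ∀ b, ∀ n ∈ Dn, ((pV P n).filter (fun v => c v = b)).card ≤ Mx
  csp : ∀ v, v ∉ P.V0 → P.pc v ∈ Dn → c v ∈ Sp → ((nb (thin G P) v).card : ℝ) ≤ b1
  tau : ∀ n ∈ Dn, ∃ τ : Ts P n → Ts P n → ℕ,
    PEF (bk G P n) d (fun v => insert (c v.1) (Fn G P t n v)) τ

/-- forbidden own colours at `v` -/
noncomputable def Af (b1 : ℝ) (G : SimpleGraph V) (P : Pcs V M) (t : V → V → ℕ)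
    (Sp : Finset ℕ) (Dn : Finset (Fin M)) (c : V → ℕ) (v : V) : Finset ℕ :=
  Fc G P t v ∪ (nb (thin G P) v ∩ DV P Dn).image c ∪
    (if ((nb (thin G P) v).card : ℝ) ≤ b1 then ∅ else Sp)

/-- one more piece -/
theorem inv_step (Mx : ℕ) (b1 : ℝ) (G : SimpleGraph V) (d : ℕ) (P : Pcs V M) (t : V → V → ℕ)
    (c0 : V → ℕ) (Sp : Finset ℕ) (Dn : Finset (Fin M)) (c : V → ℕ) (n : Fin M)
    (hI : Inv Mx b1 G d P t c0 Sp Dn c) (hn : n ∉ Dn) (cn : Ts P n → ℕ)
    (h1 : ∀ v, cn v < d + 2 ∧ cn v ∉ Af b1 G P t Sp Dn c v.1)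
    (h2 : ∀ v w, (bk G P n).Adj v w → cn v ≠ cn w)
    (h3 : ∀ v w, (tk G P n).Adj v w → cn v ≠ cn w)
    (h4 : ∀ b, (univ.filter (fun v => cn v = b)).card ≤ Mx)
    (h5 : ∃ τ : Ts P n → Ts P n → ℕ, PEF (bk G P n) d (fun v => insert (cn v) (Fn G P t n v)) τ) :
    ∃ c', Inv Mx b1 G d P t c0 Sp (insert n Dn) c' := by
  set c' : V → ℕ := fun v => if h : v ∉ P.V0 ∧ P.pc v = n then cn ⟨v, h⟩ else c v with hc'
  have e1 : ∀ v : Ts P n, c' v.1 = cn v := by
    intro v
    simp only [hc', dif_pos v.2]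
  have e2 : ∀ v, ¬ (v ∉ P.V0 ∧ P.pc v = n) → c' v = c v := by
    intro v hv
    simp only [hc', dif_neg hv]
  have hD : ∀ v ∈ DV P (insert n Dn), (v ∉ P.V0 ∧ P.pc v = n) ∨ (¬ (v ∉ P.V0 ∧ P.pc v = n) ∧
      v ∈ DV P Dn) := by
    intro v hv
    by_cases h : v ∉ P.V0 ∧ P.pc v = n
    · exact Or.inl h
    · right
      refine ⟨h, ?_⟩
      simp only [DV, mem_filter, mem_univ, true_and, mem_insert] at hv ⊢
      rcases hv with hv | hv | hv
      · exact Or.inl hv
      · left
        by_contra h0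
        exact h ⟨h0, hv⟩
      · exact Or.inr hv
  have hnew : ∀ v w, (v ∉ P.V0 ∧ P.pc v = n) → w ∈ DV P Dn → G.Adj v w → c' v ≠ c w := by
    intro v w hv hw hvw
    have ht : (thin G P).Adj v w := by
      refine ⟨hvw, fun hb => ?_⟩
      have hw' : w ∈ P.V0 ∨ P.pc w ∈ Dn := by
        simpa only [DV, mem_filter, mem_univ, true_and] using hw
      rcases hw' with hw' | hw'
      · exact hb.2.2.1 hw'
      · apply hn
        rw [← hv.2, hb.2.2.2.1]
        exact hw'
    rw [show c' v = cn ⟨v, hv⟩ from e1 ⟨v, hv⟩]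
    intro he
    apply (h1 ⟨v, hv⟩).2
    simp only [Af, mem_union, mem_image, mem_inter, mem_nb]
    exact Or.inl (Or.inr ⟨w, ⟨ht, hw⟩, he.symm⟩)
  refine ⟨c', ?_, ?_, ?_, ?_, ?_, ?_, ?_⟩
  · intro v hv
    rcases hD v hv with h | ⟨h, h'⟩
    · rw [show c' v = cn ⟨v, h⟩ from e1 ⟨v, h⟩]
      exact (h1 ⟨v, h⟩).1
    · rw [e2 v h]
      exact hI.clt v h'
  · intro v hv
    rcases hD v hv with h | ⟨h, h'⟩
    · rw [show c' v = cn ⟨v, h⟩ from e1 ⟨v, h⟩]
      intro hF
      apply (h1 ⟨v, h⟩).2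
      simp only [Af, mem_union]
      exact Or.inl (Or.inl hF)
    · rw [e2 v h]
      exact hI.cF v h'
  · intro v hv w hw hvw
    rcases hD v hv with h | ⟨h, h'⟩
    · rcases hD w hw with k | ⟨k, k'⟩
      · rw [show c' v = cn ⟨v, h⟩ from e1 ⟨v, h⟩, show c' w = cn ⟨w, k⟩ from e1 ⟨w, k⟩]
        by_cases hb : (bulk G P).Adj v w
        · exact h2 ⟨v, h⟩ ⟨w, k⟩ hb
        · exact h3 ⟨v, h⟩ ⟨w, k⟩ ⟨hvw, hb⟩
      · rw [e2 w k]
        exact hnew v w h k' hvw
    · rcases hD w hw with k | ⟨k, k'⟩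
      · rw [e2 v h]
        exact (hnew w v k h' hvw.symm).symm
      · rw [e2 v h, e2 w k]
        exact hI.cc v h' w k' hvw
  · intro v hv
    rw [e2 v (fun h => h.1 hv)]
    exact hI.c0 v hv
  · intro b m hm
    rw [mem_insert] at hm
    rcases hm with rfl | hm
    · refine le_trans (le_of_eq ?_) (h4 b)
      symm
      apply card_bij (fun v _ => v.1)
      · intro v hv
        rw [mem_filter] at hv ⊢
        refine ⟨?_, ?_⟩
        · simp only [pV, mem_filter, mem_univ, true_and]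
          exact v.2
        · rw [e1 v]
          exact hv.2
      · intro v _ v' _ hvv
        exact Subtype.ext hvv
      · intro v hv
        simp only [pV, mem_filter, mem_univ, true_and] at hv
        refine ⟨⟨v, hv.1⟩, ?_, rfl⟩
        simp only [mem_filter, mem_univ, true_and]
        rw [← e1 ⟨v, hv.1⟩]
        exact hv.2
    · refine le_trans (card_le_card ?_) (hI.cls b m hm)
      intro v hv
      simp only [pV, mem_filter, mem_univ, true_and] at hv ⊢
      refine ⟨hv.1, ?_⟩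
      rw [← e2 v ?_]
      · exact hv.2
      · rintro ⟨_, h⟩
        apply hn
        rw [← h, hv.1.2]
        exact hm
  · intro v hv0 hv hs
    by_cases h : v ∉ P.V0 ∧ P.pc v = n
    · by_contra hlt
      apply (h1 ⟨v, h⟩).2
      rw [show c' v = cn ⟨v, h⟩ from e1 ⟨v, h⟩] at hs
      simp only [Af, mem_union, hlt, if_false]
      exact Or.inr hs
    · rw [e2 v h] at hs
      rw [mem_insert] at hv
      rcases hv with hv | hv
      · exact absurd ⟨hv0, hv⟩ h
      · exact hI.csp v hv0 hv hs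
  · intro m hm
    rw [mem_insert] at hm
    rcases hm with rfl | hm
    · obtain ⟨τ, hτ⟩ := h5
      refine ⟨τ, ?_⟩
      have : (fun v : Ts P m => insert (c' v.1) (Fn G P t m v)) =
          fun v => insert (cn v) (Fn G P t m v) := by
        funext v
        rw [e1 v]
      rw [this]
      exact hτ
    · obtain ⟨τ, hτ⟩ := hI.tau m hm
      refine ⟨τ, ?_⟩
      have : (fun v : Ts P m => insert (c' v.1) (Fn G P t m v)) =
          fun v => insert (c v.1) (Fn G P t m v) := by
        funext v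
        rw [e2 v.1]
        rintro ⟨_, h⟩
        apply hn
        rw [← h, v.2.2]
        exact hm
      rw [this]
      exact hτ

/-- the end -/
theorem inv_end (Mx : ℕ) (b1 : ℝ) (G : SimpleGraph V) (d : ℕ) (P : Pcs V M) (t : V → V → ℕ)
    (c0 : V → ℕ) (Sp : Finset ℕ) (c : V → ℕ)
    (sym : ∀ v w, t v w = t w v)
    (lt : ∀ v w, (thin G P).Adj v w → t v w < d + 2)
    (inj : ∀ v, Set.InjOn (t v) (nb (thin G P) v : Set V))
    (hI : Inv Mx b1 G d P t c0 Sp univ c) : ∃ t', TotN G d c t' := by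
  have hD : ∀ v, v ∈ DV P (univ : Finset (Fin M)) := fun v => by
    simp [DV]
  choose τ hτ using hI.tau
  exact glue G P d t c (fun n => τ n (mem_univ n)) sym lt inj
    (fun v => ⟨hI.clt v (hD v), hI.cF v (hD v)⟩)
    (fun v w h => hI.cc v (hD v) w (hD w) h) (fun n => hτ n (mem_univ n))

/-! ### Estimates for the forbidden colours -/

theorem Af_card (b1 : ℝ) (G : SimpleGraph V) (P : Pcs V M) (t : V → V → ℕ)
    (Sp : Finset ℕ) (Dn : Finset (Fin M)) (c : V → ℕ) (v : V) :
    (Af b1 G P t Sp Dn c v).card ≤ 2 * (nb (thin G P) v).card + Sp.card := by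
  unfold Af
  refine le_trans (card_union_le _ _) ?_
  have h1 : (Fc G P t v).card ≤ (nb (thin G P) v).card := card_image_le
  have h2 : ((nb (thin G P) v ∩ DV P Dn).image c).card ≤ (nb (thin G P) v).card :=
    le_trans card_image_le (card_le_card inter_subset_left)
  have h3 : (if ((nb (thin G P) v).card : ℝ) ≤ b1 then (∅ : Finset ℕ) else Sp).card ≤ Sp.card := by
    split_ifs <;> simp
  have h4 := card_union_le (Fc G P t v) ((nb (thin G P) v ∩ DV P Dn).image c)
  omega

/-- number of vertices of a piece with a thin neighbour in `W` -/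
theorem card_thin_nb (G : SimpleGraph V) (P : Pcs V M) (n : Fin M) (W : Finset V) :
    ((univ : Finset (Ts P n)).filter (fun v => ∃ w ∈ W, (thin G P).Adj v.1 w)).card ≤
      ∑ w ∈ W, (nb (thin G P) w).card := by
  have h : ((univ : Finset (Ts P n)).filter (fun v => ∃ w ∈ W, (thin G P).Adj v.1 w)).image
      (fun v => v.1) ⊆ W.biUnion (fun w => nb (thin G P) w) := by
    intro v hv
    rw [mem_image] at hv
    obtain ⟨v, hv, rfl⟩ := hv
    rw [mem_filter] at hv
    obtain ⟨_, w, hw, h⟩ := hv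
    rw [mem_biUnion]
    exact ⟨w, hw, (mem_nb _ _ _).2 h.symm⟩
  rw [← card_image_of_injective _ (Subtype.val_injective :
    Function.Injective (fun v : Ts P n => v.1))]
  exact le_trans (card_le_card h) card_biUnion_le

/-- vertices outside `V0` with own colour `b` -/
theorem card_own (Mx : ℕ) (b1 : ℝ) (G : SimpleGraph V) (d : ℕ) (P : Pcs V M) (t : V → V → ℕ)
    (c0 : V → ℕ) (Sp : Finset ℕ) (Dn : Finset (Fin M)) (c : V → ℕ)
    (hI : Inv Mx b1 G d P t c0 Sp Dn c) (b : ℕ) :
    ((univ : Finset V).filter (fun v => v ∉ P.V0 ∧ P.pc v ∈ Dn ∧ c v = b)).card ≤ M * Mx := by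
  have h : (univ : Finset V).filter (fun v => v ∉ P.V0 ∧ P.pc v ∈ Dn ∧ c v = b) ⊆
      Dn.biUnion (fun n => (pV P n).filter (fun v => c v = b)) := by
    intro v hv
    simp only [mem_filter, mem_univ, true_and] at hv
    rw [mem_biUnion]
    refine ⟨P.pc v, hv.2.1, ?_⟩
    simp only [pV, mem_filter, mem_univ, true_and]
    exact ⟨⟨hv.1, trivial⟩, hv.2.2⟩
  refine le_trans (card_le_card h) (le_trans card_biUnion_le ?_)
  refine le_trans (sum_le_card_nsmul _ _ Mx (fun n hn => hI.cls b n hn)) ?_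
  rw [smul_eq_mul]
  apply Nat.mul_le_mul_right
  have := card_le_univ Dn
  simpa using this

/-- generic colours are forbidden at few vertices of a piece -/
theorem us_Af_generic (Mx : ℕ) (b1 x1 x2 : ℝ) (G : SimpleGraph V) (d : ℕ) (P : Pcs V M)
    (t : V → V → ℕ) (c0 : V → ℕ) (Sp : Finset ℕ) (Dn : Finset (Fin M)) (c : V → ℕ)
    (hI : Inv Mx b1 G d P t c0 Sp Dn c) (hS : ∀ z ∈ P.V0, c0 z ∈ Sp)
    (hx1 : ∀ n b, ((us (Fn G P t n) b).card : ℝ) ≤ x1)
    (hx2 : ∀ v, v ∉ P.V0 → ((nb (thin G P) v).card : ℝ) ≤ x2) (h0 : 0 ≤ x2)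
    (n : Fin M) (b : ℕ) (hb : b ∉ Sp) :
    ((us (fun v : Ts P n => Af b1 G P t Sp Dn c v.1) b).card : ℝ) ≤ x1 + M * Mx * x2 := by
  set W : Finset V := (univ : Finset V).filter (fun v => v ∉ P.V0 ∧ P.pc v ∈ Dn ∧ c v = b) with hW
  have hsub : us (fun v : Ts P n => Af b1 G P t Sp Dn c v.1) b ⊆ us (Fn G P t n) b ∪
      (univ : Finset (Ts P n)).filter (fun v => ∃ w ∈ W, (thin G P).Adj v.1 w) := by
    intro v hv
    rw [mem_us] at hv
    simp only [Af, mem_union, mem_image, mem_inter, mem_nb] at hv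
    rw [mem_union]
    rcases hv with (hv | ⟨w, ⟨hw, hwD⟩, hwb⟩) | hv
    · left
      rw [mem_us]
      exact hv
    · right
      simp only [mem_filter, mem_univ, true_and]
      refine ⟨w, ?_, hw⟩
      simp only [hW, mem_filter, mem_univ, true_and]
      simp only [DV, mem_filter, mem_univ, true_and] at hwD
      by_cases hw0 : w ∈ P.V0
      · exfalso
        apply hb
        rw [← hwb, hI.c0 w hw0]
        exact hS w hw0
      · rcases hwD with hwD | hwD
        · exact absurd hwD hw0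
        · exact ⟨hw0, hwD, hwb⟩
    · split_ifs at hv with hlt
      · simp at hv
      · exact absurd hv hb
  have h1 : ((us (fun v : Ts P n => Af b1 G P t Sp Dn c v.1) b).card : ℝ) ≤
      ((us (Fn G P t n) b).card : ℝ) +
        (((univ : Finset (Ts P n)).filter (fun v => ∃ w ∈ W, (thin G P).Adj v.1 w)).card : ℝ) := by
    exact_mod_cast le_trans (card_le_card hsub) (card_union_le _ _)
  have h2 : (((univ : Finset (Ts P n)).filter (fun v => ∃ w ∈ W, (thin G P).Adj v.1 w)).card : ℝ)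
      ≤ M * Mx * x2 := by
    have h3 := card_thin_nb G P n W
    have h4 : ((∑ w ∈ W, (nb (thin G P) w).card : ℕ) : ℝ) ≤ W.card * x2 := by
      push_cast
      have : ∀ w ∈ W, ((nb (thin G P) w).card : ℝ) ≤ x2 := by
        intro w hw
        simp only [hW, mem_filter, mem_univ, true_and] at hw
        exact hx2 w hw.1
      have := sum_le_card_nsmul W _ x2 this
      simpa [nsmul_eq_mul] using this
    have h5 : (W.card : ℝ) ≤ M * Mx := by
      exact_mod_cast card_own Mx b1 G d P t c0 Sp Dn c hI b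
    calc (((univ : Finset (Ts P n)).filter (fun v => ∃ w ∈ W, (thin G P).Adj v.1 w)).card : ℝ)
        ≤ ((∑ w ∈ W, (nb (thin G P) w).card : ℕ) : ℝ) := by exact_mod_cast h3
      _ ≤ W.card * x2 := h4
      _ ≤ M * Mx * x2 := mul_le_mul_of_nonneg_right h5 h0
  linarith [hx1 n b]

/-- colours of `Sp` are allowed at most nonneighbours of their vertex -/
theorem us_Af_special (Mx : ℕ) (b1 x1 x3 x4 : ℝ) (G : SimpleGraph V) (d : ℕ) (P : Pcs V M)
    (t : V → V → ℕ) (c0 : V → ℕ) (Sp : Finset ℕ) (Dn : Finset (Fin M)) (c : V → ℕ)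
    (hI : Inv Mx b1 G d P t c0 Sp Dn c) (hinj : Set.InjOn c0 (P.V0 : Set V))
    (hx1 : ∀ n b, ((us (Fn G P t n) b).card : ℝ) ≤ x1)
    (hx3 : ((univ.filter (fun v => v ∉ P.V0 ∧ ¬ ((nb (thin G P) v).card : ℝ) ≤ b1)).card : ℝ) ≤ x3)
    (hb1 : 0 ≤ b1) (n : Fin M) (z : V) (hz : z ∈ P.V0) (hzS : c0 z ∈ Sp) (S : Finset (Ts P n))
    (hS : x4 ≤ ((S.filter (fun v => ¬ G.Adj z v.1)).card : ℝ)) :
    x4 - x1 - x3 - M * Mx * b1 ≤
      ((S \ us (fun v : Ts P n => Af b1 G P t Sp Dn c v.1) (c0 z)).card : ℝ) := by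
  set b := c0 z with hb
  set W : Finset V := (univ : Finset V).filter (fun v => v ∉ P.V0 ∧ P.pc v ∈ Dn ∧ c v = b) with hW
  set T1 := us (Fn G P t n) b
  set T2 := (univ : Finset (Ts P n)).filter (fun v => ∃ w ∈ W, (thin G P).Adj v.1 w)
  set T3 := (univ : Finset (Ts P n)).filter (fun v => ¬ ((nb (thin G P) v.1).card : ℝ) ≤ b1)
  have hsub : S.filter (fun v => ¬ G.Adj z v.1) ⊆
      (S \ us (fun v : Ts P n => Af b1 G P t Sp Dn c v.1) b) ∪ (T1 ∪ (T2 ∪ T3)) := by
    intro v hv
    rw [mem_filter] at hv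
    by_cases hvA : v ∈ us (fun v : Ts P n => Af b1 G P t Sp Dn c v.1) b
    · apply mem_union_right
      rw [mem_us] at hvA
      simp only [Af, mem_union, mem_image, mem_inter, mem_nb] at hvA
      rcases hvA with (hv' | ⟨w, ⟨hw, hwD⟩, hwb⟩) | hv'
      · apply mem_union_left
        simp only [T1]
        rw [mem_us]
        exact hv'
      · apply mem_union_right
        apply mem_union_left
        simp only [T2, mem_filter, mem_univ, true_and]
        refine ⟨w, ?_, hw⟩
        simp only [hW, mem_filter, mem_univ, true_and]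
        simp only [DV, mem_filter, mem_univ, true_and] at hwD
        by_cases hw0 : w ∈ P.V0
        · exfalso
          have : w = z := by
            apply hinj hw0 hz
            rw [← hI.c0 w hw0, hwb]
          subst this
          exact hv.2 hw.1.symm
        · rcases hwD with hwD | hwD
          · exact absurd hwD hw0
          · exact ⟨hw0, hwD, hwb⟩
      · apply mem_union_right
        apply mem_union_right
        simp only [T3, mem_filter, mem_univ, true_and]
        intro hlt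
        simp only [hlt, if_true] at hv'
        simp at hv'
    · apply mem_union_left
      rw [mem_sdiff]
      exact ⟨hv.1, hvA⟩
  have h2 : (T2.card : ℝ) ≤ M * Mx * b1 := by
    have h3 := card_thin_nb G P n W
    have h4 : ((∑ w ∈ W, (nb (thin G P) w).card : ℕ) : ℝ) ≤ W.card * b1 := by
      push_cast
      have : ∀ w ∈ W, ((nb (thin G P) w).card : ℝ) ≤ b1 := by
        intro w hw
        simp only [hW, mem_filter, mem_univ, true_and] at hw
        apply hI.csp w hw.1 hw.2.1
        rw [hw.2.2]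
        exact hzS
      have := sum_le_card_nsmul W _ b1 this
      simpa [nsmul_eq_mul] using this
    have h5 : (W.card : ℝ) ≤ M * Mx := by
      exact_mod_cast card_own Mx b1 G d P t c0 Sp Dn c hI b
    calc (T2.card : ℝ) ≤ ((∑ w ∈ W, (nb (thin G P) w).card : ℕ) : ℝ) := by exact_mod_cast h3
      _ ≤ W.card * b1 := h4
      _ ≤ M * Mx * b1 := mul_le_mul_of_nonneg_right h5 hb1
  have h3 : (T3.card : ℝ) ≤ x3 := by
    refine le_trans ?_ hx3
    have h6 : T3.card ≤
        (univ.filter (fun v => v ∉ P.V0 ∧ ¬ ((nb (thin G P) v).card : ℝ) ≤ b1)).card := by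
      apply card_le_card_of_injOn (fun v => v.1)
      · intro v hv
        simp only [T3, coe_filter, mem_univ, true_and, Set.mem_setOf_eq] at hv
        simp only [coe_filter, mem_univ, true_and, Set.mem_setOf_eq]
        exact ⟨v.2.1, hv⟩
      · intro v _ w _ h
        exact Subtype.ext h
    exact_mod_cast h6
  have h7 : ((S.filter (fun v => ¬ G.Adj z v.1)).card : ℝ) ≤
      ((S \ us (fun v : Ts P n => Af b1 G P t Sp Dn c v.1) b).card : ℝ) +
        ((T1.card : ℝ) + (T2.card + T3.card)) := by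
    have a1 := card_le_card hsub
    have a2 := card_union_le (S \ us (fun v : Ts P n => Af b1 G P t Sp Dn c v.1) b)
      (T1 ∪ (T2 ∪ T3))
    have a3 := card_union_le T1 (T2 ∪ T3)
    have a4 := card_union_le T2 T3
    exact_mod_cast (by omega : (S.filter (fun v => ¬ G.Adj z v.1)).card ≤
      (S \ us (fun v : Ts P n => Af b1 G P t Sp Dn c v.1) b).card +
        (T1.card + (T2.card + T3.card)))
  have h8 := hx1 n b
  linarith

end state

end Pool.Agent.Work.MP_db9399_da.helper62
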