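import Pool.Agent.Work.MP_db9399_da_helper62.Asm1

/-!
# MP_db9399, DENSE-ALL: assembly, part 2 (owner helper62)

The inputs `LI`, `LN`, `LB`, `LK` of the local theorems.
-/

set_option autoImplicit false

namespace Pool.Agent.Work.MP_db9399_da.helper62

open Finset Classical
open Pool.Agent.Work.MP_db9399_all (nb)
open Pool.Agent.Work.MP_db9399_nc (nn)
open Pool.Agent.Work.MP_db9399_lt (us)
open Pool.Agent.Work.MP_db9399_dn (Tot)

universe u

/-! ### Palettes -/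

theorem Pal_Q_sub {A : Pal} {d : ℕ} {π κ : ℝ} (hA : PalP A d π κ) (i : Bool) :
    A.Q i ⊆ range (d + 2) := by
  cases i
  · exact hA.Q0.trans (hA.Clt 0)
  · exact hA.Q1.trans (hA.Clt 1)

theorem Pal_P2_sub {A : Pal} {d : ℕ} {π κ : ℝ} (hA : PalP A d π κ) : A.P2 ⊆ range (d + 2) :=
  hA.P2C.trans (hA.Clt 2)

theorem Pal_QQ {A : Pal} {d : ℕ} {π κ : ℝ} (hA : PalP A d π κ) :
    Disjoint (A.Q false) (A.Q true) :=
  disjoint_of_subset_left hA.Q0 (disjoint_of_subset_right hA.Q1 (hA.Cdis 0 1 (by decide)))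

theorem Pal_QP {A : Pal} {d : ℕ} {π κ : ℝ} (hA : PalP A d π κ) (i : Bool) :
    Disjoint (A.Q i) A.P2 := by
  cases i
  · exact disjoint_of_subset_left hA.Q0
      (disjoint_of_subset_right hA.P2C (hA.Cdis 0 2 (by decide)))
  · exact disjoint_of_subset_left hA.Q1
      (disjoint_of_subset_right hA.P2C (hA.Cdis 1 2 (by decide)))

theorem Pal_C0_sub {A : Pal} {d : ℕ} {π κ : ℝ} (hA : PalP A d π κ) :
    A.C0 d ⊆ P1 d A.Q A.P2 := by
  intro b hb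
  simp only [Pal.C0, P1, mem_sdiff, mem_union, not_or] at hb ⊢
  exact ⟨hb.1, ⟨fun h => hb.2.1.1 (hA.Q0 h), fun h => hb.2.1.2 (hA.Q1 h)⟩,
    fun h => hb.2.2 (hA.P2C h)⟩

theorem Pal_C0_dis {A : Pal} {d : ℕ} (j : Fin 3) : Disjoint (A.C0 d) (A.C j) := by
  rw [disjoint_left]
  intro b hb hj
  simp only [Pal.C0, mem_sdiff, mem_union, not_or] at hb
  fin_cases j
  · exact hb.2.1.1 hj
  · exact hb.2.1.2 hj
  · exact hb.2.2 hj

theorem P1_card {A : Pal} {d : ℕ} {π κ : ℝ} (hA : PalP A d π κ) :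
    (1 - 4 * κ - 2 * π) * d ≤ ((P1 d A.Q A.P2).card : ℝ) := by
  have h1 : (range (d + 2)).card ≤
      (P1 d A.Q A.P2).card + ((A.Q false).card + (A.Q true).card + A.P2.card) := by
    have h2 : (range (d + 2)) ⊆ P1 d A.Q A.P2 ∪ (A.Q false ∪ A.Q true ∪ A.P2) := by
      intro b hb
      by_cases h : b ∈ A.Q false ∪ A.Q true ∪ A.P2
      · exact mem_union_right _ h
      · exact mem_union_left _ (mem_sdiff.2 ⟨hb, h⟩)
    have h3 := card_le_card h2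
    have h4 := card_union_le (P1 d A.Q A.P2) (A.Q false ∪ A.Q true ∪ A.P2)
    have h5 := card_union_le (A.Q false ∪ A.Q true) A.P2
    have h6 := card_union_le (A.Q false) (A.Q true)
    omega
  rw [card_range] at h1
  have h2 : ((d : ℝ) + 2) ≤ (P1 d A.Q A.P2).card +
      ((A.Q false).card + (A.Q true).card + A.P2.card) := by exact_mod_cast h1
  have h3 := (hA.Qc false).2
  have h4 := (hA.Qc true).2
  have h5 := hA.Pc.2
  nlinarith

section inputs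
variable {V : Type u} {M : ℕ} [Fintype V]

/-- common constants -/
structure Con (C g ρ ρ' π κ ε ζ θ θL : ℝ) (M Mx d : ℕ) : Prop where
  C1 : 1 ≤ C
  g1 : g = 1 / 10 ^ 28
  r0 : 0 < ρ'
  r1 : ρ' ≤ ρ
  e0 : 0 < ε
  e1 : ε ≤ θL
  e2 : ε ≤ 1 / 10 ^ 30
  z0 : 0 < ζ
  z1 : (2 + (M : ℝ) * Mx) * ζ ≤ θL / 2
  z2 : (2 + (M : ℝ) * Mx) * ζ ≤ 1 / 10 ^ 30
  t0 : 0 < θ
  t1 : 10 ^ 6 * (1 + (M : ℝ) * Mx) * θ ≤ ζ ^ 2
  t2 : θ ≤ θL / 4
  d0 : 10 ^ 40 ≤ d
  d1 : 10 ^ 6 ≤ ζ * d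
  d2 : (Mx : ℝ) + 1 ≤ θL / 4 * d

/-- the bound for thin degrees of vertices with own colour in `Sp` -/
noncomputable def bb (ζ : ℝ) (M Mx d : ℕ) : ℝ := ζ * d / (1000 * (1 + (M : ℝ) * Mx))

theorem deg_bk {C g ρ ζ θ : ℝ} {G : SimpleGraph V} {d : ℕ} {P : Pcs V M} {t : V → V → ℕ}
    (hD : DecP C g ρ ζ θ G d P) (hinj : ∀ v, Set.InjOn (t v) (nb (thin G P) v : Set V))
    (n : Fin M) (v : Ts P n) : (nb (bk G P n) v).card + (Fn G P t n v).card = d := by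
  rw [card_nb_bk]
  unfold Fn
  rw [card_Fc G P t v.1 (hinj v.1), nb_split, hD.reg]

theorem Fn_card {C g ρ ζ θ : ℝ} {G : SimpleGraph V} {d : ℕ} {P : Pcs V M} {t : V → V → ℕ}
    (hD : DecP C g ρ ζ θ G d P) (n : Fin M) (v : Ts P n) :
    ((Fn G P t n v).card : ℝ) ≤ ζ * d := by
  refine le_trans ?_ (hD.thd v.1 v.2.1)
  exact_mod_cast card_image_le

theorem mem_Fc_lt {G : SimpleGraph V} {d : ℕ} {P : Pcs V M} {t : V → V → ℕ}
    (lt : ∀ v w, (thin G P).Adj v w → t v w < d + 2) (v : V) (b : ℕ) (hb : b ∈ Fc G P t v) :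
    b < d + 2 := by
  unfold Fc at hb
  rw [mem_image] at hb
  obtain ⟨w, hw, rfl⟩ := hb
  exact lt v w ((mem_nb _ _ _).1 hw)

theorem LI_of {C g ρ ρ' π κ ε ζ θ θL : ℝ} {Mx : ℕ} {G : SimpleGraph V} {d : ℕ} {P : Pcs V M}
    {A : Pal} {t : V → V → ℕ} {c0 : V → ℕ} {Sp : Finset ℕ}
    (hc : Con C g ρ ρ' π κ ε ζ θ θL M Mx d)
    (hD : DecP C g ρ ζ θ G d P) (hL : PartL ρ' ε G d P) (hA : PalP A d π κ)
    (hR : PreP ε ζ G d P A t c0 Sp) (n : Fin M) (hn : P.ty n = Ty.N ∨ P.ty n = Ty.B)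
    (F' : Ts P n → Finset ℕ) (hF1 : ∀ v, (F' v).card ≤ (Fn G P t n v).card + 1)
    (hF2 : ∀ v, ∀ b ∈ F' v, b ∈ Fn G P t n v ∨ b ∈ P1 d A.Q A.P2)
    (hF3 : ∀ v, Fn G P t n v ⊆ F' v)
    (hF4 : ∀ b, ((us F' b).card : ℝ) ≤ ((us (Fn G P t n) b).card : ℝ) + Mx) :
    LI (bk G P n) d C ρ' π κ θL (sdn P n) (ptn P n) A.Q A.P2 F' := by
  have hd0 : (0 : ℝ) ≤ d := Nat.cast_nonneg d
  have hM0 : (0 : ℝ) ≤ (M : ℝ) * Mx := by positivity
  have hus : ∀ b, b ∉ P1 d A.Q A.P2 → us F' b = us (Fn G P t n) b := by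
    intro b hb
    ext v
    rw [mem_us, mem_us]
    constructor
    · intro h
      rcases hF2 v b h with h | h
      · exact h
      · exact absurd h hb
    · intro h
      exact hF3 v h
  have hnP : ∀ i, ∀ b ∈ A.Q i ∪ A.P2, b ∉ P1 d A.Q A.P2 := by
    intro i b hb h
    simp only [P1, mem_sdiff, mem_union, not_or] at h
    rw [mem_union] at hb
    rcases hb with hb | hb
    · cases i
      · exact h.2.1.1 hb
      · exact h.2.1.2 hb
    · exact h.2.2 hb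
  have hsgp : ∀ i j, ∀ b ∈ A.Q j ∪ A.P2, sgp F' (sdn P n) (ptn P n) i b =
      sgp (Fn G P t n) (sdn P n) (ptn P n) i b := by
    intro i j b hb
    unfold sgp
    rw [hus b (hnP j b hb)]
  have hze : ζ * d ≤ θL / 4 * d := by
    have h1 := hc.z1
    have h2 : 2 * ζ ≤ (2 + (M : ℝ) * Mx) * ζ := by
      nlinarith [hc.z0]
    nlinarith
  have he : ε * d ≤ θL * d := by
    nlinarith [hc.e1]
  refine ⟨?_, ?_, ?_, ?_, Pal_Q_sub hA, Pal_P2_sub hA, Pal_QQ hA, Pal_QP hA, hA.Qc, hA.Pc, ?_, ?_,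
    ?_, ?_, ?_, ?_⟩
  · refine le_trans ?_ hD.siz
    exact_mod_cast card_Ts_le P n
  · intro v b hb
    rcases hF2 v b hb with h | h
    · exact mem_Fc_lt hR.lt v.1 b h
    · have := (mem_sdiff.1 h).1
      rwa [mem_range] at this
  · intro v
    have h1 : ((F' v).card : ℝ) ≤ (Fn G P t n v).card + 1 := by exact_mod_cast hF1 v
    have h2 := Fn_card (t := t) hD n v
    have h3 := hc.d2
    have h4 : (0 : ℝ) ≤ Mx := Nat.cast_nonneg Mx
    nlinarith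
  · intro b
    have h1 := hF4 b
    have h2 := hR.load n b
    have h3 := hc.d2
    have h4 : ε * ζ * d ≤ ζ * d := by
      have : ε ≤ 1 := le_trans hc.e2 (by norm_num)
      have h5 : 0 ≤ ζ * d := mul_nonneg hc.z0.le hd0
      nlinarith
    nlinarith
  · intro v
    have h1 := hR.rN v.1 v.2.1 (by rw [v.2.2]; exact hn)
    rw [disjoint_left]
    intro b hb hb'
    rcases hF2 v b hb with h | h
    · exact disjoint_left.1 h1 h hb'
    · exact hnP (P.pt v.1) b (mem_union_left _ hb') h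
  · intro i b hb
    rw [hsgp i (!i) b hb]
    exact hR.sPQ n hn i b hb
  · intro i
    have h1 : ∑ b ∈ A.P2, sgp F' (sdn P n) (ptn P n) i b =
        ∑ b ∈ A.P2, sgp (Fn G P t n) (sdn P n) (ptn P n) i b :=
      sum_congr rfl (fun b hb => hsgp i false b (mem_union_right _ hb))
    rw [h1]
    exact le_trans (hR.sm2 n hn i) he
  · intro i
    have h1 : ∑ b ∈ A.Q (!i), sgp F' (sdn P n) (ptn P n) i b =
        ∑ b ∈ A.Q (!i), sgp (Fn G P t n) (sdn P n) (ptn P n) i b :=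
      sum_congr rfl (fun b hb => hsgp i (!i) b (mem_union_left _ hb))
    rw [h1]
    exact le_trans (hR.smQ n hn i) he
  · intro S
    have h0 := hD.cut n hn S
    have h1 : (0 : ℝ) ≤ (S.card : ℝ) * (univ \ S).card := by positivity
    have h2 : ρ' * S.card * (univ \ S).card ≤ ρ * S.card * (univ \ S).card := by
      nlinarith [hc.r1]
    have h3 : ρ' * S.card * (univ \ S).card ≤
        ∑ v ∈ S, ((nb (bk G P n) v \ S).card : ℝ) := by linarith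
    exact dec_irrel (p := fun (_ : DecidableEq (Ts P n)) => ρ' * S.card * (univ \ S).card ≤
      ∑ v ∈ S, ((nb (bk G P n) v \ S).card : ℝ)) h3
  · intro i S hS
    have h0 := hL.cutP n hn i S hS
    exact dec_irrel (p := fun (_ : DecidableEq (Ts P n)) => ρ' * S.card * (prt (ptn P n) i \ S).card ≤
      ∑ v ∈ S, (((nb (bk G P n) v \ S) ∩
        qtr (sdn P n) (ptn P n) (!(sdn P n v)) i).card : ℝ)) h0

/-! ### Type N -/

theorem LN_of {C g ρ ρ' π κ ε ζ θ θL : ℝ} {Mx : ℕ} {G : SimpleGraph V} {d : ℕ} {P : Pcs V M}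
    {A : Pal} {t : V → V → ℕ} {c0 : V → ℕ} {Sp : Finset ℕ}
    (hc : Con C g ρ ρ' π κ ε ζ θ θL M Mx d)
    (hD : DecP C g ρ ζ θ G d P) (hL : PartL ρ' ε G d P)
    (hR : PreP ε ζ G d P A t c0 Sp) (n : Fin M) (hn : P.ty n = Ty.N)
    (c : Ts P n → ℕ) (hcF : ∀ v, c v ∉ Fn G P t n v) :
    LN (bk G P n) d (g / 2) ρ' θL (sdn P n) (ptn P n) (fun v => insert (c v) (Fn G P t n v)) := by
  have hd0 : (0 : ℝ) ≤ d := Nat.cast_nonneg d
  refine ⟨hD.nL n hn, ?_, ?_, hL.nS n hn, ?_⟩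
  · intro v
    have h1 := deg_bk hD hR.inj n v
    rw [card_insert_of_notMem (hcF v)]
    omega
  · intro v β i
    have h0 := hL.nD n hn v β i
    have h1 : ε * (d : ℝ) ≤ θL * d := by nlinarith [hc.e1]
    have h3 : |((nb (bk G P n) v ∩ qtr (sdn P n) (ptn P n) β i).card : ℝ) - d / 4| ≤ θL * d := by
      linarith
    exact dec_irrel (p := fun (_ : DecidableEq (Ts P n)) => |((nb (bk G P n) v ∩ qtr (sdn P n) (ptn P n) β i).card : ℝ) -
      d / 4| ≤ θL * d) h3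
  · intro S
    have h0 := hD.nbi n hn S
    have h1 : (0 : ℝ) ≤ (d : ℝ) ^ 2 := by positivity
    have h2 : ρ' * (d : ℝ) ^ 2 ≤ ρ * (d : ℝ) ^ 2 := by nlinarith [hc.r1]
    have h3 : ρ' * (d : ℝ) ^ 2 ≤ ∑ v ∈ S, ((nb (bk G P n) v ∩ S).card : ℝ) +
        ∑ v ∈ univ \ S, ((nb (bk G P n) v \ S).card : ℝ) := by linarith
    exact dec_irrel (p := fun (_ : DecidableEq (Ts P n)) => ρ' * (d : ℝ) ^ 2 ≤
      ∑ v ∈ S, ((nb (bk G P n) v ∩ S).card : ℝ) +
        ∑ v ∈ univ \ S, ((nb (bk G P n) v \ S).card : ℝ)) h3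

/-! ### Type B -/

theorem bb_pos {C g ρ ρ' π κ ε ζ θ θL : ℝ} {Mx d : ℕ}
    (hc : Con C g ρ ρ' π κ ε ζ θ θL M Mx d) : 0 < bb ζ M Mx d := by
  unfold bb
  have h1 : (0 : ℝ) < d := by
    have := hc.d0
    exact_mod_cast lt_of_lt_of_le (by norm_num) this
  have h2 : (0 : ℝ) ≤ (M : ℝ) * Mx := by positivity
  have := hc.z0
  positivity

theorem bb_le {C g ρ ρ' π κ ε ζ θ θL : ℝ} {Mx d : ℕ}
    (hc : Con C g ρ ρ' π κ ε ζ θ θL M Mx d) :
    1000 * bb ζ M Mx d ≤ ζ * d ∧ 1000 * ((M : ℝ) * Mx * bb ζ M Mx d) ≤ ζ * d := by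
  unfold bb
  have h2 : (0 : ℝ) ≤ (M : ℝ) * Mx := by positivity
  have h1 : (0 : ℝ) ≤ ζ * d := mul_nonneg hc.z0.le (Nat.cast_nonneg d)
  constructor
  · rw [← mul_div_assoc, div_le_iff₀ (by positivity)]
    nlinarith
  · rw [← mul_div_assoc, ← mul_div_assoc, div_le_iff₀ (by positivity)]
    nlinarith

/-- few vertices of large thin degree -/
theorem card_big {C g ρ ρ' π κ ε ζ θ θL : ℝ} {Mx : ℕ} {G : SimpleGraph V} {d : ℕ} {P : Pcs V M}
    (hc : Con C g ρ ρ' π κ ε ζ θ θL M Mx d)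
    (hD : DecP C g ρ ζ θ G d P) :
    ((univ.filter (fun v => v ∉ P.V0 ∧
      ¬ ((nb (thin G P) v).card : ℝ) ≤ bb ζ M Mx d)).card : ℝ) ≤ ζ * d / 1000 := by
  set S := univ.filter (fun v => v ∉ P.V0 ∧ ¬ ((nb (thin G P) v).card : ℝ) ≤ bb ζ M Mx d) with hS
  have hb := bb_pos hc
  have h1 : (S.card : ℝ) * bb ζ M Mx d ≤ θ * (d : ℝ) ^ 2 := by
    refine le_trans ?_ hD.ths
    have h2 : (S.card : ℝ) * bb ζ M Mx d ≤ ∑ v ∈ S, ((nb (thin G P) v).card : ℝ) := by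
      have := card_nsmul_le_sum S (fun v => ((nb (thin G P) v).card : ℝ)) (bb ζ M Mx d) (by
        intro v hv
        rw [hS, mem_filter] at hv
        exact (not_le.1 hv.2.2).le)
      simpa [nsmul_eq_mul] using this
    refine le_trans h2 (sum_le_sum_of_subset_of_nonneg ?_ (fun _ _ _ => by positivity))
    intro v hv
    rw [hS, mem_filter] at hv
    exact mem_sdiff.2 ⟨mem_univ _, hv.2.1⟩
  have hd : (0 : ℝ) < d := by
    have := hc.d0
    exact_mod_cast lt_of_lt_of_le (by norm_num) this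
  have hq : (0 : ℝ) ≤ (M : ℝ) * Mx := by positivity
  have hz := hc.z0
  have h3 : θ * (d : ℝ) ^ 2 ≤ ζ * d / 1000 * bb ζ M Mx d := by
    unfold bb
    rw [← mul_div_assoc, le_div_iff₀ (by positivity)]
    have h4 := hc.t1
    have h5 : 10 ^ 6 * (1 + (M : ℝ) * Mx) * θ * (d : ℝ) ^ 2 ≤ ζ ^ 2 * (d : ℝ) ^ 2 :=
      mul_le_mul_of_nonneg_right h4 (by positivity)
    nlinarith
  have h4 : (S.card : ℝ) * bb ζ M Mx d ≤ ζ * d / 1000 * bb ζ M Mx d := le_trans h1 h3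
  exact le_of_mul_le_mul_right h4 hb

/-- the side `β` without the vertices where `c0 z` is forbidden -/
theorem special_side {C g ρ ρ' π κ ε ζ θ θL : ℝ} {Mx : ℕ} {G : SimpleGraph V} {d : ℕ}
    {P : Pcs V M} {A : Pal} {t : V → V → ℕ} {c0 : V → ℕ} {Sp : Finset ℕ}
    (hc : Con C g ρ ρ' π κ ε ζ θ θL M Mx d)
    (hD : DecP C g ρ ζ θ G d P) (hR : PreP ε ζ G d P A t c0 Sp) (Dn : Finset (Fin M)) (c : V → ℕ)
    (hI : Inv Mx (bb ζ M Mx d) G d P t c0 Sp Dn c) (n : Fin M) (z : V) (hz : z ∈ P.V0)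
    (S : Finset (Ts P n)) (hS : ζ / 4 * d ≤ ((S.filter (fun v => ¬ G.Adj z v.1)).card : ℝ)) :
    ⌊ζ * d / 8⌋₊ ≤
      (S \ us (fun v : Ts P n => Af (bb ζ M Mx d) G P t Sp Dn c v.1) (c0 z)).card := by
  have hzS : c0 z ∈ Sp := by
    rw [hR.own]
    exact mem_image_of_mem _ hz
  have h1 := us_Af_special Mx (bb ζ M Mx d) (ε * ζ * d) (ζ * d / 1000) (ζ / 4 * d) G d P t c0 Sp
    Dn c hI hR.oin hR.load (card_big hc hD) (bb_pos hc).le n z hz hzS S hS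
  have h2 := (bb_le hc).2
  have h3 : 0 ≤ ζ * d := mul_nonneg hc.z0.le (Nat.cast_nonneg d)
  have h4 : ε * ζ * d ≤ ζ * d / 1000 := by
    have := hc.e2
    have h5 : ε ≤ 1 / 1000 := le_trans this (by norm_num)
    nlinarith
  apply Nat.floor_le_of_le
  nlinarith

end inputs

end Pool.Agent.Work.MP_db9399_da.helper62
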