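import Pool.Agent.Work.MP_db9399_da_helper62.Asm2

/-!
# MP_db9399, DENSE-ALL: assembly, part 3 (owner helper62)

Pieces of types B and K.
-/

set_option autoImplicit false

namespace Pool.Agent.Work.MP_db9399_da.helper62

open Finset Classical
open Pool.Agent.Work.MP_db9399_all (nb)
open Pool.Agent.Work.MP_db9399_nc (nn)
open Pool.Agent.Work.MP_db9399_lt (us)
open Pool.Agent.Work.MP_db9399_dn (Tot)

universe u

section inputs
variable {V : Type u} {M : ℕ} [Fintype V]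

theorem Sp_card {C g ρ ζ θ ε : ℝ} {G : SimpleGraph V} {d : ℕ} {P : Pcs V M}
    {A : Pal} {t : V → V → ℕ} {c0 : V → ℕ} {Sp : Finset ℕ}
    (hD : DecP C g ρ ζ θ G d P) (hR : PreP ε ζ G d P A t c0 Sp) : (Sp.card : ℝ) ≤ θ * d := by
  refine le_trans ?_ hD.V0c
  rw [hR.own]
  exact_mod_cast card_image_le

theorem theta_le {C g ρ ρ' π κ ε ζ θ θL : ℝ} {Mx d : ℕ}
    (hc : Con C g ρ ρ' π κ ε ζ θ θL M Mx d) : 10 ^ 6 * (θ * d) ≤ ζ * d ∧ ζ ≤ 1 / 10 ^ 30 := by
  have hM0 : (0 : ℝ) ≤ (M : ℝ) * Mx := by positivity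
  have h1 : ζ ≤ 1 / 10 ^ 30 := by
    have := hc.z2
    have := hc.z0
    nlinarith
  refine ⟨?_, h1⟩
  have h2 := hc.t1
  have h3 : 10 ^ 6 * θ ≤ ζ := by
    have h4 : 10 ^ 6 * θ ≤ 10 ^ 6 * (1 + (M : ℝ) * Mx) * θ := by
      have := hc.t0
      nlinarith
    have h5 : ζ ^ 2 ≤ ζ := by
      have := hc.z0
      have : ζ ≤ 1 := le_trans h1 (by norm_num)
      nlinarith
    linarith
  have hd0 : (0 : ℝ) ≤ d := Nat.cast_nonneg d
  nlinarith

theorem z_floor {C g ρ ρ' π κ ε ζ θ θL : ℝ} {Mx d : ℕ}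
    (hc : Con C g ρ ρ' π κ ε ζ θ θL M Mx d) : ζ * d / 10 ≤ (⌊ζ * d / 8⌋₊ : ℝ) := by
  have h1 := Nat.lt_floor_add_one (ζ * d / 8)
  have h2 := hc.d1
  have h3 : (40 : ℝ) ≤ ζ * d := le_trans (by norm_num) h2
  linarith

theorem Af_real {C g ρ ρ' π κ ε ζ θ θL : ℝ} {Mx : ℕ} {G : SimpleGraph V} {d : ℕ} {P : Pcs V M}
    {A : Pal} {t : V → V → ℕ} {c0 : V → ℕ} {Sp : Finset ℕ} (b1 : ℝ)
    (hc : Con C g ρ ρ' π κ ε ζ θ θL M Mx d)
    (hD : DecP C g ρ ζ θ G d P) (hR : PreP ε ζ G d P A t c0 Sp) (Dn : Finset (Fin M))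
    (c : V → ℕ) (v : V) (hv : v ∉ P.V0) :
    ((Af b1 G P t Sp Dn c v).card : ℝ) ≤ 3 * (ζ * d) := by
  have h1 : ((Af b1 G P t Sp Dn c v).card : ℝ) ≤ 2 * (nb (thin G P) v).card + Sp.card := by
    exact_mod_cast Af_card b1 G P t Sp Dn c v
  have h2 := hD.thd v hv
  have h3 := Sp_card hD hR
  have h4 := (theta_le hc).1
  have h5 : 0 ≤ ζ * d := mul_nonneg hc.z0.le (Nat.cast_nonneg d)
  linarith

theorem not_big_of {b1 : ℝ} {G : SimpleGraph V} {P : Pcs V M} {t : V → V → ℕ}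
    {Sp : Finset ℕ} {Dn : Finset (Fin M)} {c : V → ℕ} {v : V} {b : ℕ} (hb : b ∈ Sp)
    (hv : b ∉ Af b1 G P t Sp Dn c v) : ((nb (thin G P) v).card : ℝ) ≤ b1 := by
  by_contra h
  apply hv
  simp only [Af, mem_union, h, if_false]
  exact Or.inr hb

theorem mem_sid {W : Type u} [Fintype W] (sd : W → Bool) (β : Bool) (v : W) :
    v ∈ sid sd β ↔ sd v = β := by
  simp [sid]

theorem side_conv (G : SimpleGraph V) (P : Pcs V M) (n : Fin M) (β : Bool) (z : V) :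
    ((sid (sdn P n) β).filter (fun v => ¬ G.Adj z v.1)).card = (sV P n β \ nb G z).card := by
  apply card_bij (fun v _ => v.1)
  · intro v hv
    rw [mem_filter, mem_sid] at hv
    simp only [sV, mem_sdiff, mem_filter, mem_univ, true_and, mem_nb]
    exact ⟨⟨v.2.1, v.2.2, hv.1⟩, hv.2⟩
  · intro v _ w _ h
    exact Subtype.ext h
  · intro v hv
    simp only [sV, mem_sdiff, mem_filter, mem_univ, true_and, mem_nb] at hv
    refine ⟨⟨v, hv.1.1, hv.1.2.1⟩, ?_, rfl⟩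
    rw [mem_filter, mem_sid]
    exact ⟨hv.1.2.2, hv.2⟩

theorem piece_conv (G : SimpleGraph V) (P : Pcs V M) (n : Fin M) (z : V) :
    ((univ : Finset (Ts P n)).filter (fun v => ¬ G.Adj z v.1)).card = (pV P n \ nb G z).card := by
  apply card_bij (fun v _ => v.1)
  · intro v hv
    simp only [mem_filter, mem_univ, true_and] at hv
    simp only [pV, mem_sdiff, mem_filter, mem_univ, true_and, mem_nb]
    exact ⟨v.2, hv⟩
  · intro v _ w _ h
    exact Subtype.ext h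
  · intro v hv
    simp only [pV, mem_sdiff, mem_filter, mem_univ, true_and, mem_nb] at hv
    refine ⟨⟨v, hv.1⟩, ?_, rfl⟩
    simp only [mem_filter, mem_univ, true_and]
    exact hv.2

theorem LB_of {C g ρ ρ' π κ ε ζ θ θL : ℝ} {Mx : ℕ} {G : SimpleGraph V} {d : ℕ} {P : Pcs V M}
    {A : Pal} {t : V → V → ℕ} {c0 : V → ℕ} {Sp : Finset ℕ}
    (hc : Con C g ρ ρ' π κ ε ζ θ θL M Mx d)
    (hD : DecP C g ρ ζ θ G d P) (hL : PartL ρ' ε G d P) (hA : PalP A d π κ)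
    (hR : PreP ε ζ G d P A t c0 Sp) (Dn : Finset (Fin M)) (c : V → ℕ)
    (hI : Inv Mx (bb ζ M Mx d) G d P t c0 Sp Dn c) (n : Fin M) (hn : P.ty n = Ty.B) :
    LB (bk G P n) (tk G P n) d ⌊ζ * d / 8⌋₊ θL (sdn P n) (ptn P n) A.Q A.P2 (Fn G P t n)
      (fun v => Af (bb ζ M Mx d) G P t Sp Dn c v.1) Sp ∅ := by
  have hd0 : (0 : ℝ) ≤ d := Nat.cast_nonneg d
  have hM0 : (0 : ℝ) ≤ (M : ℝ) * Mx := by positivity
  have hzd : 0 ≤ ζ * d := mul_nonneg hc.z0.le hd0
  have h6ζ : 4 * (ζ * d) ≤ θL * d := by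
    have h1 := hc.z1
    have h2 : 2 * ζ ≤ (2 + (M : ℝ) * Mx) * ζ := by
      nlinarith [hc.z0]
    nlinarith
  have hεL : ε * (d : ℝ) ≤ θL * d := by nlinarith [hc.e1]
  have hth := theta_le hc
  have hSp := Sp_card hD hR
  have hzf := z_floor hc
  have hC0 : Sp ⊆ P1 d A.Q A.P2 := hR.SC.trans (Pal_C0_sub hA)
  refine
    { bip := ?_, deg := deg_bk hD hR.inj n, dgp := ?_, eqs := hL.bB n hn, siz := hL.bS n hn,
      FA := ?_, Ax := ?_, Tx := ?_, SP := hC0, Sc := ?_, SfP := empty_subset _, Sfc := ?_,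
      Sd := disjoint_empty_right _, rich := Or.inl (by simp), gA := ?_, Ze := ?_, Zz := ?_,
      Zt := ?_, gs := hR.gs n hn, sm1 := le_trans (hR.sm1 n hn) hεL, tot := hR.tot n hn,
      oY := hR.oY n hn }
  · intro v w hvw
    exact hvw.2.2.2.2 (by rw [v.2.2]; exact hn)
  · intro v i
    have h0 := hL.bD n hn v i
    have h3 : |((nb (bk G P n) v ∩ prt (ptn P n) i).card : ℝ) - d / 2| ≤ θL * d := by linarith
    exact dec_irrel (p := fun (_ : DecidableEq (Ts P n)) => |((nb (bk G P n) v ∩ prt (ptn P n) i).card : ℝ) - d / 2| ≤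
      θL * d) h3
  · intro v b hb
    simp only [Af, mem_union]
    exact Or.inl (Or.inl hb)
  · intro v
    have := Af_real (bb ζ M Mx d) hc hD hR Dn c v.1 v.2.1
    linarith
  · intro v
    have h1 : ((nb (tk G P n) v).card : ℝ) ≤ (nb (thin G P) v.1).card := by
      exact_mod_cast card_nb_tk G P n v
    have h2 := hD.thd v.1 v.2.1
    linarith
  · linarith [hth.1]
  · simp only [card_empty, Nat.cast_zero]
    nlinarith [hc.e1, hc.e0]
  · intro b _ hb _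
    have h1 := us_Af_generic Mx (bb ζ M Mx d) (ε * ζ * d) (ζ * d) G d P t c0 Sp Dn c hI
      (fun z hz => by rw [hR.own]; exact mem_image_of_mem _ hz) hR.load hD.thd hzd n b hb
    have h2 : ε * ζ * d ≤ ζ * d := by
      have : ε ≤ 1 := le_trans hc.e2 (by norm_num)
      nlinarith
    have h3 := hc.z1
    have h4 : (2 + (M : ℝ) * Mx) * (ζ * d) ≤ θL / 2 * d := by
      nlinarith
    have h5 : 0 ≤ θL * d := le_trans (by linarith) h6ζ
    linarith
  · intro b hb β hneed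
    have hb' := hb
    rw [hR.own, mem_image] at hb'
    obtain ⟨z, hz, rfl⟩ := hb'
    have hrg : P.rg z ≠ some (n, β) := by
      intro h
      have := hR.adj z hz n β h
      omega
    have h1 := hD.hubB n β hn z hz hrg
    rw [← side_conv] at h1
    have h2 := special_side hc hD hR Dn c hI n z hz (sid (sdn P n) β) h1
    exact dec_irrel (p := fun (_ : DecidableEq (Ts P n)) => ⌊ζ * d / 8⌋₊ ≤ (sid (sdn P n) β \
      us (fun v : Ts P n => Af (bb ζ M Mx d) G P t Sp Dn c v.1) (c0 z)).card) h2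
  · have h1 : (100 : ℝ) * (Sp.card + 1) ≤ (⌊ζ * d / 8⌋₊ : ℝ) := by
      have := hc.d1
      linarith [hth.1]
    exact_mod_cast h1
  · intro b hb v hv
    have h1 := not_big_of hb hv
    have h2 : ((nb (tk G P n) v).card : ℝ) ≤ (nb (thin G P) v.1).card := by
      exact_mod_cast card_nb_tk G P n v
    have h3 := (bb_le hc).1
    have h4 : (100 : ℝ) * (nb (tk G P n) v).card ≤ (⌊ζ * d / 8⌋₊ : ℝ) := by
      linarith
    exact_mod_cast h4

/-- one more piece of type B -/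
theorem step_B {C g ρ ρ' π κ ε ζ θ θL : ℝ} {Mx MB : ℕ} {G : SimpleGraph V} {d : ℕ} {P : Pcs V M}
    {A : Pal} {t : V → V → ℕ} {c0 : V → ℕ} {Sp : Finset ℕ}
    (hc : Con C g ρ ρ' π κ ε ζ θ θL M Mx d)
    (hD : DecP C g ρ ζ θ G d P) (hL : PartL ρ' ε G d P) (hA : PalP A d π κ)
    (hR : PreP ε ζ G d P A t c0 Sp) (hMB : MB ≤ Mx)
    (hLB : ∀ {W : Type u} [Fintype W] (G Th : SimpleGraph W) (z : ℕ) (sd pt : W → Bool)
      (Q : Bool → Finset ℕ) (P2 : Finset ℕ) (F A : W → Finset ℕ) (Sp Sf : Finset ℕ),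
      LI G d C ρ' π κ θL sd pt Q P2 F → LB G Th d z θL sd pt Q P2 F A Sp Sf →
      ∃ (c : W → ℕ) (t : W → W → ℕ), OWN G Th d MB A c ∧
        PEF G d (fun v => insert (c v) (F v)) t)
    (Dn : Finset (Fin M)) (c : V → ℕ)
    (hI : Inv Mx (bb ζ M Mx d) G d P t c0 Sp Dn c) (n : Fin M) (hn : P.ty n = Ty.B)
    (hnD : n ∉ Dn) : ∃ c', Inv Mx (bb ζ M Mx d) G d P t c0 Sp (insert n Dn) c' := by
  have h1 := LI_of hc hD hL hA hR n (Or.inr hn) (Fn G P t n) (fun v => Nat.le_succ _)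
    (fun v b hb => Or.inl hb) (fun v => Subset.refl _) (fun b => by
      have : (0 : ℝ) ≤ Mx := Nat.cast_nonneg Mx
      linarith)
  have h2 := LB_of hc hD hL hA hR Dn c hI n hn
  obtain ⟨cn, τ, hO, hτ⟩ := hLB _ _ _ _ _ _ _ _ _ _ _ h1 h2
  exact inv_step Mx _ G d P t c0 Sp Dn c n hI hnD cn hO.1 hO.2.1 hO.2.2.1
    (fun b => le_trans (hO.2.2.2 b) hMB) ⟨τ, hτ⟩

/-! ### Type K -/

theorem nn_nb {W : Type u} [Fintype W] (G : SimpleGraph W) (v : W) :
    (nn G univ v).card + (nb G v).card ≤ Fintype.card W := by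
  have h : Disjoint (nn G univ v) (nb G v) := by
    rw [disjoint_left]
    intro w hw hw'
    simp only [nn, mem_filter, mem_univ, true_and] at hw
    exact hw.2 ((mem_nb _ _ _).1 hw')
  rw [← card_union_of_disjoint h]
  exact card_le_univ _

theorem LK_of {C g ρ ρ' π κ ε ζ θ θL : ℝ} {Mx : ℕ} {G : SimpleGraph V} {d : ℕ} {P : Pcs V M}
    {A : Pal} {t : V → V → ℕ} {c0 : V → ℕ} {Sp : Finset ℕ}
    (hc : Con C g ρ ρ' π κ ε ζ θ θL M Mx d)
    (hD : DecP C g ρ ζ θ G d P) (hL : PartL ρ' ε G d P) (hA : PalP A d π κ)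
    (hR : PreP ε ζ G d P A t c0 Sp) (Dn : Finset (Fin M)) (c : V → ℕ)
    (hI : Inv Mx (bb ζ M Mx d) G d P t c0 Sp Dn c) (n : Fin M) (hn : P.ty n = Ty.K) :
    ∃ (x y h s : ℕ) (C' : Fin 3 → Finset ℕ),
      LK (bk G P n) d x y h s ⌊ζ * d / 8⌋₊ (Fn G P t n)
        (fun v => Af (bb ζ M Mx d) G P t Sp Dn c v.1) (thn P n) (sdn P n) C' ∅ ∅ (fun _ => 0)
        Sp ∅ := by
  have hd0 : (0 : ℝ) ≤ d := Nat.cast_nonneg d
  have hM0 : (0 : ℝ) ≤ (M : ℝ) * Mx := by positivity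
  have hzd : 0 ≤ ζ * d := mul_nonneg hc.z0.le hd0
  have hth := theta_le hc
  have hSp := Sp_card hD hR
  have hzf := z_floor hc
  have hd40 : (10 : ℝ) ^ 40 ≤ d := by exact_mod_cast hc.d0
  set m := Fintype.card (Ts P n) with hm
  have hmU : (m : ℝ) ≤ (1 + 1 / 10 ^ 28) * d := by
    have := hD.kU n hn
    rwa [hc.g1] at this
  have hmL : (1 - ζ) * d ≤ (m : ℝ) := hD.kL n hn
  set x : ℕ := d / 10 ^ 27 with hx
  set h : ℕ := 5 * d / 10 ^ 13 with hh
  have hx1 : (d : ℝ) / 10 ^ 27 - 1 ≤ x := by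
    have h1 : d < 10 ^ 27 * (x + 1) := by omega
    have h2 : (d : ℝ) < 10 ^ 27 * ((x : ℝ) + 1) := by exact_mod_cast h1
    rw [sub_le_iff_le_add, div_le_iff₀ (by positivity)]
    linarith
  have hx2 : 10 ^ 27 * x ≤ d := by omega
  have hh1 : 5 * (d : ℝ) / 10 ^ 13 - 1 ≤ h := by
    have h1 : 5 * d < 10 ^ 13 * (h + 1) := by omega
    have h2 : 5 * (d : ℝ) < 10 ^ 13 * ((h : ℝ) + 1) := by exact_mod_cast h1
    rw [sub_le_iff_le_add, div_le_iff₀ (by positivity)]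
    linarith
  have hh2 : 10 ^ 13 * h ≤ 5 * d := by omega
  have hh3 : 10 ^ 13 * (h : ℝ) ≤ 5 * d := by exact_mod_cast hh2
  set s : ℕ := (univ : Finset (Fin 3 × Bool)).sup
    (fun q => (MP_db9399_lt.cell (thn P n) (sdn P n) q.1 q.2).card) with hs
  have hεd : ε * d ≤ d / 10 ^ 30 := by
    have := hc.e2
    have h1 : ε * d ≤ 1 / 10 ^ 30 * d := mul_le_mul_of_nonneg_right this hd0
    linarith
  have hcell : ∀ i l, ((MP_db9399_lt.cell (thn P n) (sdn P n) i l).card : ℝ) ≤ m / 6 + d / 10 ^ 30 ∧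
      (m : ℝ) / 6 - d / 10 ^ 30 ≤ (MP_db9399_lt.cell (thn P n) (sdn P n) i l).card := by
    intro i l
    have h1 := abs_le.1 (hL.kC n hn i l)
    constructor
    · linarith [h1.2]
    · linarith [h1.1]
  have hs1 : ∀ i l, (MP_db9399_lt.cell (thn P n) (sdn P n) i l).card ≤ s := by
    intro i l
    exact le_sup (f := fun q : Fin 3 × Bool =>
      (MP_db9399_lt.cell (thn P n) (sdn P n) q.1 q.2).card) (mem_univ (i, l))
  have hs2 : (s : ℝ) ≤ m / 6 + d / 10 ^ 30 := by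
    obtain ⟨q, _, hq⟩ := exists_mem_eq_sup (univ : Finset (Fin 3 × Bool)) univ_nonempty
      (fun q => (MP_db9399_lt.cell (thn P n) (sdn P n) q.1 q.2).card)
    rw [hs, hq]
    exact (hcell q.1 q.2).1
  have hs3 : (m : ℝ) / 6 - d / 10 ^ 30 ≤ s := by
    have h1 : ((MP_db9399_lt.cell (thn P n) (sdn P n) 0 false).card : ℝ) ≤ s := by
      exact_mod_cast hs1 0 false
    linarith [(hcell 0 false).2]
  have hζ1 : ζ * d ≤ d / 10 ^ 30 := by
    have h1 : ζ * d ≤ 1 / 10 ^ 30 * d := mul_le_mul_of_nonneg_right hth.2 hd0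
    linarith
  have hhs : h ≤ 2 * s := by
    have h1 : (h : ℝ) ≤ 2 * s := by
      have : (1 - ζ) * (d : ℝ) = d - ζ * d := by ring
      rw [this] at hmL
      linarith
    exact_mod_cast h1
  have hCc : ∀ j, 2 * s - h ≤ (A.C j).card := by
    intro j
    have h1 := (abs_le.1 (hA.Cc j)).1
    have h2 : (2 * (s : ℝ)) ≤ (A.C j).card + h := by
      linarith
    have h3 : 2 * s ≤ (A.C j).card + h := by exact_mod_cast h2
    omega
  have hex : ∀ j, ∃ D ⊆ A.C j, D.card = 2 * s - h := fun j =>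
    exists_subset_card_eq (hCc j)
  choose C' hC1 hC2 using hex
  have hAf : ∀ v : Ts P n, (Af (bb ζ M Mx d) G P t Sp Dn c v.1).card + 1 ≤ x := by
    intro v
    have h1 := Af_real (bb ζ M Mx d) hc hD hR Dn c v.1 v.2.1
    have h2 : ((Af (bb ζ M Mx d) G P t Sp Dn c v.1).card : ℝ) + 1 ≤ x := by
      linarith
    exact_mod_cast h2
  have hxbig : 4 * ((d : ℝ) / 10 ^ 30) + 10 + d / 10 ^ 28 ≤ x := by
    linarith
  refine ⟨x, x, h, s, C',
    { x1 := ?_, xd := hx2, yh := ?_, hd := ?_, dh := ?_, Zx := ?_, deg := deg_bk hD hR.inj n,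
      inn := ?_, FA := ?_, Ax := fun v _ => hAf v, Fo := by simp, Flt := ?_, load := ?_,
      oZ := Subset.refl _, o2 := by simp, oc := by simp, oi := by simp, oR := ?_, gA := ?_,
      Ze := ?_, ZC := ?_, Zz := ?_, Zc := ?_, zV := ?_, R2 := by simp, Rlt := by simp, RF := ?_,
      Rp := Or.inl (by simp), cs := ?_, Clt := ?_, Cdis := ?_, Ccard := ?_, CF := ?_ }⟩
  · have h1 : (1 : ℝ) ≤ x := by linarith
    exact_mod_cast h1
  · have h1 : (100 * ((x : ℝ) + 4 * x)) ≤ h := by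
      have h2 : 10 ^ 27 * (x : ℝ) ≤ d := by exact_mod_cast hx2
      linarith
    exact_mod_cast h1
  · have h1 : 10 ^ 12 * (h : ℝ) ≤ d := by
      linarith
    exact_mod_cast h1
  · have h1 : (d : ℝ) ≤ 10 ^ 13 * h := by
      linarith
    exact_mod_cast h1
  · simp
  · intro v
    have h1 := nn_nb (bk G P n) v
    have h2 := deg_bk hD hR.inj n v
    have h3 := Fn_card (t := t) hD n v
    have h4 : ((nn (bk G P n) univ v).card : ℝ) + (nb (bk G P n) v).card ≤ m := by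
      exact_mod_cast h1
    have h5 : ((nb (bk G P n) v).card : ℝ) + (Fn G P t n v).card = d := by exact_mod_cast h2
    have h6 : ((nn (bk G P n) univ v).card : ℝ) ≤ x := by
      have h7 : (1 + 1 / 10 ^ 28) * (d : ℝ) = d + d / 10 ^ 28 := by ring
      rw [h7] at hmU
      linarith
    exact_mod_cast h6
  · intro v _ b hb
    simp only [Af, mem_union]
    exact Or.inl (Or.inl hb)
  · intro v b hb
    exact mem_Fc_lt hR.lt v.1 b hb
  · intro b
    have h1 := hR.load n b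
    have h2 : ε * ζ * d ≤ ζ * d := by
      have : ε ≤ 1 := le_trans hc.e2 (by norm_num)
      nlinarith
    have h3 : ((us (Fn G P t n) b).card : ℝ) + 3 ≤ x := by linarith
    exact_mod_cast h3
  · intro h1
    exact absurd h1 (by simp)
  · intro b _ hb _
    have h1 := us_Af_generic Mx (bb ζ M Mx d) (ε * ζ * d) (ζ * d) G d P t c0 Sp Dn c hI
      (fun z hz => by rw [hR.own]; exact mem_image_of_mem _ hz) hR.load hD.thd hzd n b hb
    have h2 : ε * ζ * d ≤ ζ * d := by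
      have : ε ≤ 1 := le_trans hc.e2 (by norm_num)
      nlinarith
    have h3 := hc.z2
    have h4 : (2 + (M : ℝ) * Mx) * (ζ * d) ≤ d / 10 ^ 30 := by
      have h5 : (2 + (M : ℝ) * Mx) * ζ * d ≤ 1 / 10 ^ 30 * d := mul_le_mul_of_nonneg_right h3 hd0
      linarith
    have h5 : ((us (fun v : Ts P n => Af (bb ζ M Mx d) G P t Sp Dn c v.1) b).card : ℝ) ≤ x := by
      linarith
    have h6 : (us (fun v : Ts P n => Af (bb ζ M Mx d) G P t Sp Dn c v.1) b).card ≤ x := by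
      exact_mod_cast h5
    have h7 : (us (fun v : Ts P n => Af (bb ζ M Mx d) G P t Sp Dn c v.1) b \
        (∅ : Finset (Ts P n))).card ≤ x := le_trans (card_le_card sdiff_subset) h6
    exact dec_irrel (p := fun (_ : DecidableEq (Ts P n)) => (us (fun v : Ts P n => Af (bb ζ M Mx d) G P t Sp Dn c v.1) b \
        (∅ : Finset (Ts P n))).card ≤ x) h7
  · intro b hb
    rw [hR.own, mem_image] at hb
    obtain ⟨z, hz, rfl⟩ := hb
    have h1 := hD.hubK n hn z hz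
    rw [← piece_conv] at h1
    have h2 := special_side hc hD hR Dn c hI n z hz univ h1
    refine le_trans h2 (card_le_card ?_)
    intro v hv
    rw [mem_sdiff, mem_us] at hv
    rw [mem_filter]
    exact ⟨mem_univ _, hv.2, by simp⟩
  · intro i
    exact disjoint_of_subset_left hR.SC (disjoint_of_subset_right (hC1 i) (Pal_C0_dis i))
  · have h1 : (8 : ℝ) * Sp.card + 20 ≤ (⌊ζ * d / 8⌋₊ : ℝ) := by
      have := hc.d1
      linarith [hth.1]
    exact_mod_cast h1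
  · have h1 : (Sp.card : ℝ) ≤ x := by linarith [hth.1]
    exact_mod_cast h1
  · have h1 : (10 : ℝ) * (⌊ζ * d / 8⌋₊ : ℝ) ≤ d := by
      have h2 := Nat.floor_le (show 0 ≤ ζ * d / 8 by positivity)
      linarith
    exact_mod_cast h1
  · simp
  · intro i l
    refine ⟨hs1 i l, ?_⟩
    have h1 := (hcell i l).2
    have h2 : (s : ℝ) ≤ (MP_db9399_lt.cell (thn P n) (sdn P n) i l).card + x := by linarith
    exact_mod_cast h2
  · intro i b hb
    have := hA.Clt i (hC1 i hb)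
    rwa [mem_range] at this
  · intro i j hij
    exact disjoint_of_subset_left (hC1 i) (disjoint_of_subset_right (hC1 j) (hA.Cdis i j hij))
  · intro i
    rw [hC2 i]
    omega
  · intro v _
    exact disjoint_of_subset_right (hC1 _) (hR.rK v.1 v.2.1 (by rw [v.2.2]; exact hn))

/-- one more piece of type K -/
theorem step_K {C g ρ ρ' π κ ε ζ θ θL : ℝ} {Mx : ℕ} {G : SimpleGraph V} {d : ℕ} {P : Pcs V M}
    {A : Pal} {t : V → V → ℕ} {c0 : V → ℕ} {Sp : Finset ℕ}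
    (hc : Con C g ρ ρ' π κ ε ζ θ θL M Mx d)
    (hD : DecP C g ρ ζ θ G d P) (hL : PartL ρ' ε G d P) (hA : PalP A d π κ)
    (hR : PreP ε ζ G d P A t c0 Sp) (h2 : 2 ≤ Mx) (hLK : Stmt_LOCK.{u})
    (Dn : Finset (Fin M)) (c : V → ℕ)
    (hI : Inv Mx (bb ζ M Mx d) G d P t c0 Sp Dn c) (n : Fin M) (hn : P.ty n = Ty.K)
    (hnD : n ∉ Dn) : ∃ c', Inv Mx (bb ζ M Mx d) G d P t c0 Sp (insert n Dn) c' := by
  obtain ⟨x, y, h, s, C', hK⟩ := LK_of hc hD hL hA hR Dn c hI n hn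
  obtain ⟨cn, τ, h1, h3, _, h4, _, h5, h6⟩ := hLK _ _ _ _ _ _ _ _ _ _ _ _ _ _ _ _ _ hK
  refine inv_step Mx _ G d P t c0 Sp Dn c n hI hnD cn (fun v => ⟨h1 v, h3 v (by simp)⟩) h4 ?_
    (fun b => le_trans (h5 b) h2) ⟨τ, h6⟩
  intro v w hvw
  exfalso
  apply hvw.2
  refine ⟨hvw.1, v.2.1, w.2.1, ?_, ?_⟩
  · rw [v.2.2, w.2.2]
  · intro h
    rw [v.2.2, hn] at h
    cases h

end inputs

end Pool.Agent.Work.MP_db9399_da.helper62
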