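import Pool.Agent.Work.MP_db9399_da_helper62.Asm3

/-!
# MP_db9399, DENSE-ALL: assembly, part 4 (owner helper62)

The start (pieces of type N), all pieces, palettes.
-/

set_option autoImplicit false

namespace Pool.Agent.Work.MP_db9399_da.helper62

open Finset Classical
open Pool.Agent.Work.MP_db9399_all (nb)
open Pool.Agent.Work.MP_db9399_nc (nn)
open Pool.Agent.Work.MP_db9399_lt (us)
open Pool.Agent.Work.MP_db9399_dn (Tot)

universe u

theorem Con.mono {C g ρ ρ' π κ ε ζ θ θL θL' : ℝ} {M Mx d : ℕ}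
    (hc : Con C g ρ ρ' π κ ε ζ θ θL M Mx d) (h : θL ≤ θL') :
    Con C g ρ ρ' π κ ε ζ θ θL' M Mx d := by
  have hd0 : (0 : ℝ) ≤ d := Nat.cast_nonneg d
  refine { hc with e1 := le_trans hc.e1 h, z1 := ?_, t2 := ?_, d2 := ?_ }
  · linarith [hc.z1]
  · linarith [hc.t2]
  · have := hc.d2
    nlinarith

section start
variable {V : Type u} {M : ℕ} [Fintype V]

/-- the start: exceptional vertices and pieces of type N -/
theorem start_N {C g ρ ρ' π κ ε ζ θ θL : ℝ} {Mx s1 : ℕ} {G : SimpleGraph V} {d : ℕ} {P : Pcs V M}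
    {A : Pal} {t : V → V → ℕ} {c0 : V → ℕ} {Sp : Finset ℕ}
    (hc : Con C g ρ ρ' π κ ε ζ θ θL M Mx d)
    (hD : DecP C g ρ ζ θ G d P) (hL : PartL ρ' ε G d P) (hA : PalP A d π κ)
    (hR : PreP ε ζ G d P A t c0 Sp) (hs1 : s1 ≤ Mx)
    (hLN : ∀ {W : Type u} [Fintype W] (G : SimpleGraph W) (sd pt : W → Bool)
      (Q : Bool → Finset ℕ) (P2 : Finset ℕ) (F : W → Finset ℕ),
      LI G d C ρ' π κ θL sd pt Q P2 F → LN G d (g / 2) ρ' θL sd pt F →
      ∃ t : W → W → ℕ, PEF G d F t)
    (cN : V → ℕ)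
    (h1 : ∀ v, v ∉ P.V0 → P.ty (P.pc v) = Ty.N → cN v ∈ P1 d A.Q A.P2 \ Sp ∧
      cN v ∉ Fc G P t v)
    (h2 : ∀ v w, v ∉ P.V0 → P.ty (P.pc v) = Ty.N → w ∉ P.V0 → P.ty (P.pc w) = Ty.N →
      G.Adj v w → cN v ≠ cN w)
    (h3 : ∀ b, (univ.filter (fun v => v ∉ P.V0 ∧ P.ty (P.pc v) = Ty.N ∧ cN v = b)).card ≤ s1) :
    ∃ c, Inv Mx (bb ζ M Mx d) G d P t c0 Sp
      (univ.filter (fun n => P.ty n = Ty.N ∨ P.ty n = Ty.E)) c := by
  set c : V → ℕ := fun v => if v ∈ P.V0 then c0 v else cN v with hcd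
  have e1 : ∀ v, v ∈ P.V0 → c v = c0 v := fun v hv => by simp only [hcd, hv, if_true]
  have e2 : ∀ v, v ∉ P.V0 → c v = cN v := fun v hv => by simp only [hcd, hv, if_false]
  have hDV : ∀ v ∈ DV P (univ.filter (fun n => P.ty n = Ty.N ∨ P.ty n = Ty.E)),
      v ∈ P.V0 ∨ (v ∉ P.V0 ∧ P.ty (P.pc v) = Ty.N) := by
    intro v hv
    simp only [DV, mem_filter, mem_univ, true_and] at hv
    by_cases h : v ∈ P.V0
    · exact Or.inl h
    · right
      refine ⟨h, ?_⟩
      rcases hv with hv | hv | hv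
      · exact absurd hv h
      · exact hv
      · exact ((hD.emp _ hv).false ⟨v, h, rfl⟩).elim
  have hSp : ∀ z ∈ P.V0, c0 z ∈ Sp := fun z hz => by
    rw [hR.own]
    exact mem_image_of_mem _ hz
  refine ⟨c, ?_, ?_, ?_, e1, ?_, ?_, ?_⟩
  · intro v hv
    rcases hDV v hv with h | ⟨h, h'⟩
    · rw [e1 v h]
      have := (mem_sdiff.1 (hR.SC (hSp v h))).1
      rwa [mem_range] at this
    · rw [e2 v h]
      have := (mem_sdiff.1 (mem_sdiff.1 (h1 v h h').1).1).1
      rwa [mem_range] at this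
  · intro v hv
    rcases hDV v hv with h | ⟨h, h'⟩
    · rw [e1 v h]
      exact hR.onb v h
    · rw [e2 v h]
      exact (h1 v h h').2
  · intro v hv w hw hvw
    rcases hDV v hv with h | ⟨h, h'⟩
    · rcases hDV w hw with k | ⟨k, k'⟩
      · rw [e1 v h, e1 w k]
        intro he
        have := hR.oin h k he
        rw [this] at hvw
        exact G.loopless.irrefl w hvw
      · rw [e1 v h, e2 w k]
        intro he
        exact (mem_sdiff.1 (h1 w k k').1).2 (he ▸ hSp v h)
    · rcases hDV w hw with k | ⟨k, k'⟩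
      · rw [e2 v h, e1 w k]
        intro he
        exact (mem_sdiff.1 (h1 v h h').1).2 (he ▸ hSp w k)
      · rw [e2 v h, e2 w k]
        exact h2 v w h h' k k' hvw
  · intro b n hn
    simp only [mem_filter, mem_univ, true_and] at hn
    refine le_trans (card_le_card ?_) (le_trans (h3 b) hs1)
    intro v hv
    simp only [pV, mem_filter, mem_univ, true_and] at hv ⊢
    rcases hn with hn | hn
    · refine ⟨hv.1.1, ?_, ?_⟩
      · rw [hv.1.2]
        exact hn
      · rw [← e2 v hv.1.1]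
        exact hv.2
    · exact ((hD.emp _ hn).false ⟨v, hv.1⟩).elim
  · intro v hv0 hv hs
    simp only [mem_filter, mem_univ, true_and] at hv
    rcases hv with hv | hv
    · rw [e2 v hv0] at hs
      exact absurd hs (mem_sdiff.1 (h1 v hv0 hv).1).2
    · exact ((hD.emp _ hv).false ⟨v, hv0, rfl⟩).elim
  · intro n hn
    simp only [mem_filter, mem_univ, true_and] at hn
    rcases hn with hn | hn
    · have hN : ∀ v : Ts P n, P.ty (P.pc v.1) = Ty.N := fun v => by rw [v.2.2]; exact hn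
      have e3 : ∀ v : Ts P n, c v.1 = cN v.1 := fun v => e2 v.1 v.2.1
      have hcF : ∀ v : Ts P n, c v.1 ∉ Fn G P t n v := by
        intro v
        rw [e3 v]
        exact (h1 v.1 v.2.1 (hN v)).2
      have hLI := LI_of hc hD hL hA hR n (Or.inl hn)
        (fun v => insert (c v.1) (Fn G P t n v)) (fun v => card_insert_le _ _) (by
          intro v b hb
          rw [mem_insert] at hb
          rcases hb with hb | hb
          · right
            rw [hb, e3 v]
            exact (mem_sdiff.1 (h1 v.1 v.2.1 (hN v)).1).1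
          · exact Or.inl hb) (fun v => subset_insert _ _) (by
          intro b
          have h4 : us (fun v : Ts P n => insert (c v.1) (Fn G P t n v)) b ⊆
              us (Fn G P t n) b ∪ univ.filter (fun v : Ts P n => c v.1 = b) := by
            intro v hv
            rw [mem_us, mem_insert] at hv
            rw [mem_union, mem_us, mem_filter]
            rcases hv with hv | hv
            · exact Or.inr ⟨mem_univ _, hv.symm⟩
            · exact Or.inl hv
          have h5 : (univ.filter (fun v : Ts P n => c v.1 = b)).card ≤ Mx := by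
            refine le_trans ?_ (le_trans (h3 b) hs1)
            apply card_le_card_of_injOn (fun v => v.1)
            · intro v hv
              rw [mem_coe, mem_filter] at hv
              rw [mem_coe, mem_filter]
              refine ⟨mem_univ _, v.2.1, hN v, ?_⟩
              rw [← e3 v]
              exact hv.2
            · intro v _ w _ h
              exact Subtype.ext h
          have h6 := le_trans (card_le_card h4) (card_union_le _ _)
          exact_mod_cast le_trans h6 (Nat.add_le_add_left h5 _))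
      have hLNn := LN_of hc hD hL hR n hn (fun v => c v.1) hcF
      exact hLN _ _ _ _ _ _ hLI hLNn
    · haveI := hD.emp n hn
      exact ⟨fun _ _ => 0, fun _ _ => rfl, fun v => isEmptyElim v, fun v => isEmptyElim v⟩

/-- all pieces -/
theorem all_pieces {C g ρ ρ' π κ ε ζ θ θN θB : ℝ} {Mx s1 MB : ℕ} {G : SimpleGraph V} {d : ℕ}
    {P : Pcs V M} {A : Pal} {t : V → V → ℕ} {c0 : V → ℕ} {Sp : Finset ℕ}
    (hcN : Con C g ρ ρ' π κ ε ζ θ θN M Mx d) (hcB : Con C g ρ ρ' π κ ε ζ θ θB M Mx d)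
    (hD : DecP C g ρ ζ θ G d P) (hL : PartL ρ' ε G d P) (hA : PalP A d π κ)
    (hR : PreP ε ζ G d P A t c0 Sp) (hs1 : s1 ≤ Mx) (hMB : MB ≤ Mx) (hM2 : 2 ≤ Mx)
    (hLN : ∀ {W : Type u} [Fintype W] (G : SimpleGraph W) (sd pt : W → Bool)
      (Q : Bool → Finset ℕ) (P2 : Finset ℕ) (F : W → Finset ℕ),
      LI G d C ρ' π κ θN sd pt Q P2 F → LN G d (g / 2) ρ' θN sd pt F →
      ∃ t : W → W → ℕ, PEF G d F t)
    (hLB : ∀ {W : Type u} [Fintype W] (G Th : SimpleGraph W) (z : ℕ) (sd pt : W → Bool)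
      (Q : Bool → Finset ℕ) (P2 : Finset ℕ) (F A : W → Finset ℕ) (Sp Sf : Finset ℕ),
      LI G d C ρ' π κ θB sd pt Q P2 F → LB G Th d z θB sd pt Q P2 F A Sp Sf →
      ∃ (c : W → ℕ) (t : W → W → ℕ), OWN G Th d MB A c ∧
        PEF G d (fun v => insert (c v) (F v)) t)
    (hLK : Stmt_LOCK.{u})
    (cN : V → ℕ)
    (h1 : ∀ v, v ∉ P.V0 → P.ty (P.pc v) = Ty.N → cN v ∈ P1 d A.Q A.P2 \ Sp ∧
      cN v ∉ Fc G P t v)
    (h2 : ∀ v w, v ∉ P.V0 → P.ty (P.pc v) = Ty.N → w ∉ P.V0 → P.ty (P.pc w) = Ty.N →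
      G.Adj v w → cN v ≠ cN w)
    (h3 : ∀ b, (univ.filter (fun v => v ∉ P.V0 ∧ P.ty (P.pc v) = Ty.N ∧ cN v = b)).card ≤ s1) :
    ∃ c t', TotN G d c t' := by
  have key : ∀ E : Finset (Fin M), ∃ c, Inv Mx (bb ζ M Mx d) G d P t c0 Sp
      (univ.filter (fun n => P.ty n = Ty.N ∨ P.ty n = Ty.E) ∪ E) c := by
    intro E
    induction E using Finset.induction_on with
    | empty =>
      obtain ⟨c, hc⟩ := start_N hcN hD hL hA hR hs1 hLN cN h1 h2 h3
      exact ⟨c, by rwa [union_empty]⟩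
    | insert n E _ ih =>
      obtain ⟨c, hI⟩ := ih
      rw [union_insert]
      by_cases hn : n ∈ univ.filter (fun n => P.ty n = Ty.N ∨ P.ty n = Ty.E) ∪ E
      · rw [insert_eq_of_mem hn]
        exact ⟨c, hI⟩
      · have hty : P.ty n = Ty.K ∨ P.ty n = Ty.B := by
          have h4 : ¬ (P.ty n = Ty.N ∨ P.ty n = Ty.E) := by
            intro h
            apply hn
            rw [mem_union, mem_filter]
            exact Or.inl ⟨mem_univ _, h⟩
          rcases h5 : P.ty n with _ | _ | _ | _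
          · exact absurd (Or.inr h5) h4
          · exact Or.inl rfl
          · exact absurd (Or.inl h5) h4
          · exact Or.inr rfl
        rcases hty with h | h
        · exact step_K hcN hD hL hA hR hM2 hLK _ c hI n h hn
        · exact step_B hcB hD hL hA hR hMB hLB _ c hI n h hn
  obtain ⟨c, hI⟩ := key univ
  have : (univ.filter (fun n => P.ty n = Ty.N ∨ P.ty n = Ty.E) ∪ univ : Finset (Fin M)) = univ :=
    by simp
  rw [this] at hI
  obtain ⟨t', ht⟩ := inv_end Mx _ G d P t c0 Sp c hR.sym hR.lt hR.inj hI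
  exact ⟨c, t', ht⟩

end start

/-- palettes exist -/
theorem exists_pal (d : ℕ) (π κ : ℝ) (hπ0 : 0 < π) (hπ1 : π ≤ 1 / 100) (hκ0 : 0 < κ)
    (hκ1 : κ ≤ 1 / 100) (hπd : 1 ≤ π * d) (hκd : 1 ≤ κ * d) : ∃ A : Pal, PalP A d π κ := by
  have hd : (100 : ℝ) ≤ d := by
    have : (0 : ℝ) ≤ d := Nat.cast_nonneg d
    nlinarith
  set c : ℕ := ⌊(1 / 3 - 3 / 10 ^ 13) * (d : ℝ)⌋₊ with hc
  set q : ℕ := ⌈κ * d⌉₊ with hq
  set p : ℕ := ⌈π * d⌉₊ with hp
  have hc1 : (c : ℝ) ≤ (1 / 3 - 3 / 10 ^ 13) * (d : ℝ) := Nat.floor_le (by positivity)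
  have hc2 : (1 / 3 - 3 / 10 ^ 13) * (d : ℝ) < c + 1 := Nat.lt_floor_add_one _
  have hq1 : κ * d ≤ q := Nat.le_ceil _
  have hq2 : (q : ℝ) < κ * d + 1 := Nat.ceil_lt_add_one (by positivity)
  have hp1 : π * d ≤ p := Nat.le_ceil _
  have hp2 : (p : ℝ) < π * d + 1 := Nat.ceil_lt_add_one (by positivity)
  have hqd : (q : ℝ) ≤ d / 100 + 1 := by nlinarith
  have hpd : (p : ℝ) ≤ d / 100 + 1 := by nlinarith
  have hqc : q ≤ c := by
    have : (q : ℝ) ≤ c := by
      norm_num at hc2
      linarith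
    exact_mod_cast this
  have hpc : p ≤ c := by
    have : (p : ℝ) ≤ c := by
      norm_num at hc2
      linarith
    exact_mod_cast this
  have h3c : 3 * c ≤ d := by
    have : 3 * (c : ℝ) ≤ d := by
      norm_num at hc1
      linarith
    exact_mod_cast this
  refine ⟨⟨fun j => Ico (j.val * c) ((j.val + 1) * c), fun i => if i then Ico c (c + q) else Ico 0 q,
    Ico (2 * c) (2 * c + p)⟩, ?_, ?_, ?_, ?_, ?_, ?_, ?_, ?_⟩
  · intro j b hb
    rw [mem_Ico] at hb
    rw [mem_range]
    have : (j.val + 1) * c ≤ 3 * c := Nat.mul_le_mul_right c (by omega)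
    omega
  · intro i j hij
    rw [disjoint_left]
    intro b hb hb'
    rw [mem_Ico] at hb hb'
    rcases lt_or_gt_of_ne (fun h => hij (Fin.ext h) : i.val ≠ j.val) with h | h
    · have : (i.val + 1) * c ≤ j.val * c := Nat.mul_le_mul_right c h
      omega
    · have : (j.val + 1) * c ≤ i.val * c := Nat.mul_le_mul_right c h
      omega
  · intro j
    simp only [Nat.card_Ico]
    have : (j.val + 1) * c - j.val * c = c := by
      rw [Nat.add_mul, one_mul]
      omega
    rw [this, abs_le]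
    constructor
    · linarith
    · linarith
  · intro b hb
    simp only [Bool.false_eq_true, if_false] at hb
    rw [mem_Ico] at hb ⊢
    simp
    omega
  · intro b hb
    simp only [if_true] at hb
    rw [mem_Ico] at hb ⊢
    simp
    omega
  · intro b hb
    rw [mem_Ico] at hb ⊢
    simp
    omega
  · intro i
    cases i
    · simp only [Bool.false_eq_true, if_false, Nat.card_Ico, Nat.sub_zero]
      constructor
      · exact hq1
      · linarith
    · simp only [if_true, Nat.card_Ico, Nat.add_sub_cancel_left]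
      constructor
      · exact hq1
      · linarith
  · simp only [Nat.card_Ico, Nat.add_sub_cancel_left]
    constructor
    · exact hp1
    · linarith

end Pool.Agent.Work.MP_db9399_da.helper62
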