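import Pool.Agent.Work.MP_db9399_da_helper62.Asm4

/-!
# MP_db9399, DENSE-ALL: assembly, part 5 (owner helper62)

The constants and the theorem.
-/

set_option autoImplicit false

namespace Pool.Agent.Work.MP_db9399_da.helper62

open Finset Classical
open Pool.Agent.Work.MP_db9399_all (nb)
open Pool.Agent.Work.MP_db9399_nc (nn)
open Pool.Agent.Work.MP_db9399_lt (us)
open Pool.Agent.Work.MP_db9399_dn (Tot)

universe u

/-- one scale `ρ` -/
theorem per_rho (hPARTS : Stmt_PARTS.{u}) (hPRE : Stmt_PRE.{u}) (hOWNN : Stmt_OWNN.{u})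
    (hLOCN : Stmt_LOCN.{u}) (hLOCB : Stmt_LOCB.{u}) (hLOCK : Stmt_LOCK.{u}) (C ρ : ℝ) (M : ℕ)
    (hC : 1 ≤ C) (hρ0 : 0 < ρ) (hρ1 : ρ ≤ 1) :
    ∃ (ζ θ : ℝ) (d1 : ℕ), 0 < ζ ∧ ζ ≤ 1 / 100 ∧ 0 < θ ∧
      ∀ {V : Type u} [Fintype V] (G : SimpleGraph V) (d : ℕ) (P : Pcs V M), d1 ≤ d →
        DecP C (1 / 10 ^ 28) ρ ζ θ G d P → ∃ c t, TotN G d c t := by
  set g : ℝ := 1 / 10 ^ 28 with hg
  have hg0 : 0 < g := by rw [hg]; norm_num
  have hg1 : g ≤ 1 / 10 := by rw [hg]; norm_num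
  obtain ⟨ρ', K, hρ'0, hρ'1, hK, hPA⟩ := hPARTS C g ρ M hC hg0 hg1 hρ0 hρ1
  obtain ⟨s, ζO, s1, dO, hs0, hs1, hζO, hO⟩ := hOWNN C g ρ M hC hg0 hg1 hρ0 hρ1
  obtain ⟨πN, hπN, hN1⟩ := hLOCN C (g / 2) ρ' hC (by positivity) hρ'0
  obtain ⟨πB, hπB, hB1⟩ := hLOCB C ρ' hC hρ'0
  set π : ℝ := min (min πN πB) (min (s / 16) (1 / 100)) with hπ
  have hπ0 : 0 < π := by rw [hπ]; positivity
  have hπa : π ≤ πN := le_trans (min_le_left _ _) (min_le_left _ _)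
  have hπb : π ≤ πB := le_trans (min_le_left _ _) (min_le_right _ _)
  have hπc : π ≤ s / 16 := le_trans (min_le_right _ _) (min_le_left _ _)
  have hπd : π ≤ 1 / 100 := le_trans (min_le_right _ _) (min_le_right _ _)
  obtain ⟨κN, hκN, hN2⟩ := hN1 π hπ0 hπa
  obtain ⟨κB, hκB, hB2⟩ := hB1 π hπ0 hπb
  set κ : ℝ := min (min κN κB) (min (s / 32) (1 / 100)) with hκ
  have hκ0 : 0 < κ := by rw [hκ]; positivity
  have hκa : κ ≤ κN := le_trans (min_le_left _ _) (min_le_left _ _)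
  have hκb : κ ≤ κB := le_trans (min_le_left _ _) (min_le_right _ _)
  have hκc : κ ≤ s / 32 := le_trans (min_le_right _ _) (min_le_left _ _)
  have hκd : κ ≤ 1 / 100 := le_trans (min_le_right _ _) (min_le_right _ _)
  obtain ⟨θN, dN, hθN, hN3⟩ := hN2 κ hκ0 hκa
  obtain ⟨MB, θB, dB, hθB, hB3⟩ := hB2 κ hκ0 hκb
  set Mx : ℕ := max MB (max 2 s1) with hMx
  have hMx1 : MB ≤ Mx := le_max_left _ _
  have hMx2 : 2 ≤ Mx := le_trans (le_max_left _ _) (le_max_right _ _)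
  have hMx3 : s1 ≤ Mx := le_trans (le_max_right _ _) (le_max_right _ _)
  set θL : ℝ := min θN θB with hθL
  have hθL0 : 0 < θL := by rw [hθL]; positivity
  set ε : ℝ := min θL (1 / 10 ^ 30) with hε
  have hε0 : 0 < ε := by rw [hε]; positivity
  have hε1 : ε ≤ θL := min_le_left _ _
  have hε2 : ε ≤ 1 / 10 ^ 30 := min_le_right _ _
  obtain ⟨ε1, hε10, hε11, hP1⟩ := hPRE C g ρ ρ' K π κ ε M hC hg0 hg1 hρ'0 hρ'1 hρ1 hK hπ0 hπd
    hκ0 hκd hε0
  set e2 : ℝ := min ε ε1 with he2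
  have he20 : 0 < e2 := by rw [he2]; positivity
  have he2a : e2 ≤ ε := min_le_left _ _
  have he2b : e2 ≤ ε1 := min_le_right _ _
  obtain ⟨ζP, hζP, hP2⟩ := hP1 e2 he20 he2b
  obtain ⟨ζA, hζA, hA2⟩ := hPA e2 he20 (le_trans he2b hε11)
  have hMM : (0 : ℝ) ≤ (M : ℝ) * Mx := by positivity
  set ζ : ℝ := min (min (min ζP ζA) (min ζO (1 / 100)))
    (min (θL / (2 * (2 + (M : ℝ) * Mx))) (1 / (10 ^ 30 * (2 + (M : ℝ) * Mx)))) with hζ
  have hζ0 : 0 < ζ := by rw [hζ]; positivity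
  have hζa : ζ ≤ ζP := le_trans (min_le_left _ _) (le_trans (min_le_left _ _) (min_le_left _ _))
  have hζb : ζ ≤ ζA := le_trans (min_le_left _ _) (le_trans (min_le_left _ _) (min_le_right _ _))
  have hζc : ζ ≤ ζO := le_trans (min_le_left _ _) (le_trans (min_le_right _ _) (min_le_left _ _))
  have hζd : ζ ≤ 1 / 100 :=
    le_trans (min_le_left _ _) (le_trans (min_le_right _ _) (min_le_right _ _))
  have hζe : ζ ≤ θL / (2 * (2 + (M : ℝ) * Mx)) := le_trans (min_le_right _ _) (min_le_left _ _)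
  have hζf : ζ ≤ 1 / (10 ^ 30 * (2 + (M : ℝ) * Mx)) :=
    le_trans (min_le_right _ _) (min_le_right _ _)
  obtain ⟨θP, hθP, hP3⟩ := hP2 ζ hζ0 hζa
  obtain ⟨θA, hθA, hA3⟩ := hA2 ζ hζ0 hζb
  set θ : ℝ := min (min (min θP θA) (min ζO (s / 32)))
    (min (ζ ^ 2 / (10 ^ 6 * (1 + (M : ℝ) * Mx))) (θL / 4)) with hθ
  have hθ0 : 0 < θ := by rw [hθ]; positivity
  have hθa : θ ≤ θP := le_trans (min_le_left _ _) (le_trans (min_le_left _ _) (min_le_left _ _))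
  have hθb : θ ≤ θA := le_trans (min_le_left _ _) (le_trans (min_le_left _ _) (min_le_right _ _))
  have hθc : θ ≤ ζO := le_trans (min_le_left _ _) (le_trans (min_le_right _ _) (min_le_left _ _))
  have hθd : θ ≤ s / 32 :=
    le_trans (min_le_left _ _) (le_trans (min_le_right _ _) (min_le_right _ _))
  have hθe : θ ≤ ζ ^ 2 / (10 ^ 6 * (1 + (M : ℝ) * Mx)) :=
    le_trans (min_le_right _ _) (min_le_left _ _)
  have hθf : θ ≤ θL / 4 := le_trans (min_le_right _ _) (min_le_right _ _)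
  obtain ⟨dP, hP4⟩ := hP3 θ hθ0 hθa
  obtain ⟨dA, hA4⟩ := hA3 θ hθ0 hθb
  obtain ⟨d5, hd5⟩ := exists_nat_ge (10 ^ 6 / ζ)
  obtain ⟨d6, hd6⟩ := exists_nat_ge (((Mx : ℝ) + 1) / (θL / 4))
  obtain ⟨d7, hd7⟩ := exists_nat_ge (1 / π)
  obtain ⟨d8, hd8⟩ := exists_nat_ge (1 / κ)
  refine ⟨ζ, θ, dO + dN + dB + dP + dA + d5 + d6 + d7 + d8 + 10 ^ 40, hζ0, hζd, hθ0, ?_⟩
  intro V _ G d P hd hD
  have hdr : ∀ m : ℕ, m ≤ dO + dN + dB + dP + dA + d5 + d6 + d7 + d8 + 10 ^ 40 → (m : ℝ) ≤ d :=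
    fun m hm => by exact_mod_cast le_trans hm hd
  have hd0 : (0 : ℝ) ≤ d := Nat.cast_nonneg d
  have q5 : 10 ^ 6 ≤ ζ * d := by
    have := le_trans hd5 (hdr d5 (by omega))
    rw [div_le_iff₀ hζ0] at this
    linarith
  have q6 : (Mx : ℝ) + 1 ≤ θL / 4 * d := by
    have := le_trans hd6 (hdr d6 (by omega))
    rw [div_le_iff₀ (by positivity)] at this
    linarith
  have q7 : 1 ≤ π * d := by
    have := le_trans hd7 (hdr d7 (by omega))
    rw [div_le_iff₀ hπ0] at this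
    linarith
  have q8 : 1 ≤ κ * d := by
    have := le_trans hd8 (hdr d8 (by omega))
    rw [div_le_iff₀ hκ0] at this
    linarith
  have hζe' : (2 + (M : ℝ) * Mx) * ζ ≤ θL / 2 := by
    rw [le_div_iff₀ (by positivity)] at hζe
    linarith
  have hζf' : (2 + (M : ℝ) * Mx) * ζ ≤ 1 / 10 ^ 30 := by
    rw [le_div_iff₀ (by positivity)] at hζf
    rw [le_div_iff₀ (by positivity)]
    linarith
  have hθe' : 10 ^ 6 * (1 + (M : ℝ) * Mx) * θ ≤ ζ ^ 2 := by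
    rw [le_div_iff₀ (by positivity)] at hθe
    linarith
  obtain ⟨P', hD', hL', hX'⟩ := hA4 G d P (by omega) hD
  obtain ⟨A, hA⟩ := exists_pal d π κ hπ0 hπd hκ0 hκd q7 q8
  obtain ⟨t, c0, Sp, hR⟩ := hP4 G d P' A (by omega) hD' hL' hX' hA
  have hL'' : PartL ρ' ε G d P' := by
    refine { hL' with nD := ?_, bD := ?_, kC := ?_ }
    · intro n hn v β i
      refine le_trans (hL'.nD n hn v β i) ?_
      nlinarith
    · intro n hn v i
      refine le_trans (hL'.bD n hn v i) ?_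
      nlinarith
    · intro n hn i l
      refine le_trans (hL'.kC n hn i l) ?_
      nlinarith
  have hcL : Con C g ρ ρ' π κ ε ζ θ θL M Mx d :=
    { C1 := hC, g1 := hg, r0 := hρ'0, r1 := hρ'1, e0 := hε0, e1 := hε1, e2 := hε2, z0 := hζ0,
      z1 := hζe', z2 := hζf', t0 := hθ0, t1 := hθe', t2 := hθf, d0 := by omega, d1 := q5,
      d2 := q6 }
  have hSpc := Sp_card hD' hR
  have hPl : (1 - s) * d ≤ ((P1 d A.Q A.P2 \ Sp).card : ℝ) := by
    have h1 := P1_card hA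
    have h2 : (P1 d A.Q A.P2).card ≤ (P1 d A.Q A.P2 \ Sp).card + Sp.card := by
      have := card_le_card (show P1 d A.Q A.P2 ⊆ (P1 d A.Q A.P2 \ Sp) ∪ Sp from fun b hb => by
        by_cases h : b ∈ Sp
        · exact mem_union_right _ h
        · exact mem_union_left _ (mem_sdiff.2 ⟨hb, h⟩))
      exact le_trans this (card_union_le _ _)
    have h3 : ((P1 d A.Q A.P2).card : ℝ) ≤ (P1 d A.Q A.P2 \ Sp).card + Sp.card := by
      exact_mod_cast h2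
    have h4 : (1 - s) * (d : ℝ) ≤ (1 - 4 * κ - 2 * π - θ) * d := by
      apply mul_le_mul_of_nonneg_right _ hd0
      linarith
    have h5 : (1 - 4 * κ - 2 * π - θ) * (d : ℝ) = (1 - 4 * κ - 2 * π) * d - θ * d := by ring
    linarith
  obtain ⟨cN, hc1, hc2, hc3⟩ := hO G d P' ζ θ (P1 d A.Q A.P2 \ Sp)
    (fun v => if v ∈ P'.V0 then ∅ else Fc G P' t v) (by omega) hζc hθc hD' hPl (by
      intro v
      by_cases hv : v ∈ P'.V0
      · simp only [hv, if_true, card_empty, Nat.cast_zero]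
        positivity
      · simp only [hv, if_false]
        refine le_trans ?_ (mul_le_mul_of_nonneg_right hζc hd0)
        refine le_trans ?_ (hD'.thd v hv)
        exact_mod_cast card_image_le)
  refine all_pieces (hcL.mono (min_le_left _ _)) (hcL.mono (min_le_right _ _)) hD' hL'' hA hR hMx3
    hMx1 hMx2 ?_ ?_ hLOCK cN ?_ hc2 hc3
  · intro W _ G' sd pt Q P2 F h1 h2
    exact hN3 G' d sd pt Q P2 F (by omega) h1 h2
  · intro W _ G' Th z sd pt Q P2 F A' Sp' Sf h1 h2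
    exact hB3 G' Th d z sd pt Q P2 F A' Sp' Sf (by omega) h1 h2
  · intro v hv hvN
    have h1 := hc1 v hv hvN
    refine ⟨h1.1, ?_⟩
    have h2 := h1.2
    simp only [hv, if_false] at h2
    exact h2

/-- ASSEMBLY. -/
theorem stmt_ASSEMBLY : Stmt_ASSEMBLY.{u} := by
  intro hEMB hDEC hPARTS hPRE hOWNN hLOCN hLOCB hLOCK η hη
  set C : ℝ := max 1 (10 / η) with hC
  have hC1 : 1 ≤ C := le_max_left _ _
  have hC2 : 10 / η ≤ C := le_max_right _ _
  have hg0 : (0 : ℝ) < 1 / 10 ^ 28 := by norm_num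
  have hg1 : (1 : ℝ) / 10 ^ 28 ≤ 1 / 10 := by norm_num
  obtain ⟨M, hM⟩ := hDEC C (1 / 10 ^ 28) hC1 hg0 hg1
  have hper := fun (ρ : ℝ) (h : 0 < ρ ∧ ρ ≤ 1) =>
    per_rho hPARTS hPRE hOWNN hLOCN hLOCB hLOCK C ρ M hC1 h.1 h.2
  choose fz ft fd h1 h2 h3 h4 using hper
  obtain ⟨Rs, d0, hRs, hDC⟩ := hM (fun ρ => if h : 0 < ρ ∧ ρ ≤ 1 then fz ρ h else 1 / 100)
    (fun ρ => if h : 0 < ρ ∧ ρ ≤ 1 then ft ρ h else 1) (by
      intro x hx
      by_cases h : 0 < x ∧ x ≤ 1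
      · simp only [h, and_self, dif_pos]
        exact ⟨h1 x h, h2 x h, h3 x h⟩
      · simp only [h, dif_neg, not_false_iff]
        norm_num)
  set dm : ℕ := Rs.sup (fun ρ => if h : 0 < ρ ∧ ρ ≤ 1 then fd ρ h else 0) with hdm
  obtain ⟨n0, hn0⟩ := exists_nat_ge (((d0 + dm + 4 : ℕ) : ℝ) / η)
  refine ⟨n0, ?_⟩
  intro V _ G d k hn hηd hdn hdeg hk
  have hdd : d0 + dm + 4 ≤ d := by
    have h5 : ((d0 + dm + 4 : ℕ) : ℝ) ≤ d := by
      rw [div_le_iff₀ hη] at hn0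
      have h6 : (n0 : ℝ) ≤ Fintype.card V := by exact_mod_cast hn
      have h7 : (n0 : ℝ) * η ≤ η * Fintype.card V := by nlinarith
      linarith
    exact_mod_cast h5
  obtain ⟨W, _, H, f, hf1, hf2, hf3, hf4⟩ := hEMB G d (by omega) hdeg hdn
  have hWC : (Fintype.card W : ℝ) ≤ C * d := by
    have h5 : (Fintype.card W : ℝ) ≤ 10 * Fintype.card V := by exact_mod_cast hf4
    have h6 : 10 * (Fintype.card V : ℝ) ≤ 10 / η * d := by
      rw [div_mul_eq_mul_div, le_div_iff₀ hη]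
      nlinarith
    have h7 : 10 / η * (d : ℝ) ≤ C * d := mul_le_mul_of_nonneg_right hC2 (Nat.cast_nonneg d)
    linarith
  obtain ⟨ρ, hρ, P, hP⟩ := hDC H d (by omega) hf3 hWC
  have hρ' := hRs ρ hρ
  simp only [hρ', and_self, dif_pos] at hP
  have hdρ : fd ρ hρ' ≤ d := by
    have h5 : (if h : 0 < ρ ∧ ρ ≤ 1 then fd ρ h else 0) ≤ dm :=
      le_sup (f := fun ρ => if h : 0 < ρ ∧ ρ ≤ 1 then fd ρ h else 0) hρ
    rw [dif_pos hρ'] at h5
    omega
  obtain ⟨c, t, hT⟩ := h4 ρ hρ' H d P hdρ hP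
  have hT' : TotN G d (fun v => c (f v)) (fun v w => t (f v) (f w)) := by
    refine ⟨fun v => hT.clt _, fun v w h => hT.cc _ _ (hf2 v w h), fun v w => hT.sym _ _,
      fun v w h => hT.tlt _ _ (hf2 v w h), ?_, fun v w h => hT.tc _ _ (hf2 v w h)⟩
    intro v w hw w' hw' he
    rw [mem_coe, mem_nb] at hw hw'
    apply hf1
    apply hT.inj (f v) _ _ he
    · rw [mem_coe, mem_nb]
      exact hf2 v w hw
    · rw [mem_coe, mem_nb]
      exact hf2 v w' hw'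
  exact tot_of_totN G d k _ _ hT' hk

end Pool.Agent.Work.MP_db9399_da.helper62
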