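import Pool.Agent.Work.MP_db9399_da.Frame2
import Pool.Agent.Work.MP_db9399_da_helper62.Base

/-!
# MP_db9399, DENSE-ALL, phase 2: easy facts about the definitions (owner helper62)
-/

set_option autoImplicit false

namespace Pool.Agent.Work.MP_db9399_da.helper62

open Finset Classical
open Pool.Agent.Work.MP_db9399_all (nb)
open Pool.Agent.Work.MP_db9399_nc (nn)
open Pool.Agent.Work.MP_db9399_lt (us)

universe u

section base
variable {V : Type u} {M : ℕ} [Fintype V]

theorem nb_split2 (G : SimpleGraph V) (X : HD V) (P : Pcs V M) (v : V) :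
    (nb (bulk2 G X P) v).card + (nb (thin2 G X P) v).card = (nb G v).card := by
  have h : nb G v = nb (bulk2 G X P) v ∪ nb (thin2 G X P) v := by
    ext w
    simp only [mem_union, mem_nb]
    constructor
    · intro h
      by_cases hb : (bulk2 G X P).Adj v w
      · exact Or.inl hb
      · exact Or.inr ⟨h, hb⟩
    · rintro (h | h)
      · exact h.1.1
      · exact h.1
  rw [h, card_union_of_disjoint]
  rw [disjoint_left]
  intro w hw hw'
  rw [mem_nb] at hw hw'
  exact hw'.2 hw

theorem card_nb_bk2 (G : SimpleGraph V) (X : HD V) (P : Pcs V M) (n : Fin M) (v : Ts P n) :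
    (nb (bk2 G X P n) v).card = (nb (bulk2 G X P) v.1).card := by
  apply card_bij (fun w _ => w.1)
  · intro w hw
    rw [mem_nb] at hw ⊢
    exact hw
  · intro w _ w' _ h
    exact Subtype.ext h
  · intro w hw
    rw [mem_nb] at hw
    refine ⟨⟨w, hw.1.2.2.1, ?_⟩, ?_, rfl⟩
    · rw [← hw.1.2.2.2.1]
      exact v.2.2
    · rw [mem_nb]
      exact hw

theorem card_nb_tk2 (G : SimpleGraph V) (X : HD V) (P : Pcs V M) (n : Fin M) (v : Ts P n) :
    (nb (tk2 G X P n) v).card ≤ (nb (thin2 G X P) v.1).card := by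
  apply card_le_card_of_injOn (fun w => w.1)
  · intro w hw
    rw [mem_coe, mem_nb] at hw
    rw [mem_coe, mem_nb]
    exact hw
  · intro w _ w' _ h
    exact Subtype.ext h

theorem card_Fc2 (G : SimpleGraph V) (X : HD V) (P : Pcs V M) (t : V → V → ℕ) (v : V)
    (h : Set.InjOn (t v) (nb (thin2 G X P) v : Set V)) :
    (Fc2 G X P t v).card = (nb (thin2 G X P) v).card := by
  unfold Fc2
  exact card_image_of_injOn h

theorem thin_le_thin2 (G : SimpleGraph V) (X : HD V) (P : Pcs V M) (v w : V)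
    (h : (thin G P).Adj v w) : (thin2 G X P).Adj v w :=
  ⟨h.1, fun h' => h.2 h'.1⟩

theorem thin2_cases (G : SimpleGraph V) (X : HD V) (P : Pcs V M) (v w : V)
    (h : (thin2 G X P).Adj v w) : (thin G P).Adj v w ∨ X.H.Adj v w := by
  by_cases hb : (bulk G P).Adj v w
  · right
    by_contra hH
    exact h.2 ⟨hb, hH⟩
  · exact Or.inl ⟨h.1, hb⟩

theorem nbH_card {k d : ℕ} {G : SimpleGraph V} {X : HD V} (hX : HP k d G X) (v : V) :
    (nb X.H v).card ≤ 1 := by
  rw [card_le_one]
  intro a ha b hb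
  rw [mem_nb] at ha hb
  exact hX.Hm v a b ha hb

theorem thin2_card {k d : ℕ} {G : SimpleGraph V} {X : HD V} (hX : HP k d G X) (P : Pcs V M)
    (v : V) : (nb (thin2 G X P) v).card ≤ (nb (thin G P) v).card + 1 := by
  have h : nb (thin2 G X P) v ⊆ nb (thin G P) v ∪ nb X.H v := by
    intro w hw
    rw [mem_nb] at hw
    rw [mem_union, mem_nb, mem_nb]
    exact thin2_cases G X P v w hw
  have h1 := card_le_card h
  have h2 := card_union_le (nb (thin G P) v) (nb X.H v)
  have h3 := nbH_card hX v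
  omega

theorem H_thin2 {k d : ℕ} {G : SimpleGraph V} {X : HD V} (hX : HP k d G X) (P : Pcs V M)
    (v w : V) (h : X.H.Adj v w) : (thin2 G X P).Adj v w :=
  ⟨hX.HG v w h, fun h' => h'.2 h⟩

theorem mem_Fc2 (G : SimpleGraph V) (X : HD V) (P : Pcs V M) (t : V → V → ℕ) (v w : V)
    (h : (thin2 G X P).Adj v w) : t v w ∈ Fc2 G X P t v := by
  unfold Fc2
  rw [mem_image]
  exact ⟨w, (mem_nb _ _ _).2 h, rfl⟩

end base

end Pool.Agent.Work.MP_db9399_da.helper62
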