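import Pool.Agent.Work.MP_db9399_da_helper62.Glue2
import Pool.Agent.Work.MP_db9399_da_helper62.Asm2

/-!
# MP_db9399, DENSE-ALL, phase 2: assembly, part 1 (owner helper62)

The state of the construction: the vertices of `V0` and of the pieces in `Dn` are coloured.
-/

set_option autoImplicit false

namespace Pool.Agent.Work.MP_db9399_da.helper62

open Finset Classical
open Pool.Agent.Work.MP_db9399_all (nb)
open Pool.Agent.Work.MP_db9399_nc (nn)
open Pool.Agent.Work.MP_db9399_lt (us)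

universe u

section state
variable {V : Type u} {M : ℕ} [Fintype V]

/-- State of the sequential construction. `b1`: bound for the thin degrees of the vertices with own
colour in `SS`. -/
structure Inv2 (Mx : ℕ) (b1 : ℝ) (G : SimpleGraph V) (d : ℕ) (P : Pcs V M) (X : HD V)
    (t : V → V → ℕ) (cP : V → ℕ) (SS : Finset ℕ) (Dn : Finset (Fin M)) (c : V → ℕ) : Prop where
  clt : ∀ v ∈ DV P Dn, c v < d + 2
  cF : ∀ v ∈ DV P Dn, c v ∉ Fc2 G X P t v
  cnm : ∀ v ∈ DV P Dn, v ∉ X.VH → c v ∉ X.nm v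
  cc : ∀ v ∈ DV P Dn, ∀ w ∈ DV P Dn, v ∉ X.VH → w ∉ X.VH → G.Adj v w → c v ≠ c w
  cV : ∀ v ∈ X.VH, c v = X.c0 v
  c0 : ∀ v ∈ P.V0, v ∉ X.VH → c v = cP v
  cls : ∀ b, ∀ n ∈ Dn, ((pV P n).filter (fun v => c v = b)).card ≤ Mx
  csp : ∀ v, v ∉ P.V0 → v ∉ X.VH → P.pc v ∈ Dn → c v ∈ SS →
    ((nb (thin2 G X P) v).card : ℝ) ≤ b1
  tau : ∀ n ∈ Dn, ∃ τ : Ts P n → Ts P n → ℕ,
    PEF (bk2 G X P n) d (fun v => insert (c v.1) (Fn2 G X P t n v)) τ

/-- forbidden own colours at `v`, `N v` are the names -/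
noncomputable def Af2 (b1 : ℝ) (G : SimpleGraph V) (P : Pcs V M) (X : HD V) (t : V → V → ℕ)
    (SS : Finset ℕ) (N : V → Finset ℕ) (Dn : Finset (Fin M)) (c : V → ℕ) (v : V) : Finset ℕ :=
  Fc2 G X P t v ∪ N v ∪ ((nb (thin2 G X P) v ∩ DV P Dn) \ X.VH).image c ∪
    (if ((nb (thin2 G X P) v).card : ℝ) ≤ b1 then ∅ else SS)

theorem Fc2_sub_Af2 (b1 : ℝ) (G : SimpleGraph V) (P : Pcs V M) (X : HD V) (t : V → V → ℕ)
    (SS : Finset ℕ) (N : V → Finset ℕ) (Dn : Finset (Fin M)) (c : V → ℕ) (v : V) :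
    Fc2 G X P t v ⊆ Af2 b1 G P X t SS N Dn c v := by
  intro b hb
  simp only [Af2, mem_union]
  exact Or.inl (Or.inl (Or.inl hb))

theorem N_sub_Af2 (b1 : ℝ) (G : SimpleGraph V) (P : Pcs V M) (X : HD V) (t : V → V → ℕ)
    (SS : Finset ℕ) (N : V → Finset ℕ) (Dn : Finset (Fin M)) (c : V → ℕ) (v : V) :
    N v ⊆ Af2 b1 G P X t SS N Dn c v := by
  intro b hb
  simp only [Af2, mem_union]
  exact Or.inl (Or.inl (Or.inr hb))

/-- one more piece -/
theorem inv_step2 (Mx : ℕ) (b1 : ℝ) (G : SimpleGraph V) (d : ℕ) (P : Pcs V M) (X : HD V)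
    (t : V → V → ℕ) (cP : V → ℕ) (SS : Finset ℕ) (Dn : Finset (Fin M)) (c : V → ℕ) (n : Fin M)
    (hI : Inv2 Mx b1 G d P X t cP SS Dn c) (hn : n ∉ Dn) (cn : Ts P n → ℕ)
    (h1 : ∀ v, cn v < d + 2 ∧ cn v ∉ Fn2 G X P t n v)
    (hA : ∀ v : Ts P n, v.1 ∉ X.VH → cn v ∉ Af2 b1 G P X t SS X.nm Dn c v.1)
    (hV : ∀ v : Ts P n, v.1 ∈ X.VH → cn v = X.c0 v.1)
    (h2 : ∀ v w, (bk2 G X P n).Adj v w → cn v ≠ cn w)
    (h3 : ∀ v w : Ts P n, v.1 ∉ X.VH → w.1 ∉ X.VH → (tk2 G X P n).Adj v w → cn v ≠ cn w)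
    (h4 : ∀ b, (univ.filter (fun v => cn v = b)).card ≤ Mx)
    (h5 : ∃ τ : Ts P n → Ts P n → ℕ,
      PEF (bk2 G X P n) d (fun v => insert (cn v) (Fn2 G X P t n v)) τ) :
    ∃ c', Inv2 Mx b1 G d P X t cP SS (insert n Dn) c' := by
  set c' : V → ℕ := fun v => if h : v ∉ P.V0 ∧ P.pc v = n then cn ⟨v, h⟩ else c v with hc'
  have e1 : ∀ v : Ts P n, c' v.1 = cn v := by
    intro v
    simp only [hc', dif_pos v.2]
  have e2 : ∀ v, ¬ (v ∉ P.V0 ∧ P.pc v = n) → c' v = c v := by
    intro v hv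
    simp only [hc', dif_neg hv]
  have hD : ∀ v ∈ DV P (insert n Dn), (v ∉ P.V0 ∧ P.pc v = n) ∨ (¬ (v ∉ P.V0 ∧ P.pc v = n) ∧
      v ∈ DV P Dn) := by
    intro v hv
    by_cases h : v ∉ P.V0 ∧ P.pc v = n
    · exact Or.inl h
    · right
      refine ⟨h, ?_⟩
      simp only [DV, mem_filter, mem_univ, true_and, mem_insert] at hv ⊢
      rcases hv with hv | hv | hv
      · exact Or.inl hv
      · left
        by_contra h0
        exact h ⟨h0, hv⟩
      · exact Or.inr hv
  have hnew : ∀ v w, (v ∉ P.V0 ∧ P.pc v = n) → w ∈ DV P Dn → v ∉ X.VH → w ∉ X.VH →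
      G.Adj v w → c' v ≠ c w := by
    intro v w hv hw hvV hwV hvw
    have ht : (thin2 G X P).Adj v w := by
      refine ⟨hvw, fun hb => ?_⟩
      have hw' : w ∈ P.V0 ∨ P.pc w ∈ Dn := by
        simpa only [DV, mem_filter, mem_univ, true_and] using hw
      rcases hw' with hw' | hw'
      · exact hb.1.2.2.1 hw'
      · apply hn
        rw [← hv.2, hb.1.2.2.2.1]
        exact hw'
    rw [show c' v = cn ⟨v, hv⟩ from e1 ⟨v, hv⟩]
    intro he
    apply hA ⟨v, hv⟩ hvV
    simp only [Af2, mem_union, mem_image, mem_sdiff, mem_inter, mem_nb]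
    exact Or.inl (Or.inr ⟨w, ⟨⟨ht, hw⟩, hwV⟩, he.symm⟩)
  refine ⟨c', ?_, ?_, ?_, ?_, ?_, ?_, ?_, ?_, ?_⟩
  · intro v hv
    rcases hD v hv with h | ⟨h, h'⟩
    · rw [show c' v = cn ⟨v, h⟩ from e1 ⟨v, h⟩]
      exact (h1 ⟨v, h⟩).1
    · rw [e2 v h]
      exact hI.clt v h'
  · intro v hv
    rcases hD v hv with h | ⟨h, h'⟩
    · rw [show c' v = cn ⟨v, h⟩ from e1 ⟨v, h⟩]
      exact (h1 ⟨v, h⟩).2
    · rw [e2 v h]
      exact hI.cF v h'
  · intro v hv hvV
    rcases hD v hv with h | ⟨h, h'⟩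
    · rw [show c' v = cn ⟨v, h⟩ from e1 ⟨v, h⟩]
      intro hF
      exact hA ⟨v, h⟩ hvV (N_sub_Af2 b1 G P X t SS X.nm Dn c v hF)
    · rw [e2 v h]
      exact hI.cnm v h' hvV
  · intro v hv w hw hvV hwV hvw
    rcases hD v hv with h | ⟨h, h'⟩
    · rcases hD w hw with k | ⟨k, k'⟩
      · rw [show c' v = cn ⟨v, h⟩ from e1 ⟨v, h⟩, show c' w = cn ⟨w, k⟩ from e1 ⟨w, k⟩]
        by_cases hb : (bulk2 G X P).Adj v w
        · exact h2 ⟨v, h⟩ ⟨w, k⟩ hb
        · exact h3 ⟨v, h⟩ ⟨w, k⟩ hvV hwV ⟨hvw, hb⟩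
      · rw [e2 w k]
        exact hnew v w h k' hvV hwV hvw
    · rcases hD w hw with k | ⟨k, k'⟩
      · rw [e2 v h]
        exact (hnew w v k h' hwV hvV hvw.symm).symm
      · rw [e2 v h, e2 w k]
        exact hI.cc v h' w k' hvV hwV hvw
  · intro v hv
    by_cases h : v ∉ P.V0 ∧ P.pc v = n
    · rw [show c' v = cn ⟨v, h⟩ from e1 ⟨v, h⟩]
      exact hV ⟨v, h⟩ hv
    · rw [e2 v h]
      exact hI.cV v hv
  · intro v hv hvV
    rw [e2 v (fun h => h.1 hv)]
    exact hI.c0 v hv hvV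
  · intro b m hm
    rw [mem_insert] at hm
    rcases hm with rfl | hm
    · refine le_trans (le_of_eq ?_) (h4 b)
      symm
      apply card_bij (fun v _ => v.1)
      · intro v hv
        rw [mem_filter] at hv ⊢
        refine ⟨?_, ?_⟩
        · simp only [pV, mem_filter, mem_univ, true_and]
          exact v.2
        · rw [e1 v]
          exact hv.2
      · intro v _ v' _ hvv
        exact Subtype.ext hvv
      · intro v hv
        simp only [pV, mem_filter, mem_univ, true_and] at hv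
        refine ⟨⟨v, hv.1⟩, ?_, rfl⟩
        simp only [mem_filter, mem_univ, true_and]
        rw [← e1 ⟨v, hv.1⟩]
        exact hv.2
    · refine le_trans (card_le_card ?_) (hI.cls b m hm)
      intro v hv
      simp only [pV, mem_filter, mem_univ, true_and] at hv ⊢
      refine ⟨hv.1, ?_⟩
      rw [← e2 v ?_]
      · exact hv.2
      · rintro ⟨_, h⟩
        apply hn
        rw [← h, hv.1.2]
        exact hm
  · intro v hv0 hvV hv hs
    by_cases h : v ∉ P.V0 ∧ P.pc v = n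
    · by_contra hlt
      apply hA ⟨v, h⟩ hvV
      rw [show c' v = cn ⟨v, h⟩ from e1 ⟨v, h⟩] at hs
      simp only [Af2, mem_union, hlt, if_false]
      exact Or.inr hs
    · rw [e2 v h] at hs
      rw [mem_insert] at hv
      rcases hv with hv | hv
      · exact absurd ⟨hv0, hv⟩ h
      · exact hI.csp v hv0 hvV hv hs
  · intro m hm
    rw [mem_insert] at hm
    rcases hm with rfl | hm
    · obtain ⟨τ, hτ⟩ := h5
      refine ⟨τ, ?_⟩
      have : (fun v : Ts P m => insert (c' v.1) (Fn2 G X P t m v)) =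
          fun v => insert (cn v) (Fn2 G X P t m v) := by
        funext v
        rw [e1 v]
      rw [this]
      exact hτ
    · obtain ⟨τ, hτ⟩ := hI.tau m hm
      refine ⟨τ, ?_⟩
      have : (fun v : Ts P m => insert (c' v.1) (Fn2 G X P t m v)) =
          fun v => insert (c v.1) (Fn2 G X P t m v) := by
        funext v
        rw [e2 v.1]
        rintro ⟨_, h⟩
        apply hn
        rw [← h, v.2.2]
        exact hm
      rw [this]
      exact hτ

/-- the end -/
theorem inv_end2 {k : ℕ} (Mx : ℕ) (b1 : ℝ) (G : SimpleGraph V) (d : ℕ) (P : Pcs V M) (X : HD V)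
    (hX : HP k d G X) (t : V → V → ℕ) (cP : V → ℕ) (SS : Finset ℕ) (c : V → ℕ)
    (hS0 : ∀ z ∈ X.S0, z ∈ P.V0)
    (sym : ∀ v w, t v w = t w v)
    (lt : ∀ v w, (thin2 G X P).Adj v w → t v w < d + 2)
    (inj : ∀ v, Set.InjOn (t v) (nb (thin2 G X P) v : Set V))
    (th : ∀ v w, X.H.Adj v w → t v w = X.h0 v)
    (ne : ∀ z ∈ X.S0, ∀ w, G.Adj z w → t z w ∉ X.ne z w)
    (hI : Inv2 Mx b1 G d P X t cP SS univ c) : ∃ t', TotH d G X c t' := by
  have hD : ∀ v, v ∈ DV P (univ : Finset (Fin M)) := fun v => by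
    simp [DV]
  choose τ hτ using hI.tau
  exact glue2 hX P t c (fun n => τ n (mem_univ n)) hS0 sym lt inj th ne
    (fun v => ⟨hI.clt v (hD v), hI.cF v (hD v)⟩)
    (fun v w hv hw h => hI.cc v (hD v) w (hD w) hv hw h) hI.cV
    (fun v hv => hI.cnm v (hD v) hv) (fun n => hτ n (mem_univ n))

/-! ### Estimates for the forbidden colours -/

theorem Af2_card (b1 : ℝ) (G : SimpleGraph V) (P : Pcs V M) (X : HD V) (t : V → V → ℕ)
    (SS : Finset ℕ) (N : V → Finset ℕ) (Dn : Finset (Fin M)) (c : V → ℕ) (v : V) :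
    (Af2 b1 G P X t SS N Dn c v).card ≤ 2 * (nb (thin2 G X P) v).card + (N v).card + SS.card := by
  unfold Af2
  refine le_trans (card_union_le _ _) ?_
  have h1 : (Fc2 G X P t v).card ≤ (nb (thin2 G X P) v).card := card_image_le
  have h2 : (((nb (thin2 G X P) v ∩ DV P Dn) \ X.VH).image c).card ≤
      (nb (thin2 G X P) v).card :=
    le_trans card_image_le (card_le_card (sdiff_subset.trans inter_subset_left))
  have h3 : (if ((nb (thin2 G X P) v).card : ℝ) ≤ b1 then (∅ : Finset ℕ) else SS).card ≤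
      SS.card := by
    split_ifs <;> simp
  have h4 := card_union_le (Fc2 G X P t v ∪ N v)
    (((nb (thin2 G X P) v ∩ DV P Dn) \ X.VH).image c)
  have h5 := card_union_le (Fc2 G X P t v) (N v)
  omega

/-- number of vertices of a piece with a thin neighbour in `W` -/
theorem card_thin_nb2 (G : SimpleGraph V) (P : Pcs V M) (X : HD V) (n : Fin M) (W : Finset V) :
    ((univ : Finset (Ts P n)).filter (fun v => ∃ w ∈ W, (thin2 G X P).Adj v.1 w)).card ≤
      ∑ w ∈ W, (nb (thin2 G X P) w).card := by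
  have h : ((univ : Finset (Ts P n)).filter (fun v => ∃ w ∈ W, (thin2 G X P).Adj v.1 w)).image
      (fun v => v.1) ⊆ W.biUnion (fun w => nb (thin2 G X P) w) := by
    intro v hv
    rw [mem_image] at hv
    obtain ⟨v, hv, rfl⟩ := hv
    rw [mem_filter] at hv
    obtain ⟨_, w, hw, h⟩ := hv
    rw [mem_biUnion]
    exact ⟨w, hw, (mem_nb _ _ _).2 h.symm⟩
  rw [← card_image_of_injective _ (Subtype.val_injective :
    Function.Injective (fun v : Ts P n => v.1))]
  exact le_trans (card_le_card h) card_biUnion_le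

/-- vertices outside `V0` with own colour `b` -/
theorem card_own2 (Mx : ℕ) (b1 : ℝ) (G : SimpleGraph V) (d : ℕ) (P : Pcs V M) (X : HD V)
    (t : V → V → ℕ) (cP : V → ℕ) (SS : Finset ℕ) (Dn : Finset (Fin M)) (c : V → ℕ)
    (hI : Inv2 Mx b1 G d P X t cP SS Dn c) (b : ℕ) :
    ((univ : Finset V).filter (fun v => v ∉ P.V0 ∧ v ∉ X.VH ∧ P.pc v ∈ Dn ∧ c v = b)).card ≤
      M * Mx := by
  have h : (univ : Finset V).filter (fun v => v ∉ P.V0 ∧ v ∉ X.VH ∧ P.pc v ∈ Dn ∧ c v = b) ⊆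
      Dn.biUnion (fun n => (pV P n).filter (fun v => c v = b)) := by
    intro v hv
    simp only [mem_filter, mem_univ, true_and] at hv
    rw [mem_biUnion]
    refine ⟨P.pc v, hv.2.2.1, ?_⟩
    simp only [pV, mem_filter, mem_univ, true_and]
    exact ⟨⟨hv.1, trivial⟩, hv.2.2.2⟩
  refine le_trans (card_le_card h) (le_trans card_biUnion_le ?_)
  refine le_trans (sum_le_card_nsmul _ _ Mx (fun n hn => hI.cls b n hn)) ?_
  rw [smul_eq_mul]
  apply Nat.mul_le_mul_right
  have := card_le_univ Dn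
  simpa using this

/-- generic colours are forbidden at few vertices of a piece -/
theorem us_Af_generic2 (Mx : ℕ) (b1 x1 x2 y1 : ℝ) (G : SimpleGraph V) (d : ℕ) (P : Pcs V M)
    (X : HD V) (t : V → V → ℕ) (cP : V → ℕ) (SS : Finset ℕ) (N : V → Finset ℕ)
    (Dn : Finset (Fin M)) (c : V → ℕ)
    (hI : Inv2 Mx b1 G d P X t cP SS Dn c) (hS : ∀ z ∈ P.V0, z ∉ X.VH → cP z ∈ SS)
    (hx1 : ∀ n b, ((us (Fn2 G X P t n) b).card : ℝ) ≤ x1)
    (hx2 : ∀ v, v ∉ P.V0 → ((nb (thin2 G X P) v).card : ℝ) ≤ x2) (h0 : 0 ≤ x2)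
    (n : Fin M) (b : ℕ) (hb : b ∉ SS)
    (hy : ((univ.filter (fun v => b ∈ N v)).card : ℝ) ≤ y1) :
    ((us (fun v : Ts P n => Af2 b1 G P X t SS N Dn c v.1) b).card : ℝ) ≤
      x1 + y1 + M * Mx * x2 := by
  set W : Finset V := (univ : Finset V).filter
    (fun v => v ∉ P.V0 ∧ v ∉ X.VH ∧ P.pc v ∈ Dn ∧ c v = b) with hW
  have hsub : us (fun v : Ts P n => Af2 b1 G P X t SS N Dn c v.1) b ⊆ us (Fn2 G X P t n) b ∪
      (univ : Finset (Ts P n)).filter (fun v => b ∈ N v.1) ∪
      (univ : Finset (Ts P n)).filter (fun v => ∃ w ∈ W, (thin2 G X P).Adj v.1 w) := by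
    intro v hv
    rw [mem_us] at hv
    simp only [Af2, mem_union, mem_image, mem_sdiff, mem_inter, mem_nb] at hv
    rw [mem_union, mem_union]
    rcases hv with ((hv | hv) | ⟨w, ⟨⟨hw, hwD⟩, hwV⟩, hwb⟩) | hv
    · left
      left
      rw [mem_us]
      exact hv
    · left
      right
      simp only [mem_filter, mem_univ, true_and]
      exact hv
    · right
      simp only [mem_filter, mem_univ, true_and]
      refine ⟨w, ?_, hw⟩
      simp only [hW, mem_filter, mem_univ, true_and]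
      simp only [DV, mem_filter, mem_univ, true_and] at hwD
      by_cases hw0 : w ∈ P.V0
      · exfalso
        apply hb
        rw [← hwb, hI.c0 w hw0 hwV]
        exact hS w hw0 hwV
      · rcases hwD with hwD | hwD
        · exact absurd hwD hw0
        · exact ⟨hw0, hwV, hwD, hwb⟩
    · split_ifs at hv with hlt
      · simp at hv
      · exact absurd hv hb
  have h1 : ((us (fun v : Ts P n => Af2 b1 G P X t SS N Dn c v.1) b).card : ℝ) ≤
      ((us (Fn2 G X P t n) b).card : ℝ) +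
        (((univ : Finset (Ts P n)).filter (fun v => b ∈ N v.1)).card : ℝ) +
        (((univ : Finset (Ts P n)).filter (fun v => ∃ w ∈ W, (thin2 G X P).Adj v.1 w)).card :
          ℝ) := by
    have a1 := card_le_card hsub
    have a2 := card_union_le (us (Fn2 G X P t n) b ∪
      (univ : Finset (Ts P n)).filter (fun v => b ∈ N v.1))
      ((univ : Finset (Ts P n)).filter (fun v => ∃ w ∈ W, (thin2 G X P).Adj v.1 w))
    have a3 := card_union_le (us (Fn2 G X P t n) b)
      ((univ : Finset (Ts P n)).filter (fun v => b ∈ N v.1))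
    exact_mod_cast (by omega :
      (us (fun v : Ts P n => Af2 b1 G P X t SS N Dn c v.1) b).card ≤
      (us (Fn2 G X P t n) b).card +
        ((univ : Finset (Ts P n)).filter (fun v => b ∈ N v.1)).card +
        ((univ : Finset (Ts P n)).filter (fun v => ∃ w ∈ W, (thin2 G X P).Adj v.1 w)).card)
  have h2 : (((univ : Finset (Ts P n)).filter
      (fun v => ∃ w ∈ W, (thin2 G X P).Adj v.1 w)).card : ℝ) ≤ M * Mx * x2 := by
    have h3 := card_thin_nb2 G P X n W
    have h4 : ((∑ w ∈ W, (nb (thin2 G X P) w).card : ℕ) : ℝ) ≤ W.card * x2 := by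
      push_cast
      have : ∀ w ∈ W, ((nb (thin2 G X P) w).card : ℝ) ≤ x2 := by
        intro w hw
        simp only [hW, mem_filter, mem_univ, true_and] at hw
        exact hx2 w hw.1
      have := sum_le_card_nsmul W _ x2 this
      simpa [nsmul_eq_mul] using this
    have h5 : (W.card : ℝ) ≤ M * Mx := by
      exact_mod_cast card_own2 Mx b1 G d P X t cP SS Dn c hI b
    calc (((univ : Finset (Ts P n)).filter
          (fun v => ∃ w ∈ W, (thin2 G X P).Adj v.1 w)).card : ℝ)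
        ≤ ((∑ w ∈ W, (nb (thin2 G X P) w).card : ℕ) : ℝ) := by exact_mod_cast h3
      _ ≤ W.card * x2 := h4
      _ ≤ M * Mx * x2 := mul_le_mul_of_nonneg_right h5 h0
  have h6 : (((univ : Finset (Ts P n)).filter (fun v => b ∈ N v.1)).card : ℝ) ≤ y1 := by
    refine le_trans ?_ hy
    have h7 : ((univ : Finset (Ts P n)).filter (fun v => b ∈ N v.1)).card ≤
        (univ.filter (fun v => b ∈ N v)).card := by
      apply card_le_card_of_injOn (fun v => v.1)
      · intro v hv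
        simp only [coe_filter, mem_univ, true_and, Set.mem_setOf_eq] at hv ⊢
        exact hv
      · intro v _ w _ h
        exact Subtype.ext h
    exact_mod_cast h7
  linarith [hx1 n b]

/-- special colours: only few of the vertices where `b` is not a name and which have no neighbour
of colour `b` in `V0` are lost -/
theorem us_Af_special2 (Mx : ℕ) (b1 x1 x3 : ℝ) (G : SimpleGraph V) (d : ℕ) (P : Pcs V M)
    (X : HD V) (t : V → V → ℕ) (cP : V → ℕ) (SS : Finset ℕ) (N : V → Finset ℕ)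
    (Dn : Finset (Fin M)) (c : V → ℕ)
    (hI : Inv2 Mx b1 G d P X t cP SS Dn c)
    (hx1 : ∀ n b, ((us (Fn2 G X P t n) b).card : ℝ) ≤ x1)
    (hx3 : ((univ.filter (fun v => v ∉ P.V0 ∧
      ¬ ((nb (thin2 G X P) v).card : ℝ) ≤ b1)).card : ℝ) ≤ x3)
    (hb1 : 0 ≤ b1) (n : Fin M) (b : ℕ) (hb : b ∈ SS) (S : Finset (Ts P n)) :
    ((S.filter (fun v => b ∉ N v.1 ∧ ∀ w ∈ P.V0, w ∉ X.VH → cP w = b →
      ¬ G.Adj v.1 w)).card : ℝ) - x1 - x3 - M * Mx * b1 ≤
      ((S \ us (fun v : Ts P n => Af2 b1 G P X t SS N Dn c v.1) b).card : ℝ) := by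
  set W : Finset V := (univ : Finset V).filter
    (fun v => v ∉ P.V0 ∧ v ∉ X.VH ∧ P.pc v ∈ Dn ∧ c v = b) with hW
  set T1 := us (Fn2 G X P t n) b
  set T2 := (univ : Finset (Ts P n)).filter (fun v => ∃ w ∈ W, (thin2 G X P).Adj v.1 w)
  set T3 := (univ : Finset (Ts P n)).filter
    (fun v => ¬ ((nb (thin2 G X P) v.1).card : ℝ) ≤ b1)
  have hsub : S.filter (fun v => b ∉ N v.1 ∧ ∀ w ∈ P.V0, w ∉ X.VH → cP w = b →
      ¬ G.Adj v.1 w) ⊆
      (S \ us (fun v : Ts P n => Af2 b1 G P X t SS N Dn c v.1) b) ∪ (T1 ∪ (T2 ∪ T3)) := by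
    intro v hv
    rw [mem_filter] at hv
    by_cases hvA : v ∈ us (fun v : Ts P n => Af2 b1 G P X t SS N Dn c v.1) b
    · apply mem_union_right
      rw [mem_us] at hvA
      simp only [Af2, mem_union, mem_image, mem_sdiff, mem_inter, mem_nb] at hvA
      rcases hvA with ((hv' | hv') | ⟨w, ⟨⟨hw, hwD⟩, hwV⟩, hwb⟩) | hv'
      · apply mem_union_left
        simp only [T1]
        rw [mem_us]
        exact hv'
      · exact absurd hv' hv.2.1
      · apply mem_union_right
        apply mem_union_left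
        simp only [T2, mem_filter, mem_univ, true_and]
        refine ⟨w, ?_, hw⟩
        simp only [hW, mem_filter, mem_univ, true_and]
        simp only [DV, mem_filter, mem_univ, true_and] at hwD
        by_cases hw0 : w ∈ P.V0
        · exfalso
          refine hv.2.2 w hw0 hwV ?_ hw.1
          rw [← hI.c0 w hw0 hwV, hwb]
        · rcases hwD with hwD | hwD
          · exact absurd hwD hw0
          · exact ⟨hw0, hwV, hwD, hwb⟩
      · apply mem_union_right
        apply mem_union_right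
        simp only [T3, mem_filter, mem_univ, true_and]
        intro hlt
        simp only [hlt, if_true] at hv'
        simp at hv'
    · apply mem_union_left
      rw [mem_sdiff]
      exact ⟨hv.1, hvA⟩
  have h2 : (T2.card : ℝ) ≤ M * Mx * b1 := by
    have h3 := card_thin_nb2 G P X n W
    have h4 : ((∑ w ∈ W, (nb (thin2 G X P) w).card : ℕ) : ℝ) ≤ W.card * b1 := by
      push_cast
      have : ∀ w ∈ W, ((nb (thin2 G X P) w).card : ℝ) ≤ b1 := by
        intro w hw
        simp only [hW, mem_filter, mem_univ, true_and] at hw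
        apply hI.csp w hw.1 hw.2.1 hw.2.2.1
        rw [hw.2.2.2]
        exact hb
      have := sum_le_card_nsmul W _ b1 this
      simpa [nsmul_eq_mul] using this
    have h5 : (W.card : ℝ) ≤ M * Mx := by
      exact_mod_cast card_own2 Mx b1 G d P X t cP SS Dn c hI b
    calc (T2.card : ℝ) ≤ ((∑ w ∈ W, (nb (thin2 G X P) w).card : ℕ) : ℝ) := by
          exact_mod_cast h3
      _ ≤ W.card * b1 := h4
      _ ≤ M * Mx * b1 := mul_le_mul_of_nonneg_right h5 hb1
  have h3 : (T3.card : ℝ) ≤ x3 := by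
    refine le_trans ?_ hx3
    have h6 : T3.card ≤
        (univ.filter (fun v => v ∉ P.V0 ∧
          ¬ ((nb (thin2 G X P) v).card : ℝ) ≤ b1)).card := by
      apply card_le_card_of_injOn (fun v => v.1)
      · intro v hv
        simp only [T3, coe_filter, mem_univ, true_and, Set.mem_setOf_eq] at hv
        simp only [coe_filter, mem_univ, true_and, Set.mem_setOf_eq]
        exact ⟨v.2.1, hv⟩
      · intro v _ w _ h
        exact Subtype.ext h
    exact_mod_cast h6
  have h7 : ((S.filter (fun v => b ∉ N v.1 ∧ ∀ w ∈ P.V0, w ∉ X.VH → cP w = b →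
      ¬ G.Adj v.1 w)).card : ℝ) ≤
      ((S \ us (fun v : Ts P n => Af2 b1 G P X t SS N Dn c v.1) b).card : ℝ) +
        ((T1.card : ℝ) + (T2.card + T3.card)) := by
    have a1 := card_le_card hsub
    have a2 := card_union_le (S \ us (fun v : Ts P n => Af2 b1 G P X t SS N Dn c v.1) b)
      (T1 ∪ (T2 ∪ T3))
    have a3 := card_union_le T1 (T2 ∪ T3)
    have a4 := card_union_le T2 T3
    exact_mod_cast (by omega : (S.filter (fun v => b ∉ N v.1 ∧
      ∀ w ∈ P.V0, w ∉ X.VH → cP w = b → ¬ G.Adj v.1 w)).card ≤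
      (S \ us (fun v : Ts P n => Af2 b1 G P X t SS N Dn c v.1) b).card +
        (T1.card + (T2.card + T3.card)))
  have h8 := hx1 n b
  linarith

end state

end Pool.Agent.Work.MP_db9399_da.helper62
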