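import Pool.Agent.Work.MP_db9399_da_helper62.Bsm1
import Pool.Agent.Work.MP_db9399_da_helper62.Asm4

/-!
# MP_db9399, DENSE-ALL, phase 2: assembly, part 2 (owner helper62)

The constants, the inputs `LI2`, `LN` of the local theorems.
-/

set_option autoImplicit false

namespace Pool.Agent.Work.MP_db9399_da.helper62

open Finset Classical
open Pool.Agent.Work.MP_db9399_all (nb)
open Pool.Agent.Work.MP_db9399_nc (nn)
open Pool.Agent.Work.MP_db9399_lt (us)

universe u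

theorem cut_half (r A B : ℝ) (a b : ℕ) (hr : 0 < r) (hAB : A ≤ B + min (a : ℝ) b)
    (hB : 0 ≤ B) (h : r * a * b ≤ A) (hbig : a = 0 ∨ b = 0 ∨ 4 ≤ r * (a + b)) :
    r / 2 * a * b ≤ B := by
  have ha : (0 : ℝ) ≤ a := Nat.cast_nonneg a
  have hb : (0 : ℝ) ≤ b := Nat.cast_nonneg b
  rcases hbig with h0 | h0 | h0
  · subst h0
    simpa using hB
  · subst h0
    simpa using hB
  · rcases le_total (a : ℝ) b with hab | hab
    · rw [min_eq_left hab] at hAB
      have h1 : 2 ≤ r * b := by nlinarith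
      nlinarith
    · rw [min_eq_right hab] at hAB
      have h1 : 2 ≤ r * a := by nlinarith
      nlinarith

section inputs
variable {V : Type u} {M : ℕ} [Fintype V]

/-- number of edges lost with the matching -/
theorem loss_le {k d : ℕ} {G : SimpleGraph V} {X : HD V} (hX : HP k d G X) (P : Pcs V M)
    (n : Fin M) (S T : Finset (Ts P n)) (f : Ts P n → Finset (Ts P n)) (hf : ∀ v ∈ S, f v ⊆ T) :
    ∑ v ∈ S, ((nb (bk G P n) v ∩ f v).card : ℝ) ≤
      ∑ v ∈ S, ((nb (bk2 G X P n) v ∩ f v).card : ℝ) + min (S.card : ℝ) T.card := by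
  set S' := S.filter (fun v => ∃ w ∈ f v, X.H.Adj v.1 w.1) with hS'
  have h1 : ∀ v ∈ S, ((nb (bk G P n) v ∩ f v).card : ℝ) ≤
      ((nb (bk2 G X P n) v ∩ f v).card : ℝ) + (if ∃ w ∈ f v, X.H.Adj v.1 w.1 then 1 else 0) := by
    intro v _
    by_cases hv : ∃ w ∈ f v, X.H.Adj v.1 w.1
    · obtain ⟨w, hw, hvw⟩ := hv
      have hsub : nb (bk G P n) v ∩ f v ⊆ insert w (nb (bk2 G X P n) v ∩ f v) := by
        intro u hu
        rw [mem_inter, mem_nb] at hu
        rw [mem_insert, mem_inter, mem_nb]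
        by_cases hvu : X.H.Adj v.1 u.1
        · left
          exact Subtype.ext (hX.Hm v.1 u.1 w.1 hvu hvw)
        · right
          exact ⟨⟨hu.1, hvu⟩, hu.2⟩
      have h2 := le_trans (card_le_card hsub) (card_insert_le _ _)
      rw [if_pos ⟨w, hw, hvw⟩]
      exact_mod_cast h2
    · rw [if_neg hv, add_zero]
      have hsub : nb (bk G P n) v ∩ f v ⊆ nb (bk2 G X P n) v ∩ f v := by
        intro u hu
        rw [mem_inter, mem_nb] at hu
        rw [mem_inter, mem_nb]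
        exact ⟨⟨hu.1, fun h => hv ⟨u, hu.2, h⟩⟩, hu.2⟩
      exact_mod_cast card_le_card hsub
  have h2 : ∑ v ∈ S, ((nb (bk G P n) v ∩ f v).card : ℝ) ≤
      ∑ v ∈ S, ((nb (bk2 G X P n) v ∩ f v).card : ℝ) + S'.card := by
    refine le_trans (sum_le_sum h1) ?_
    rw [sum_add_distrib]
    apply add_le_add (le_refl _)
    rw [← sum_filter]
    simp [hS']
  have h3 : S'.card ≤ S.card := card_filter_le _ _
  have h4 : S'.card ≤ T.card := by
    have hex : ∀ v ∈ S', ∃ w ∈ f v, X.H.Adj v.1 w.1 := fun v hv => (mem_filter.1 hv).2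
    choose! q hq1 hq2 using hex
    apply card_le_card_of_injOn q
    · intro v hv
      exact hf v (mem_filter.1 hv).1 (hq1 v hv)
    · intro v hv v' hv' he
      have e1 := hq2 v hv
      have e2 := hq2 v' hv'
      rw [he] at e1
      exact Subtype.ext (hX.Hm _ _ _ e1.symm e2.symm)
  have h5 : (S'.card : ℝ) ≤ min (S.card : ℝ) T.card := by
    apply le_min
    · exact_mod_cast h3
    · exact_mod_cast h4
  linarith

/-- common constants, phase 2 -/
structure Con2 (C g ρ ρ' π κ ε ζ θ θL θh : ℝ) (M Mx d k k2 : ℕ) : Prop where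
  C1 : 1 ≤ C
  g1 : g = 1 / 10 ^ 28
  r0 : 0 < ρ'
  r1 : ρ' ≤ ρ
  e0 : 0 < ε
  e1 : ε ≤ θL / 4
  e2 : ε ≤ 1 / 10 ^ 30
  h0 : 0 < θh
  h1 : θh ≤ θL / 8
  h2 : θh ≤ 1 / 10 ^ 29
  z0 : 0 < ζ
  z1 : (4 + (M : ℝ) * Mx) * ζ ≤ θL / 8
  z2 : (4 + (M : ℝ) * Mx) * ζ ≤ 1 / 10 ^ 30
  t0 : 0 < θ
  t1 : 10 ^ 8 * (1 + (M : ℝ) * Mx) * (KK k : ℝ) * θ ≤ ζ ^ 2
  t2 : θ ≤ θL / 8
  d0 : 10 ^ 40 ≤ d
  d1 : 10 ^ 8 * (1 + (M : ℝ) * Mx) * (KK k : ℝ) * ((k : ℝ) + k2 + 1) ≤ ζ * d
  d2 : (Mx : ℝ) + k2 + k + 2 ≤ θL / 8 * d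
  d3 : 100 * C ≤ ρ' * d

theorem KK_real (k : ℕ) : (100 : ℝ) ≤ KK k ∧ (100 : ℝ) * k ≤ KK k := by
  unfold KK
  push_cast
  have : (0 : ℝ) ≤ k := Nat.cast_nonneg k
  constructor <;> linarith

/-- simple consequences -/
theorem con_fac {C g ρ ρ' π κ ε ζ θ θL θh : ℝ} {Mx d k k2 : ℕ}
    (hc : Con2 C g ρ ρ' π κ ε ζ θ θL θh M Mx d k k2) :
    (0 : ℝ) < d ∧ 0 < ζ * d ∧ 4 * (ζ * d) ≤ θL / 8 * d ∧ ζ ≤ 1 / 10 ^ 30 ∧
      10 ^ 8 * (KK k * (θ * d)) ≤ ζ * d ∧ 10 ^ 8 * (KK k * ((k : ℝ) + k2 + 1)) ≤ ζ * d ∧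
      10 ^ 8 * ((k : ℝ) + k2 + 1) ≤ ζ * d ∧ 10 ^ 8 * (θ * d) ≤ ζ * d ∧
      (M : ℝ) * Mx * (ζ * d + 1) ≤ θL / 8 * d + (M : ℝ) * Mx := by
  have hM0 : (0 : ℝ) ≤ (M : ℝ) * Mx := by positivity
  obtain ⟨hK1, hK2⟩ := KK_real k
  have hd : (0 : ℝ) < d := by
    have := hc.d0
    exact_mod_cast lt_of_lt_of_le (by norm_num) this
  have hz := hc.z0
  have hzd : 0 < ζ * d := mul_pos hz hd
  have hq : (0 : ℝ) ≤ (k : ℝ) + k2 + 1 := by positivity
  have h1 : ζ ≤ 1 / 10 ^ 30 := by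
    have := hc.z2
    nlinarith
  have h2 : 10 ^ 8 * (KK k * θ) ≤ ζ := by
    have h3 := hc.t1
    have h4 : 10 ^ 8 * ((KK k : ℝ) * θ) ≤ 10 ^ 8 * (1 + (M : ℝ) * Mx) * (KK k : ℝ) * θ := by
      have : 0 ≤ (KK k : ℝ) * θ := mul_nonneg (by linarith) hc.t0.le
      nlinarith
    have h5 : ζ ^ 2 ≤ ζ := by
      have : ζ ≤ 1 := le_trans h1 (by norm_num)
      nlinarith
    linarith
  have h3 : 10 ^ 8 * ((KK k : ℝ) * ((k : ℝ) + k2 + 1)) ≤ ζ * d := by
    have h4 := hc.d1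
    have : 0 ≤ (KK k : ℝ) * ((k : ℝ) + k2 + 1) := mul_nonneg (by linarith) hq
    nlinarith
  refine ⟨hd, hzd, ?_, h1, ?_, h3, ?_, ?_, ?_⟩
  · have h4 := hc.z1
    have h5 : 4 * ζ ≤ (4 + (M : ℝ) * Mx) * ζ := by nlinarith
    nlinarith
  · nlinarith
  · nlinarith
  · have h4 : 10 ^ 8 * θ ≤ 10 ^ 8 * (KK k * θ) := by
      have := hc.t0
      nlinarith
    nlinarith
  · have h4 := hc.z1
    have h5 : (M : ℝ) * Mx * ζ ≤ θL / 8 := by nlinarith
    nlinarith

theorem thin2_real {C g ρ ζ θ : ℝ} {k : ℕ} {G : SimpleGraph V} {d : ℕ} {P : Pcs V M} {X : HD V}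
    (hD : DecP C g ρ ζ θ G d P) (hX : HP k d G X) (v : V) (hv : v ∉ P.V0) :
    ((nb (thin2 G X P) v).card : ℝ) ≤ ζ * d + 1 := by
  have h1 : ((nb (thin2 G X P) v).card : ℝ) ≤ (nb (thin G P) v).card + 1 := by
    exact_mod_cast thin2_card hX P v
  linarith [hD.thd v hv]

theorem deg_bk2 {C g ρ ζ θ : ℝ} {G : SimpleGraph V} {d : ℕ} {P : Pcs V M} {X : HD V}
    {t : V → V → ℕ}
    (hD : DecP C g ρ ζ θ G d P) (hinj : ∀ v, Set.InjOn (t v) (nb (thin2 G X P) v : Set V))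
    (n : Fin M) (v : Ts P n) : (nb (bk2 G X P n) v).card + (Fn2 G X P t n v).card = d := by
  rw [card_nb_bk2]
  unfold Fn2
  rw [card_Fc2 G X P t v.1 (hinj v.1), nb_split2, hD.reg]

theorem Fn2_card {C g ρ ζ θ : ℝ} {k : ℕ} {G : SimpleGraph V} {d : ℕ} {P : Pcs V M} {X : HD V}
    {t : V → V → ℕ}
    (hD : DecP C g ρ ζ θ G d P) (hX : HP k d G X) (n : Fin M) (v : Ts P n) :
    ((Fn2 G X P t n v).card : ℝ) ≤ ζ * d + 1 := by
  refine le_trans ?_ (thin2_real hD hX v.1 v.2.1)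
  exact_mod_cast card_image_le

theorem mem_Fc2_lt {G : SimpleGraph V} {d : ℕ} {P : Pcs V M} {X : HD V} {t : V → V → ℕ}
    (lt : ∀ v w, (thin2 G X P).Adj v w → t v w < d + 2) (v : V) (b : ℕ)
    (hb : b ∈ Fc2 G X P t v) : b < d + 2 := by
  unfold Fc2 at hb
  rw [mem_image] at hb
  obtain ⟨w, hw, rfl⟩ := hb
  exact lt v w ((mem_nb _ _ _).1 hw)

/-- a piece with a vertex has at least `d / 2` vertices -/
theorem Ts_big {C g ρ ρ' π κ ε ζ θ θL θh : ℝ} {Mx k k2 : ℕ} {G : SimpleGraph V} {d : ℕ}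
    {P : Pcs V M} {X : HD V} {t : V → V → ℕ}
    (hc : Con2 C g ρ ρ' π κ ε ζ θ θL θh M Mx d k k2)
    (hD : DecP C g ρ ζ θ G d P) (hX : HP k d G X)
    (hinj : ∀ v, Set.InjOn (t v) (nb (thin2 G X P) v : Set V)) (n : Fin M) (v : Ts P n) :
    (d : ℝ) / 2 ≤ (Fintype.card (Ts P n) : ℝ) := by
  have h1 := deg_bk2 hD hinj n v
  have h2 := Fn2_card (t := t) hD hX n v
  have h3 : ((nb (bk2 G X P n) v).card : ℝ) + (Fn2 G X P t n v).card = d := by exact_mod_cast h1
  have h4 : ((nb (bk2 G X P n) v).card : ℝ) ≤ (Fintype.card (Ts P n) : ℝ) := by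
    exact_mod_cast card_le_univ _
  obtain ⟨hd, hzd, _, hz1, _, _, h8, _, _⟩ := con_fac hc
  have h5 : ζ * d ≤ 1 / 10 ^ 30 * d := mul_le_mul_of_nonneg_right hz1 hd.le
  have h6 : (0 : ℝ) ≤ (k : ℝ) + k2 := by positivity
  norm_num at h5 h8
  linarith

theorem LI_of2 {C g ρ ρ' π κ ε ζ θ θL θh : ℝ} {Mx k k2 : ℕ} {G : SimpleGraph V} {d : ℕ}
    {P : Pcs V M} {A : Pal} {X : HD V} {Ss : Finset ℕ} {t : V → V → ℕ} {cP : V → ℕ}
    {Sp : Finset ℕ}
    (hc : Con2 C g ρ ρ' π κ ε ζ θ θL θh M Mx d k k2)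
    (hD : DecP C g ρ ζ θ G d P) (hL : PartL ρ' ε G d P) (hA : PalP A d π κ)
    (hX : HP k d G X) (hR : PreP2 ε ζ k G d P A X Ss t cP Sp) (n : Fin M)
    (hn : P.ty n = Ty.N ∨ P.ty n = Ty.B)
    (F' : Ts P n → Finset ℕ) (hF1 : ∀ v, (F' v).card ≤ (Fn2 G X P t n v).card + 1)
    (hF2 : ∀ v, ∀ b ∈ F' v, b ∈ Fn2 G X P t n v ∨ b ∈ P1 d A.Q A.P2)
    (hF3 : ∀ v, Fn2 G X P t n v ⊆ F' v)
    (hF4 : ∀ b, ((us F' b).card : ℝ) ≤ ((us (Fn2 G X P t n) b).card : ℝ) + Mx) :
    LI2 (bk2 G X P n) d (KK k) C (ρ' / 2) π κ θL (sdn P n) (ptn P n) A.Q A.P2 F' := by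
  obtain ⟨hd, hzd, h4z, hz1, _, _, hk1, _, _⟩ := con_fac hc
  have hd0 : (0 : ℝ) ≤ d := hd.le
  have hM0 : (0 : ℝ) ≤ (M : ℝ) * Mx := by positivity
  have hus : ∀ b, b ∉ P1 d A.Q A.P2 → us F' b = us (Fn2 G X P t n) b := by
    intro b hb
    ext v
    rw [mem_us, mem_us]
    constructor
    · intro h
      rcases hF2 v b h with h | h
      · exact h
      · exact absurd h hb
    · intro h
      exact hF3 v h
  have hnP : ∀ i, ∀ b ∈ A.Q i ∪ A.P2, b ∉ P1 d A.Q A.P2 := by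
    intro i b hb h
    simp only [P1, mem_sdiff, mem_union, not_or] at h
    rw [mem_union] at hb
    rcases hb with hb | hb
    · cases i
      · exact h.2.1.1 hb
      · exact h.2.1.2 hb
    · exact h.2.2 hb
  have hsgp : ∀ i j, ∀ b ∈ A.Q j ∪ A.P2, sgp F' (sdn P n) (ptn P n) i b =
      sgp (Fn2 G X P t n) (sdn P n) (ptn P n) i b := by
    intro i j b hb
    unfold sgp
    rw [hus b (hnP j b hb)]
  have hθL : 0 ≤ θL * d := by nlinarith
  have he : ε * d ≤ θL * d := by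
    have h1 : ε * d ≤ θL / 4 * d := mul_le_mul_of_nonneg_right hc.e1 hd0
    linarith
  have hd2 := hc.d2
  have hMx : (0 : ℝ) ≤ Mx := Nat.cast_nonneg Mx
  have hkk : (0 : ℝ) ≤ (k : ℝ) + k2 := by positivity
  refine ⟨?_, ?_, ?_, ?_, Pal_Q_sub hA, Pal_P2_sub hA, Pal_QQ hA, Pal_QP hA, hA.Qc, hA.Pc, ?_, ?_,
    ?_, ?_, ?_, ?_⟩
  · refine le_trans ?_ hD.siz
    exact_mod_cast card_Ts_le P n
  · intro v b hb
    rcases hF2 v b hb with h | h
    · exact mem_Fc2_lt hR.lt v.1 b h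
    · have := (mem_sdiff.1 h).1
      rwa [mem_range] at this
  · intro v
    have h1 : ((F' v).card : ℝ) ≤ (Fn2 G X P t n v).card + 1 := by exact_mod_cast hF1 v
    have h2 := Fn2_card (t := t) hD hX n v
    linarith
  · intro b
    have h1 := hF4 b
    have h2 := hR.load n b
    have h4 : ε * ζ * d ≤ ζ * d := by
      have : ε ≤ 1 := le_trans hc.e2 (by norm_num)
      nlinarith
    linarith
  · intro v
    have h1 := hR.rN v.1 v.2.1 (by rw [v.2.2]; exact hn)
    rw [disjoint_left]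
    intro b hb hb'
    rcases hF2 v b hb with h | h
    · exact disjoint_left.1 h1 h hb'
    · exact hnP (P.pt v.1) b (mem_union_left _ hb') h
  · intro i b hb
    rw [hsgp i (!i) b hb]
    exact hR.sPQ n hn i b hb
  · intro i
    have h1 : ∑ b ∈ A.P2, sgp F' (sdn P n) (ptn P n) i b =
        ∑ b ∈ A.P2, sgp (Fn2 G X P t n) (sdn P n) (ptn P n) i b :=
      sum_congr rfl (fun b hb => hsgp i false b (mem_union_right _ hb))
    rw [h1]
    exact le_trans (hR.sm2 n hn i) he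
  · intro i
    have h1 : ∑ b ∈ A.Q (!i), sgp F' (sdn P n) (ptn P n) i b =
        ∑ b ∈ A.Q (!i), sgp (Fn2 G X P t n) (sdn P n) (ptn P n) i b :=
      sum_congr rfl (fun b hb => hsgp i (!i) b (mem_union_left _ hb))
    rw [h1]
    exact le_trans (hR.smQ n hn i) he
  · intro S
    have h0 := hD.cut n hn S
    have h1 : (0 : ℝ) ≤ (S.card : ℝ) * (univ \ S).card := by positivity
    have h2 : ρ' * S.card * (univ \ S).card ≤ ρ * S.card * (univ \ S).card := by
      nlinarith [hc.r1]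
    have h3 : ρ' * S.card * (univ \ S).card ≤
        ∑ v ∈ S, ((nb (bk G P n) v \ S).card : ℝ) := by linarith
    have e1 : ∀ (H : SimpleGraph (Ts P n)) (v : Ts P n), nb H v \ S = nb H v ∩ (univ \ S) := by
      intro H v
      ext w
      simp
    have h4 := loss_le hX P n S (univ \ S) (fun _ => univ \ S) (fun _ _ => Subset.refl _)
    have h5 : ρ' / 2 * S.card * (univ \ S).card ≤
        ∑ v ∈ S, ((nb (bk2 G X P n) v \ S).card : ℝ) := by
      have e2 : ∑ v ∈ S, ((nb (bk G P n) v \ S).card : ℝ) =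
          ∑ v ∈ S, ((nb (bk G P n) v ∩ (univ \ S)).card : ℝ) :=
        sum_congr rfl (fun v _ => by rw [e1])
      have e3 : ∑ v ∈ S, ((nb (bk2 G X P n) v \ S).card : ℝ) =
          ∑ v ∈ S, ((nb (bk2 G X P n) v ∩ (univ \ S)).card : ℝ) :=
        sum_congr rfl (fun v _ => by rw [e1])
      rw [e2] at h3
      rw [e3]
      refine cut_half ρ' _ _ _ _ hc.r0 h4 (sum_nonneg (fun _ _ => Nat.cast_nonneg _)) h3 ?_
      rcases S.eq_empty_or_nonempty with hS | ⟨v, _⟩
      · left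
        rw [hS, card_empty]
      · right
        right
        have h6 := Ts_big hc hD hX hR.inj n v
        have h7 : (S.card : ℝ) + (univ \ S).card = (Fintype.card (Ts P n) : ℝ) := by
          have := card_sdiff_add_card_eq_card (subset_univ S)
          rw [card_univ] at this
          exact_mod_cast (by omega : S.card + (univ \ S).card = Fintype.card (Ts P n))
        rw [h7]
        have h8 := hc.d3
        have h9 := hc.C1
        have h10 := hc.r0
        nlinarith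
    exact dec_irrel (p := fun (_ : DecidableEq (Ts P n)) =>
      ρ' / 2 * S.card * (univ \ S).card ≤
        ∑ v ∈ S, ((nb (bk2 G X P n) v \ S).card : ℝ)) h5
  · intro i S hS
    have h0 := hL.cutP n hn i S hS
    have h4 := loss_le hX P n S (prt (ptn P n) i \ S)
      (fun v => (univ \ S) ∩ qtr (sdn P n) (ptn P n) (!(sdn P n v)) i) (by
        intro v _ w hw
        simp only [mem_inter, mem_sdiff, mem_univ, true_and, qtr, mem_filter] at hw
        simp only [prt, mem_sdiff, mem_filter, mem_univ, true_and]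
        exact ⟨hw.2.2, hw.1⟩)
    have e1 : ∀ (H : SimpleGraph (Ts P n)) (v : Ts P n),
        (nb H v \ S) ∩ qtr (sdn P n) (ptn P n) (!(sdn P n v)) i =
          nb H v ∩ ((univ \ S) ∩ qtr (sdn P n) (ptn P n) (!(sdn P n v)) i) := by
      intro H v
      ext w
      simp only [mem_inter, mem_sdiff, mem_univ, true_and]
      tauto
    have h3 : ρ' * S.card * (prt (ptn P n) i \ S).card ≤ ∑ v ∈ S, (((nb (bk G P n) v \ S) ∩
        qtr (sdn P n) (ptn P n) (!(sdn P n v)) i).card : ℝ) := by exact h0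
    have h5 : ρ' / 2 * S.card * (prt (ptn P n) i \ S).card ≤
        ∑ v ∈ S, (((nb (bk2 G X P n) v \ S) ∩
          qtr (sdn P n) (ptn P n) (!(sdn P n v)) i).card : ℝ) := by
      have e2 : ∑ v ∈ S, (((nb (bk G P n) v \ S) ∩
          qtr (sdn P n) (ptn P n) (!(sdn P n v)) i).card : ℝ) =
          ∑ v ∈ S, ((nb (bk G P n) v ∩ ((univ \ S) ∩
            qtr (sdn P n) (ptn P n) (!(sdn P n v)) i)).card : ℝ) :=
        sum_congr rfl (fun v _ => by rw [e1])
      have e3 : ∑ v ∈ S, (((nb (bk2 G X P n) v \ S) ∩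
          qtr (sdn P n) (ptn P n) (!(sdn P n v)) i).card : ℝ) =
          ∑ v ∈ S, ((nb (bk2 G X P n) v ∩ ((univ \ S) ∩
            qtr (sdn P n) (ptn P n) (!(sdn P n v)) i)).card : ℝ) :=
        sum_congr rfl (fun v _ => by rw [e1])
      rw [e2] at h3
      rw [e3]
      refine cut_half ρ' _ _ _ _ hc.r0 h4 (sum_nonneg (fun _ _ => Nat.cast_nonneg _)) h3 ?_
      rcases S.eq_empty_or_nonempty with hS0 | ⟨v, _⟩
      · left
        rw [hS0, card_empty]
      · right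
        right
        have h7 : (S.card : ℝ) + (prt (ptn P n) i \ S).card = ((prt (ptn P n) i).card : ℝ) := by
          have := card_sdiff_add_card_eq_card hS
          exact_mod_cast (by omega :
            S.card + (prt (ptn P n) i \ S).card = (prt (ptn P n) i).card)
        have h6 : (d : ℝ) / 5 ≤ ((prt (ptn P n) i).card : ℝ) := by
          have hε : ε * (d : ℝ) ≤ 1 / 10 ^ 30 * d := mul_le_mul_of_nonneg_right hc.e2 hd0
          norm_num at hε
          rcases hn with hn | hn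
          · have h8 := (abs_le.1 (hL.nD n hn v false i)).1
            have h9 : ((nb (bk G P n) v ∩ qtr (sdn P n) (ptn P n) false i).card : ℝ) ≤
                ((prt (ptn P n) i).card : ℝ) := by
              have h10 : nb (bk G P n) v ∩ qtr (sdn P n) (ptn P n) false i ⊆
                  prt (ptn P n) i := by
                intro w hw
                simp only [mem_inter, qtr, mem_filter, mem_univ, true_and] at hw
                simp only [prt, mem_filter, mem_univ, true_and]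
                exact hw.2.2
              exact_mod_cast card_le_card h10
            have h11 : (d : ℝ) / 4 - ε * d ≤
                ((nb (bk G P n) v ∩ qtr (sdn P n) (ptn P n) false i).card : ℝ) := by
              have h12 : -(ε * (d : ℝ)) ≤
                ((nb (bk G P n) v ∩ qtr (sdn P n) (ptn P n) false i).card : ℝ) - d / 4 := by
                exact h8
              linarith
            linarith
          · have h8 := (abs_le.1 (hL.bD n hn v i)).1
            have h9 : ((nb (bk G P n) v ∩ prt (ptn P n) i).card : ℝ) ≤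
                ((prt (ptn P n) i).card : ℝ) := by
              exact_mod_cast card_le_card inter_subset_right
            have h11 : (d : ℝ) / 2 - ε * d ≤
                ((nb (bk G P n) v ∩ prt (ptn P n) i).card : ℝ) := by
              have h12 : -(ε * (d : ℝ)) ≤
                ((nb (bk G P n) v ∩ prt (ptn P n) i).card : ℝ) - d / 2 := by
                exact h8
              linarith
            linarith
        rw [h7]
        have h8 := hc.d3
        have h9 := hc.C1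
        have h10 := hc.r0
        nlinarith
    exact dec_irrel (p := fun (_ : DecidableEq (Ts P n)) =>
      ρ' / 2 * S.card * (prt (ptn P n) i \ S).card ≤
        ∑ v ∈ S, (((nb (bk2 G X P n) v \ S) ∩
          qtr (sdn P n) (ptn P n) (!(sdn P n v)) i).card : ℝ)) h5

/-! ### Type N -/

theorem nbT_le {k : ℕ} {G : SimpleGraph V} {d : ℕ} {P : Pcs V M} {X : HD V} (hX : HP k d G X)
    (n : Fin M) (v : Ts P n) (T : Finset (Ts P n)) :
    (nb (bk2 G X P n) v ∩ T).card ≤ (nb (bk G P n) v ∩ T).card ∧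
      (nb (bk G P n) v ∩ T).card ≤ (nb (bk2 G X P n) v ∩ T).card + 1 := by
  constructor
  · apply card_le_card
    intro w hw
    rw [mem_inter, mem_nb] at hw ⊢
    exact ⟨hw.1.1, hw.2⟩
  · have h := loss_le hX P n {v} univ (fun _ => T) (fun _ _ => subset_univ _)
    rw [sum_singleton, sum_singleton, card_singleton] at h
    have h1 : min ((1 : ℕ) : ℝ) ((univ : Finset (Ts P n)).card : ℝ) ≤ 1 := by
      push_cast
      exact min_le_left _ _
    have h2 : ((nb (bk G P n) v ∩ T).card : ℝ) ≤ ((nb (bk2 G X P n) v ∩ T).card : ℝ) + 1 := by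
      linarith
    exact_mod_cast h2

theorem LN_of2 {C g ρ ρ' π κ ε ζ θ θL θh : ℝ} {Mx k k2 : ℕ} {G : SimpleGraph V} {d : ℕ}
    {P : Pcs V M} {A : Pal} {X : HD V} {Ss : Finset ℕ} {t : V → V → ℕ} {cP : V → ℕ}
    {Sp : Finset ℕ}
    (hc : Con2 C g ρ ρ' π κ ε ζ θ θL θh M Mx d k k2)
    (hD : DecP C g ρ ζ θ G d P) (hL : PartL ρ' ε G d P) (hX : HP k d G X)
    (hR : PreP2 ε ζ k G d P A X Ss t cP Sp) (n : Fin M) (hn : P.ty n = Ty.N)
    (c : Ts P n → ℕ) (hcF : ∀ v, c v ∉ Fn2 G X P t n v) :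
    LN (bk2 G X P n) d (g / 2) (ρ' / 2) θL (sdn P n) (ptn P n)
      (fun v => insert (c v) (Fn2 G X P t n v)) := by
  obtain ⟨hd, hzd, h4z, hz1, _, _, hk1, _, _⟩ := con_fac hc
  have hd0 : (0 : ℝ) ≤ d := Nat.cast_nonneg d
  have hd2 := hc.d2
  have hMx : (0 : ℝ) ≤ Mx := Nat.cast_nonneg Mx
  have hkk : (0 : ℝ) ≤ (k : ℝ) + k2 := by positivity
  refine ⟨hD.nL n hn, ?_, ?_, hL.nS n hn, ?_⟩
  · intro v
    have h1 := deg_bk2 hD hR.inj n v
    rw [card_insert_of_notMem (hcF v)]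
    omega
  · intro v β i
    have h0 := hL.nD n hn v β i
    have h0' : |((nb (bk G P n) v ∩ qtr (sdn P n) (ptn P n) β i).card : ℝ) - d / 4| ≤ ε * d := by
      exact h0
    have h1 : ε * (d : ℝ) ≤ θL / 4 * d := mul_le_mul_of_nonneg_right hc.e1 hd0
    have h2 := nbT_le hX n v (qtr (sdn P n) (ptn P n) β i)
    have h3 : ((nb (bk2 G X P n) v ∩ qtr (sdn P n) (ptn P n) β i).card : ℝ) ≤
        (nb (bk G P n) v ∩ qtr (sdn P n) (ptn P n) β i).card := by exact_mod_cast h2.1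
    have h4 : ((nb (bk G P n) v ∩ qtr (sdn P n) (ptn P n) β i).card : ℝ) ≤
        (nb (bk2 G X P n) v ∩ qtr (sdn P n) (ptn P n) β i).card + 1 := by exact_mod_cast h2.2
    rw [abs_le] at h0'
    have h5 : |((nb (bk2 G X P n) v ∩ qtr (sdn P n) (ptn P n) β i).card : ℝ) - d / 4| ≤
        θL * d := by
      rw [abs_le]
      constructor <;> linarith [h0'.1, h0'.2]
    exact dec_irrel (p := fun (_ : DecidableEq (Ts P n)) =>
      |((nb (bk2 G X P n) v ∩ qtr (sdn P n) (ptn P n) β i).card : ℝ) -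
        d / 4| ≤ θL * d) h5
  · intro S
    have h0 := hD.nbi n hn S
    have h0' : ρ * (d : ℝ) ^ 2 ≤ ∑ v ∈ S, ((nb (bk G P n) v ∩ S).card : ℝ) +
        ∑ v ∈ univ \ S, ((nb (bk G P n) v \ S).card : ℝ) := by exact h0
    have e1 : ∀ (H : SimpleGraph (Ts P n)) (v : Ts P n), nb H v \ S = nb H v ∩ (univ \ S) := by
      intro H v
      ext w
      simp
    have h1 := loss_le hX P n S S (fun _ => S) (fun _ _ => Subset.refl _)
    have h2 := loss_le hX P n (univ \ S) (univ \ S) (fun _ => univ \ S)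
      (fun _ _ => Subset.refl _)
    rw [min_self] at h1 h2
    have e2 : ∑ v ∈ univ \ S, ((nb (bk G P n) v \ S).card : ℝ) =
        ∑ v ∈ univ \ S, ((nb (bk G P n) v ∩ (univ \ S)).card : ℝ) :=
      sum_congr rfl (fun v _ => by rw [e1])
    have e3 : ∑ v ∈ univ \ S, ((nb (bk2 G X P n) v \ S).card : ℝ) =
        ∑ v ∈ univ \ S, ((nb (bk2 G X P n) v ∩ (univ \ S)).card : ℝ) :=
      sum_congr rfl (fun v _ => by rw [e1])
    have h7 : (S.card : ℝ) + (univ \ S).card = (Fintype.card (Ts P n) : ℝ) := by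
      have := card_sdiff_add_card_eq_card (subset_univ S)
      rw [card_univ] at this
      exact_mod_cast (by omega : S.card + (univ \ S).card = Fintype.card (Ts P n))
    have h8 : (Fintype.card (Ts P n) : ℝ) ≤ C * d := by
      refine le_trans ?_ hD.siz
      exact_mod_cast card_Ts_le P n
    have h9 : 2 * (C * d) ≤ ρ' * (d : ℝ) ^ 2 := by
      have := hc.d3
      have := hc.C1
      nlinarith
    have h10 : ρ' * (d : ℝ) ^ 2 ≤ ρ * (d : ℝ) ^ 2 :=
      mul_le_mul_of_nonneg_right hc.r1 (by positivity)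
    have h11 : ρ' / 2 * (d : ℝ) ^ 2 ≤ ∑ v ∈ S, ((nb (bk2 G X P n) v ∩ S).card : ℝ) +
        ∑ v ∈ univ \ S, ((nb (bk2 G X P n) v \ S).card : ℝ) := by
      rw [e3]
      rw [e2] at h0'
      linarith
    exact dec_irrel (p := fun (_ : DecidableEq (Ts P n)) =>
      ρ' / 2 * (d : ℝ) ^ 2 ≤
      ∑ v ∈ S, ((nb (bk2 G X P n) v ∩ S).card : ℝ) +
        ∑ v ∈ univ \ S, ((nb (bk2 G X P n) v \ S).card : ℝ)) h11

end inputs

end Pool.Agent.Work.MP_db9399_da.helper62
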