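import Pool.Agent.Work.MP_db9399_da_helper62.Bsm2

/-!
# MP_db9399, DENSE-ALL, phase 2: assembly, part 3 (owner helper62)

Pieces of type B.
-/

set_option autoImplicit false

namespace Pool.Agent.Work.MP_db9399_da.helper62

open Finset Classical
open Pool.Agent.Work.MP_db9399_all (nb)
open Pool.Agent.Work.MP_db9399_nc (nn)
open Pool.Agent.Work.MP_db9399_lt (us)

universe u

/-- the bound for thin degrees of vertices with own colour in `SS` -/
noncomputable def bb2 (ζ : ℝ) (M Mx d k : ℕ) : ℝ := ζ * d / (1000 * (1 + (M : ℝ) * Mx) * KK k)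

section inputs
variable {V : Type u} {M : ℕ} [Fintype V]

theorem bb2_facts {C g ρ ρ' π κ ε ζ θ θL θh : ℝ} {Mx d k k2 : ℕ}
    (hc : Con2 C g ρ ρ' π κ ε ζ θ θL θh M Mx d k k2) :
    2 ≤ bb2 ζ M Mx d k ∧ 1000 * (KK k * bb2 ζ M Mx d k) ≤ ζ * d ∧
      1000 * ((M : ℝ) * Mx * bb2 ζ M Mx d k) ≤ ζ * d := by
  have hM0 : (0 : ℝ) ≤ (M : ℝ) * Mx := by positivity
  obtain ⟨hK1, hK2⟩ := KK_real k
  have hK0 : (0 : ℝ) < KK k := by linarith
  have h1 : (0 : ℝ) < 1000 * (1 + (M : ℝ) * Mx) * KK k := by positivity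
  have hzd : 0 ≤ ζ * d := mul_nonneg hc.z0.le (Nat.cast_nonneg d)
  have hkk : (0 : ℝ) ≤ (k : ℝ) + k2 := by positivity
  have hd1 := hc.d1
  unfold bb2
  refine ⟨?_, ?_, ?_⟩
  · rw [le_div_iff₀ h1]
    have h2 : 0 ≤ (1 + (M : ℝ) * Mx) * (KK k : ℝ) := by positivity
    have h3 : (1 + (M : ℝ) * Mx) * (KK k : ℝ) ≤
        (1 + (M : ℝ) * Mx) * (KK k : ℝ) * ((k : ℝ) + k2 + 1) := by nlinarith
    nlinarith
  · rw [← mul_div_assoc, ← mul_div_assoc, div_le_iff₀ h1]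
    nlinarith [mul_nonneg hM0 (mul_nonneg hK0.le hzd)]
  · rw [← mul_div_assoc, ← mul_div_assoc, div_le_iff₀ h1]
    have h4 : (M : ℝ) * Mx * (ζ * d) ≤ (1 + (M : ℝ) * Mx) * KK k * (ζ * d) := by
      apply mul_le_mul_of_nonneg_right _ hzd
      nlinarith
    nlinarith

/-- few vertices of large thin degree -/
theorem card_big2 {C g ρ ρ' π κ ε ζ θ θL θh : ℝ} {Mx k k2 : ℕ} {G : SimpleGraph V} {d : ℕ}
    {P : Pcs V M} {X : HD V}
    (hc : Con2 C g ρ ρ' π κ ε ζ θ θL θh M Mx d k k2)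
    (hD : DecP C g ρ ζ θ G d P) (hX : HP k d G X) :
    ((univ.filter (fun v => v ∉ P.V0 ∧
      ¬ ((nb (thin2 G X P) v).card : ℝ) ≤ bb2 ζ M Mx d k)).card : ℝ) ≤ ζ * d / 1000 := by
  set S := univ.filter (fun v => v ∉ P.V0 ∧
    ¬ ((nb (thin2 G X P) v).card : ℝ) ≤ bb2 ζ M Mx d k) with hS
  obtain ⟨hb2, _, _⟩ := bb2_facts hc
  have hb : 0 < bb2 ζ M Mx d k / 2 := by linarith
  have h1 : (S.card : ℝ) * (bb2 ζ M Mx d k / 2) ≤ θ * (d : ℝ) ^ 2 := by
    refine le_trans ?_ hD.ths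
    have h2 : (S.card : ℝ) * (bb2 ζ M Mx d k / 2) ≤
        ∑ v ∈ S, ((nb (thin G P) v).card : ℝ) := by
      have := card_nsmul_le_sum S (fun v => ((nb (thin G P) v).card : ℝ))
        (bb2 ζ M Mx d k / 2) (by
        intro v hv
        rw [hS, mem_filter] at hv
        have h3 := not_le.1 hv.2.2
        have h4 : ((nb (thin2 G X P) v).card : ℝ) ≤ (nb (thin G P) v).card + 1 := by
          exact_mod_cast thin2_card hX P v
        linarith)
      simpa [nsmul_eq_mul] using this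
    refine le_trans h2 (sum_le_sum_of_subset_of_nonneg ?_ (fun _ _ _ => by positivity))
    intro v hv
    rw [hS, mem_filter] at hv
    exact mem_sdiff.2 ⟨mem_univ _, hv.2.1⟩
  have hq : (0 : ℝ) ≤ (M : ℝ) * Mx := by positivity
  have hz := hc.z0
  obtain ⟨hK1, hK2⟩ := KK_real k
  have hK0 : (0 : ℝ) < KK k := by linarith
  have h3 : θ * (d : ℝ) ^ 2 ≤ ζ * d / 1000 * (bb2 ζ M Mx d k / 2) := by
    have e : ζ * d / 1000 * (bb2 ζ M Mx d k / 2) =
        ζ ^ 2 * (d : ℝ) ^ 2 / (1000 * 2 * (1000 * (1 + (M : ℝ) * Mx) * KK k)) := by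
      unfold bb2
      field_simp
    rw [e, le_div_iff₀ (by positivity)]
    have h4 := hc.t1
    have h5 : 10 ^ 8 * (1 + (M : ℝ) * Mx) * (KK k : ℝ) * θ * (d : ℝ) ^ 2 ≤
        ζ ^ 2 * (d : ℝ) ^ 2 := mul_le_mul_of_nonneg_right h4 (by positivity)
    have h6 : 0 ≤ (1 + (M : ℝ) * Mx) * (KK k : ℝ) * θ * (d : ℝ) ^ 2 := by
      have := hc.t0
      positivity
    nlinarith
  have h4 : (S.card : ℝ) * (bb2 ζ M Mx d k / 2) ≤ ζ * d / 1000 * (bb2 ζ M Mx d k / 2) :=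
    le_trans h1 h3
  exact le_of_mul_le_mul_right h4 hb

theorem z_floor2 {C g ρ ρ' π κ ε ζ θ θL θh : ℝ} {Mx d k k2 : ℕ}
    (hc : Con2 C g ρ ρ' π κ ε ζ θ θL θh M Mx d k k2) :
    ζ * d / 10 ≤ (⌊ζ * d / 8⌋₊ : ℝ) ∧ (⌊ζ * d / 8⌋₊ : ℝ) ≤ ζ * d / 8 ∧ 10 ^ 8 ≤ ζ * d := by
  obtain ⟨_, hzd, _, _, _, _, h7, _, _⟩ := con_fac hc
  have hkk : (0 : ℝ) ≤ (k : ℝ) + k2 := by positivity
  have h1 := Nat.lt_floor_add_one (ζ * d / 8)
  have h2 : (10 : ℝ) ^ 8 ≤ ζ * d := by nlinarith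
  refine ⟨?_, Nat.floor_le (by positivity), h2⟩
  norm_num at h2
  linarith

theorem SS_card {C g ρ ζ θ ε : ℝ} {k k2 : ℕ} {G : SimpleGraph V} {d : ℕ} {P : Pcs V M}
    {A : Pal} {X : HD V} {Ss : Finset ℕ} {t : V → V → ℕ} {cP : V → ℕ} {Sp : Finset ℕ}
    (hD : DecP C g ρ ζ θ G d P) (hR : PreP2 ε ζ k G d P A X Ss t cP Sp) (hk2 : Ss.card ≤ k2) :
    ((Sp ∪ Ss).card : ℝ) ≤ θ * d + k2 := by
  have h1 : (Sp.card : ℝ) ≤ θ * d := by
    refine le_trans ?_ hD.V0c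
    rw [hR.own]
    exact_mod_cast le_trans card_image_le (card_le_card sdiff_subset)
  have h2 : ((Sp ∪ Ss).card : ℝ) ≤ Sp.card + Ss.card := by exact_mod_cast card_union_le _ _
  have h3 : (Ss.card : ℝ) ≤ k2 := by exact_mod_cast hk2
  linarith

/-- the set `S` without the vertices where `b` is forbidden, for special `b` -/
theorem special2 {C g ρ ρ' π κ ε ζ θ θL θh : ℝ} {Mx k k2 : ℕ} {G : SimpleGraph V} {d : ℕ}
    {P : Pcs V M} {A : Pal} {X : HD V} {Ss : Finset ℕ} {t : V → V → ℕ} {cP : V → ℕ}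
    {Sp : Finset ℕ}
    (hc : Con2 C g ρ ρ' π κ ε ζ θ θL θh M Mx d k k2)
    (hD : DecP C g ρ ζ θ G d P) (hX : HP k d G X)
    (hR : PreP2 ε ζ k G d P A X Ss t cP Sp) (N : V → Finset ℕ) (Dn : Finset (Fin M))
    (c : V → ℕ) (hI : Inv2 Mx (bb2 ζ M Mx d k) G d P X t cP (Sp ∪ Ss) Dn c) (n : Fin M) (b : ℕ)
    (hb : b ∈ Sp ∪ Ss) (S : Finset (Ts P n)) :
    ((S.filter (fun v => b ∉ N v.1 ∧ ∀ w ∈ P.V0, w ∉ X.VH → cP w = b →
      ¬ G.Adj v.1 w)).card : ℝ) - ζ * d / 300 ≤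
      ((S \ us (fun v : Ts P n => Af2 (bb2 ζ M Mx d k) G P X t (Sp ∪ Ss) N Dn c v.1) b).card :
        ℝ) := by
  obtain ⟨hb2, _, hb3⟩ := bb2_facts hc
  have h1 := us_Af_special2 Mx (bb2 ζ M Mx d k) (ε * ζ * d) (ζ * d / 1000) G d P X t cP
    (Sp ∪ Ss) N Dn c hI hR.load (card_big2 hc hD hX) (by linarith) n b hb S
  have h3 : 0 ≤ ζ * d := mul_nonneg hc.z0.le (Nat.cast_nonneg d)
  have h4 : ε * ζ * d ≤ ζ * d / 1000 := by
    have := hc.e2
    have h5 : ε ≤ 1 / 1000 := le_trans this (by norm_num)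
    nlinarith
  linarith

/-- colours `cP z`: vertices outside the neighbourhood of `z` -/
theorem own_filter {C g ρ ζ θ ε : ℝ} {k : ℕ} {G : SimpleGraph V} {d : ℕ} {P : Pcs V M}
    {A : Pal} {X : HD V} {Ss : Finset ℕ} {t : V → V → ℕ} {cP : V → ℕ} {Sp : Finset ℕ}
    (_hD : DecP C g ρ ζ θ G d P) (hR : PreP2 ε ζ k G d P A X Ss t cP Sp)
    (N : V → Finset ℕ) (hN : ∀ v, N v ⊆ X.nm v) (n : Fin M) (z : V) (hz : z ∈ P.V0)
    (hzV : z ∉ X.VH) (S : Finset (Ts P n))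
    (hS : ζ / 4 * d ≤ ((S.filter (fun v => ¬ G.Adj z v.1)).card : ℝ)) :
    ζ * d * (3 / 16) ≤ ((S.filter (fun v => cP z ∉ N v.1 ∧ ∀ w ∈ P.V0, w ∉ X.VH →
      cP w = cP z → ¬ G.Adj v.1 w)).card : ℝ) := by
  have h1 : S.filter (fun v => ¬ G.Adj z v.1) ⊆
      (S.filter (fun v => cP z ∉ N v.1 ∧ ∀ w ∈ P.V0, w ∉ X.VH →
        cP w = cP z → ¬ G.Adj v.1 w)) ∪
      (univ : Finset (Ts P n)).filter (fun v => cP z ∈ X.nm v.1) := by
    intro v hv
    rw [mem_filter] at hv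
    rw [mem_union, mem_filter, mem_filter]
    by_cases h : cP z ∈ X.nm v.1
    · exact Or.inr ⟨mem_univ _, h⟩
    · left
      refine ⟨hv.1, fun h' => h (hN _ h'), ?_⟩
      intro w hw hwV he hadj
      have : w = z := hR.oin (by
        rw [mem_coe, mem_sdiff]; exact ⟨hw, hwV⟩) (by
        rw [mem_coe, mem_sdiff]; exact ⟨hz, hzV⟩) he
      subst this
      exact hv.2 hadj.symm
  have h2 := card_le_card h1
  have h3 := card_union_le (S.filter (fun v => cP z ∉ N v.1 ∧ ∀ w ∈ P.V0, w ∉ X.VH →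
    cP w = cP z → ¬ G.Adj v.1 w)) ((univ : Finset (Ts P n)).filter (fun v => cP z ∈ X.nm v.1))
  have h4 : ((univ : Finset (Ts P n)).filter (fun v => cP z ∈ X.nm v.1)).card ≤
      (univ.filter (fun v => cP z ∈ X.nm v)).card := by
    apply card_le_card_of_injOn (fun v => v.1)
    · intro v hv
      rw [mem_coe, mem_filter] at hv ⊢
      exact ⟨mem_univ _, hv.2⟩
    · intro v _ w _ h
      exact Subtype.ext h
  have h5 := hR.lig z hz hzV
  have h6 : ((S.filter (fun v => ¬ G.Adj z v.1)).card : ℝ) ≤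
      ((S.filter (fun v => cP z ∉ N v.1 ∧ ∀ w ∈ P.V0, w ∉ X.VH →
        cP w = cP z → ¬ G.Adj v.1 w)).card : ℝ) +
      ((univ.filter (fun v => cP z ∈ X.nm v)).card : ℝ) := by
    exact_mod_cast (by omega : (S.filter (fun v => ¬ G.Adj z v.1)).card ≤
      (S.filter (fun v => cP z ∉ N v.1 ∧ ∀ w ∈ P.V0, w ∉ X.VH →
        cP w = cP z → ¬ G.Adj v.1 w)).card + (univ.filter (fun v => cP z ∈ X.nm v)).card)
  linarith

/-- colours of `Ss` are not own colours of vertices of `V0` -/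
theorem Ss_filter {ε ζ : ℝ} {k : ℕ} {G : SimpleGraph V} {d : ℕ} {P : Pcs V M}
    {A : Pal} {X : HD V} {Ss : Finset ℕ} {t : V → V → ℕ} {cP : V → ℕ} {Sp : Finset ℕ}
    (hR : PreP2 ε ζ k G d P A X Ss t cP Sp) (N : V → Finset ℕ) (n : Fin M) (b : ℕ)
    (hb : b ∈ Ss) (S : Finset (Ts P n)) :
    S.filter (fun v => b ∉ N v.1 ∧ ∀ w ∈ P.V0, w ∉ X.VH → cP w = b → ¬ G.Adj v.1 w) =
      S.filter (fun v => b ∉ N v.1) := by
  ext v
  rw [mem_filter, mem_filter]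
  constructor
  · intro h
    exact ⟨h.1, h.2.1⟩
  · intro h
    refine ⟨h.1, h.2, ?_⟩
    intro w hw hwV he
    exfalso
    have h1 : b ∈ Sp := by
      rw [hR.own, ← he]
      exact mem_image_of_mem _ (mem_sdiff.2 ⟨hw, hwV⟩)
    exact disjoint_left.1 hR.SS h1 hb

theorem side_conv2 (P : Pcs V M) (n : Fin M) (β : Bool) (p : V → Prop) [DecidablePred p] :
    ((sid (sdn P n) β).filter (fun v => p v.1)).card = ((sV P n β).filter p).card := by
  apply card_bij (fun v _ => v.1)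
  · intro v hv
    rw [mem_filter, mem_sid] at hv
    rw [mem_filter]
    refine ⟨?_, hv.2⟩
    simp only [sV, mem_filter, mem_univ, true_and]
    exact ⟨v.2.1, v.2.2, hv.1⟩
  · intro v _ w _ h
    exact Subtype.ext h
  · intro v hv
    simp only [sV, mem_filter, mem_univ, true_and] at hv
    refine ⟨⟨v, hv.1.1, hv.1.2.1⟩, ?_, rfl⟩
    rw [mem_filter, mem_sid]
    exact ⟨hv.1.2.2, hv.2⟩

theorem not_big_of2 {b1 : ℝ} {G : SimpleGraph V} {P : Pcs V M} {X : HD V} {t : V → V → ℕ}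
    {SS : Finset ℕ} {N : V → Finset ℕ} {Dn : Finset (Fin M)} {c : V → ℕ} {v : V} {b : ℕ}
    (hb : b ∈ SS) (hv : b ∉ Af2 b1 G P X t SS N Dn c v) :
    ((nb (thin2 G X P) v).card : ℝ) ≤ b1 := by
  by_contra h
  apply hv
  simp only [Af2, mem_union, h, if_false]
  exact Or.inr hb

theorem Af2_real {C g ρ ρ' π κ ε ζ θ θL θh : ℝ} {Mx k k2 : ℕ} {G : SimpleGraph V} {d : ℕ}
    {P : Pcs V M} {A : Pal} {X : HD V} {Ss : Finset ℕ} {t : V → V → ℕ} {cP : V → ℕ}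
    {Sp : Finset ℕ} (b1 : ℝ)
    (hc : Con2 C g ρ ρ' π κ ε ζ θ θL θh M Mx d k k2)
    (hD : DecP C g ρ ζ θ G d P) (hX : HP k d G X)
    (hR : PreP2 ε ζ k G d P A X Ss t cP Sp) (hk2 : Ss.card ≤ k2)
    (N : V → Finset ℕ) (hN : ∀ v, N v ⊆ X.nm v) (Dn : Finset (Fin M))
    (c : V → ℕ) (v : V) (hv : v ∉ P.V0) :
    ((Af2 b1 G P X t (Sp ∪ Ss) N Dn c v).card : ℝ) ≤ 3 * (ζ * d) := by
  have h1 : ((Af2 b1 G P X t (Sp ∪ Ss) N Dn c v).card : ℝ) ≤
      2 * (nb (thin2 G X P) v).card + (N v).card + (Sp ∪ Ss).card := by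
    exact_mod_cast Af2_card b1 G P X t (Sp ∪ Ss) N Dn c v
  have h2 := thin2_real hD hX v hv
  have h3 := SS_card hD hR hk2
  obtain ⟨_, hzd, _, _, _, _, h7, h8, _⟩ := con_fac hc
  have h4 : ((N v).card : ℝ) ≤ k := by
    exact_mod_cast le_trans (card_le_card (hN v)) (hX.nmk v)
  norm_num at h7 h8
  linarith

theorem LB_of2 {C g ρ ρ' π κ ε ζ θ θL θh : ℝ} {Mx k k2 : ℕ} {G : SimpleGraph V} {d : ℕ}
    {P : Pcs V M} {A : Pal} {X : HD V} {Ss : Finset ℕ} {t : V → V → ℕ} {cP : V → ℕ}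
    {Sp : Finset ℕ}
    (hc : Con2 C g ρ ρ' π κ ε ζ θ θL θh M Mx d k k2)
    (hD : DecP C g ρ ζ θ G d P) (hL : PartL ρ' ε G d P) (hA : PalP A d π κ)
    (hX : HP k d G X) (hS : SupP P X) (hR : PreP2 ε ζ k G d P A X Ss t cP Sp)
    (hSC : Ss ⊆ A.C0 d) (hk2 : Ss.card ≤ k2)
    (hcs : ∀ v ∈ X.VH, X.c0 v ∈ Ss)
    (hH : ∀ b, b < d + 2 → b ∉ Ss →
      ((univ.filter (fun v => b ∈ X.nm v)).card : ℝ) ≤ θh * d)
    (Dn : Finset (Fin M)) (c : V → ℕ)
    (hI : Inv2 Mx (bb2 ζ M Mx d k) G d P X t cP (Sp ∪ Ss) Dn c) (n : Fin M)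
    (hn : P.ty n = Ty.B) :
    LB2 (bk2 G X P n) (tk2 G X P n) d ⌊ζ * d / 8⌋₊ (KK k) θL (sdn P n) (ptn P n) A.Q A.P2
      (Fn2 G X P t n)
      (fun v => Af2 (bb2 ζ M Mx d k) G P X t (Sp ∪ Ss) X.nm Dn c v.1) (Sp ∪ Ss)
      (Bkn X P ζ d Ss n) (oT X P n) (fun v => X.c0 v.1) := by
  obtain ⟨hd, hzd, h4z, hz1, hKt, hKk, hk1, ht1, hMz⟩ := con_fac hc
  obtain ⟨hb2, hbK, hbM⟩ := bb2_facts hc
  obtain ⟨hzf, hzf2, hz8⟩ := z_floor2 hc
  have hd0 : (0 : ℝ) ≤ d := hd.le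
  have hM0 : (0 : ℝ) ≤ (M : ℝ) * Mx := by positivity
  have hMx : (0 : ℝ) ≤ Mx := Nat.cast_nonneg Mx
  have hk0 : (0 : ℝ) ≤ k := Nat.cast_nonneg k
  have hk20 : (0 : ℝ) ≤ k2 := Nat.cast_nonneg k2
  obtain ⟨hK1, hK2⟩ := KK_real k
  have hd2 := hc.d2
  have hSSc := SS_card hD hR hk2
  have hCC : Sp ∪ Ss ⊆ P1 d A.Q A.P2 :=
    (union_subset hR.SC hSC).trans (Pal_C0_sub hA)
  have hθL : 0 ≤ θL * d := by nlinarith
  have hε : ε * d ≤ θL / 4 * d := mul_le_mul_of_nonneg_right hc.e1 hd0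
  have hθ : θ * d ≤ θL / 8 * d := mul_le_mul_of_nonneg_right hc.t2 hd0
  have hoc : (oT X P n).card ≤ k := by
    refine le_trans ?_ hX.VHk
    apply card_le_card_of_injOn (fun v => v.1)
    · intro v hv
      rw [mem_coe, oT, mem_filter] at hv
      exact hv.2
    · intro v _ w _ h
      exact Subtype.ext h
  have hocr : ((oT X P n).card : ℝ) ≤ k := by exact_mod_cast hoc
  have hmo : ∀ v : Ts P n, v ∈ oT X P n ↔ v.1 ∈ X.VH := by
    intro v
    simp [oT]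
  have hS0 : ∀ v : Ts P n, v.1 ∉ X.S0 := fun v h => v.2.1 (hS v.1 h).1
  refine
    { bip := ?_, deg := deg_bk2 hD hR.inj n, dgp := ?_, eqs := hL.bB n hn, siz := hL.bS n hn,
      FA := ?_, Ax := ?_, Tx := ?_, SP := hCC, Sc := ?_, BS := ?_, gA := ?_, Ze := ?_,
      Zz := ?_, Zt := ?_, ok := ?_, oc := ?_, oG := ?_, oT := ?_, gs := hR.gs n hn,
      sm1 := le_trans (hR.sm1 n hn) (by linarith), tot := ?_, oY := hR.oY n hn,
      EX := ?_ }
  · intro v w hvw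
    exact hvw.1.2.2.2.2 (by rw [v.2.2]; exact hn)
  · intro v i
    have h0 := hL.bD n hn v i
    have h0' : |((nb (bk G P n) v ∩ prt (ptn P n) i).card : ℝ) - d / 2| ≤ ε * d := by
      exact h0
    have h2 := nbT_le hX n v (prt (ptn P n) i)
    have h3 : ((nb (bk2 G X P n) v ∩ prt (ptn P n) i).card : ℝ) ≤
        (nb (bk G P n) v ∩ prt (ptn P n) i).card := by exact_mod_cast h2.1
    have h4 : ((nb (bk G P n) v ∩ prt (ptn P n) i).card : ℝ) ≤
        (nb (bk2 G X P n) v ∩ prt (ptn P n) i).card + 1 := by exact_mod_cast h2.2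
    rw [abs_le] at h0'
    have h5 : |((nb (bk2 G X P n) v ∩ prt (ptn P n) i).card : ℝ) - d / 2| ≤ θL * d := by
      rw [abs_le]
      constructor <;> linarith [h0'.1, h0'.2]
    exact dec_irrel (p := fun (_ : DecidableEq (Ts P n)) =>
      |((nb (bk2 G X P n) v ∩ prt (ptn P n) i).card : ℝ) - d / 2| ≤ θL * d) h5
  · intro v _ b hb
    exact Fc2_sub_Af2 _ G P X t _ _ Dn c v.1 hb
  · intro v _
    have := Af2_real (bb2 ζ M Mx d k) hc hD hX hR hk2 X.nm (fun _ => Subset.refl _) Dn c v.1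
      v.2.1
    linarith
  · intro v
    have h1 : ((nb (tk2 G X P n) v).card : ℝ) ≤ (nb (thin2 G X P) v.1).card := by
      exact_mod_cast card_nb_tk2 G X P n v
    have h2 := thin2_real hD hX v.1 v.2.1
    linarith
  · linarith
  · intro β b hb
    rw [mem_union]
    right
    exact (mem_filter.1 hb).1
  · intro b hbd hb
    rw [mem_union, not_or] at hb
    have h1 := us_Af_generic2 Mx (bb2 ζ M Mx d k) (ε * ζ * d) (ζ * d + 1) (θh * d) G d P X t cP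
      (Sp ∪ Ss) X.nm Dn c hI (fun z hz hzV => by
        rw [mem_union, hR.own]
        exact Or.inl (mem_image_of_mem _ (mem_sdiff.2 ⟨hz, hzV⟩))) hR.load
      (thin2_real hD hX) (by linarith) n b (by rw [mem_union, not_or]; exact hb)
      (hH b hbd hb.2)
    have h2 : ε * ζ * d ≤ ζ * d := by
      have : ε ≤ 1 := le_trans hc.e2 (by norm_num)
      nlinarith
    have h3 : ((us (fun v : Ts P n => Af2 (bb2 ζ M Mx d k) G P X t (Sp ∪ Ss) X.nm Dn c v.1) b \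
        oT X P n).card : ℝ) ≤
        (us (fun v : Ts P n => Af2 (bb2 ζ M Mx d k) G P X t (Sp ∪ Ss) X.nm Dn c v.1) b).card := by
      exact_mod_cast card_le_card sdiff_subset
    have h4 : (M : ℝ) * Mx ≤ θL / 8 * d := by
      have h5 : (M : ℝ) * Mx ≤ (M : ℝ) * Mx * (ζ * d) := by
        have : (1 : ℝ) ≤ ζ * d := le_trans (by norm_num) hz8
        nlinarith
      have h6 := hc.z1
      have h7 : (M : ℝ) * Mx * ζ ≤ θL / 8 := by nlinarith [hc.z0]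
      have h8 : (M : ℝ) * Mx * ζ * d ≤ θL / 8 * d := mul_le_mul_of_nonneg_right h7 hd0
      linarith
    have h5 : θh * d ≤ θL / 8 * d := mul_le_mul_of_nonneg_right hc.h1 hd0
    have h6 : ((us (fun v : Ts P n => Af2 (bb2 ζ M Mx d k) G P X t (Sp ∪ Ss) X.nm Dn c v.1) b \
        oT X P n).card : ℝ) ≤ θL * d := by linarith
    exact dec_irrel (p := fun (_ : DecidableEq (Ts P n)) =>
      ((us (fun v : Ts P n =>
        Af2 (bb2 ζ M Mx d k) G P X t (Sp ∪ Ss) X.nm Dn c v.1) b \ oT X P n).card : ℝ) ≤ θL * d) h6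
  · intro b hb β hbk hneed
    have hfil : ζ * d * (3 / 16) ≤ (((sid (sdn P n) β).filter (fun v => b ∉ X.nm v.1 ∧
        ∀ w ∈ P.V0, w ∉ X.VH → cP w = b → ¬ G.Adj v.1 w)).card : ℝ) := by
      by_cases hbS : b ∈ Ss
      · rw [Ss_filter hR X.nm n b hbS]
        have h3 : ((sid (sdn P n) β).filter (fun v => b ∉ X.nm v.1)).card =
            ((sV P n β).filter (fun v => b ∉ X.nm v)).card := by
          have := side_conv2 P n β (fun v => b ∉ X.nm v)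
          exact this
        rw [h3]
        have h1 : ¬ ((((sV P n β).filter (fun v => b ∉ X.nm v)).card : ℝ) < ζ / 4 * d) := by
          intro h
          apply hbk
          rw [Bkn, mem_filter]
          exact ⟨hbS, h⟩
        have h2 := not_lt.1 h1
        linarith
      · have hb' : b ∈ Sp := by
          rw [mem_union] at hb
          exact hb.resolve_right hbS
        rw [hR.own, mem_image] at hb'
        obtain ⟨z, hz, rfl⟩ := hb'
        rw [mem_sdiff] at hz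
        have hrg : P.rg z ≠ some (n, β) := by
          intro h
          have := hR.adj z hz.1 hz.2 n β h
          have h9 : need (Fo2 G X P t n) (sdn P n) β (cP z) =
            need (Fo (oT X P n) (fun v => X.c0 v.1) (Fn2 G X P t n)) (sdn P n) β (cP z) := rfl
          omega
        have h1 := hD.hubB n β hn z hz.1 hrg
        rw [← side_conv] at h1
        have h1' : ζ / 4 * d ≤ (((sid (sdn P n) β).filter (fun v => ¬ G.Adj z v.1)).card : ℝ) := by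
          exact h1
        exact own_filter hD hR X.nm (fun _ => Subset.refl _) n z hz.1 hz.2 _ h1'
    have h1 := special2 hc hD hX hR X.nm Dn c hI n b hb (sid (sdn P n) β)
    have h2 : ((sid (sdn P n) β \ us (fun v : Ts P n =>
        Af2 (bb2 ζ M Mx d k) G P X t (Sp ∪ Ss) X.nm Dn c v.1) b).card : ℝ) ≤
        (((sid (sdn P n) β \ us (fun v : Ts P n =>
        Af2 (bb2 ζ M Mx d k) G P X t (Sp ∪ Ss) X.nm Dn c v.1) b) \ oT X P n).card : ℝ) + k := by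
      have h3 : (sid (sdn P n) β \ us (fun v : Ts P n =>
        Af2 (bb2 ζ M Mx d k) G P X t (Sp ∪ Ss) X.nm Dn c v.1) b).card ≤
        ((sid (sdn P n) β \ us (fun v : Ts P n =>
        Af2 (bb2 ζ M Mx d k) G P X t (Sp ∪ Ss) X.nm Dn c v.1) b) \ oT X P n).card +
          (oT X P n).card := by
        rw [← Finset.card_sdiff_add_card_inter _ (oT X P n)]
        exact Nat.add_le_add_left (card_le_card inter_subset_right) _
      exact_mod_cast le_trans h3 (Nat.add_le_add_left hoc _)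
    have h4 : ⌊ζ * d / 8⌋₊ ≤ ((sid (sdn P n) β \ us (fun v : Ts P n =>
        Af2 (bb2 ζ M Mx d k) G P X t (Sp ∪ Ss) X.nm Dn c v.1) b) \ oT X P n).card := by
      apply Nat.floor_le_of_le
      norm_num at hk1
      linarith
    exact dec_irrel (p := fun (_ : DecidableEq (Ts P n)) =>
      ⌊ζ * d / 8⌋₊ ≤ ((sid (sdn P n) β \ us (fun v : Ts P n =>
        Af2 (bb2 ζ M Mx d k) G P X t (Sp ∪ Ss) X.nm Dn c v.1) b) \ oT X P n).card) h4
  · have h1 : (100 : ℝ) * KK k * ((Sp ∪ Ss).card + 1) ≤ (⌊ζ * d / 8⌋₊ : ℝ) := by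
      have h2 : (KK k : ℝ) * ((Sp ∪ Ss).card + 1) ≤
          KK k * (θ * d) + KK k * ((k : ℝ) + k2 + 1) := by
        rw [← mul_add]
        apply mul_le_mul_of_nonneg_left _ (by linarith)
        linarith
      norm_num at hKt hKk
      nlinarith
    exact_mod_cast h1
  · intro b hb v _ hv
    have h1 := not_big_of2 hb hv
    have h2 : ((nb (tk2 G X P n) v).card : ℝ) ≤ (nb (thin2 G X P) v.1).card := by
      exact_mod_cast card_nb_tk2 G X P n v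
    have h4 : (100 : ℝ) * KK k * (nb (tk2 G X P n) v).card ≤ (⌊ζ * d / 8⌋₊ : ℝ) := by
      have h5 : (KK k : ℝ) * (nb (tk2 G X P n) v).card ≤ KK k * bb2 ζ M Mx d k :=
        mul_le_mul_of_nonneg_left (by linarith) (by linarith)
      linarith
    exact_mod_cast h4
  · have h1 : ((oT X P n).card : ℝ) ≤ KK k := by linarith
    exact_mod_cast h1
  · intro v hv
    rw [hmo] at hv
    refine ⟨mem_union_right _ (hcs v.1 hv), ?_⟩
    exact hR.cVH v.1 hv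
  · intro v hv w hvw
    rw [hmo] at hv
    have hGa : G.Adj v.1 w.1 := hvw.1.1
    have hw : w.1 ∉ X.VH := fun hw => hvw.2 (hX.VV v.1 hv w.1 (Or.inl hw) hGa)
    refine ⟨by rw [hmo]; exact hw, ?_⟩
    exact N_sub_Af2 _ G P X t _ _ Dn c w.1 (hX.nmV v.1 hv w.1 hGa hw (hS0 w))
  · intro v hv w hvw
    rw [hmo] at hv
    have hGa : G.Adj v.1 w.1 := hvw.1
    constructor
    · intro hw
      rw [hmo] at hw
      exact (hX.cc v.1 hv w.1 hw (hX.VV v.1 hv w.1 (Or.inl hw) hGa)).1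
    · intro hw
      rw [hmo] at hw
      exact N_sub_Af2 _ G P X t _ _ Dn c w.1 (hX.nmV v.1 hv w.1 hGa hw (hS0 w))
  · intro β
    refine le_trans (hR.tot n hn β) ?_
    apply mul_le_mul_of_nonneg_right _ hd0
    have := hc.e1
    have := hc.e0
    linarith
  · intro β
    have h0 := hR.EX n hn β
    unfold Fo2 at h0
    exact dec_irrel (p := fun (_ : DecidableEq (Ts P n)) =>
      ∑ b ∈ Bkn X P ζ d Ss n β,
      need (Fo (oT X P n) (fun v => X.c0 v.1) (Fn2 G X P t n)) (sdn P n) β b ≤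
      (oT X P n ∩ sid (sdn P n) (!β)).card + ∑ b ∈ P1 d A.Q A.P2 \ Bkn X P ζ d Ss n (!β),
        need (Fo (oT X P n) (fun v => X.c0 v.1) (Fn2 G X P t n)) (sdn P n) (!β) b) h0

/-- one more piece of type B -/
theorem step_B2 {C g ρ ρ' π κ ε ζ θ θL θh : ℝ} {Mx MB k k2 : ℕ} {G : SimpleGraph V} {d : ℕ}
    {P : Pcs V M} {A : Pal} {X : HD V} {Ss : Finset ℕ} {t : V → V → ℕ} {cP : V → ℕ}
    {Sp : Finset ℕ}
    (hc : Con2 C g ρ ρ' π κ ε ζ θ θL θh M Mx d k k2)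
    (hD : DecP C g ρ ζ θ G d P) (hL : PartL ρ' ε G d P) (hA : PalP A d π κ)
    (hX : HP k d G X) (hS : SupP P X) (hR : PreP2 ε ζ k G d P A X Ss t cP Sp)
    (hSC : Ss ⊆ A.C0 d) (hk2 : Ss.card ≤ k2)
    (hcs : ∀ v ∈ X.VH, X.c0 v ∈ Ss)
    (hH : ∀ b, b < d + 2 → b ∉ Ss →
      ((univ.filter (fun v => b ∈ X.nm v)).card : ℝ) ≤ θh * d)
    (hMB : MB ≤ Mx)
    (hLB : ∀ {W : Type u} [Fintype W] (G Th : SimpleGraph W) (z : ℕ) (sd pt : W → Bool)
      (Q : Bool → Finset ℕ) (P2 : Finset ℕ) (F A : W → Finset ℕ) (Sp : Finset ℕ)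
      (Bk : Bool → Finset ℕ) (o : Finset W) (c0 : W → ℕ),
      LI2 G d (KK k) C (ρ' / 2) π κ θL sd pt Q P2 F →
      LB2 G Th d z (KK k) θL sd pt Q P2 F A Sp Bk o c0 →
      ∃ (c : W → ℕ) (t : W → W → ℕ), OWN2 G Th d MB A o c0 c ∧
        PEF G d (fun v => insert (c v) (F v)) t)
    (Dn : Finset (Fin M)) (c : V → ℕ)
    (hI : Inv2 Mx (bb2 ζ M Mx d k) G d P X t cP (Sp ∪ Ss) Dn c) (n : Fin M)
    (hn : P.ty n = Ty.B) (hnD : n ∉ Dn) :
    ∃ c', Inv2 Mx (bb2 ζ M Mx d k) G d P X t cP (Sp ∪ Ss) (insert n Dn) c' := by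
  have h1 := LI_of2 hc hD hL hA hX hR n (Or.inr hn) (Fn2 G X P t n) (fun v => Nat.le_succ _)
    (fun v b hb => Or.inl hb) (fun v => Subset.refl _) (fun b => by
      have : (0 : ℝ) ≤ Mx := Nat.cast_nonneg Mx
      linarith)
  have h2 := LB_of2 hc hD hL hA hX hS hR hSC hk2 hcs hH Dn c hI n hn
  obtain ⟨cn, τ, hO, hτ⟩ := hLB _ _ _ _ _ _ _ _ _ _ _ _ _ h1 h2
  obtain ⟨o1, o2, o3, o4, o5, o6⟩ := hO
  have hmo : ∀ v : Ts P n, v ∈ oT X P n ↔ v.1 ∈ X.VH := by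
    intro v
    simp [oT]
  refine inv_step2 Mx _ G d P X t cP (Sp ∪ Ss) Dn c n hI hnD cn ?_ ?_ ?_ o4
    (fun v w _ _ h => o5 v w h) (fun b => le_trans (o6 b) hMB) ⟨τ, hτ⟩
  · intro v
    refine ⟨o1 v, ?_⟩
    by_cases hv : v.1 ∈ X.VH
    · rw [o3 v ((hmo v).2 hv)]
      exact hR.cVH v.1 hv
    · intro hF
      exact o2 v (fun h => hv ((hmo v).1 h)) (Fc2_sub_Af2 _ G P X t _ _ Dn c v.1 hF)
  · intro v hv
    exact o2 v (fun h => hv ((hmo v).1 h))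
  · intro v hv
    exact o3 v ((hmo v).2 hv)

end inputs

end Pool.Agent.Work.MP_db9399_da.helper62
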