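import Pool.Agent.Work.MP_db9399_da_helper62.Bsm3

/-!
# MP_db9399, DENSE-ALL, phase 2: assembly, part 4 (owner helper62)

Pieces of type K.
-/

set_option autoImplicit false

namespace Pool.Agent.Work.MP_db9399_da.helper62

open Finset Classical
open Pool.Agent.Work.MP_db9399_all (nb)
open Pool.Agent.Work.MP_db9399_nc (nn)
open Pool.Agent.Work.MP_db9399_lt (us)

universe u

section inputs
variable {V : Type u} {M : ℕ} [Fintype V]

/-- the members of the piece `n` with prescribed own colour, as vertices of `G` -/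
noncomputable def oV (X : HD V) (P : Pcs V M) (n : Fin M) : Finset V :=
  X.VH.filter (fun v => v ∉ P.V0 ∧ P.pc v = n)

/-- names without the own colours of the members of `VH` in the piece -/
noncomputable def NK (X : HD V) (P : Pcs V M) (n : Fin M) (v : V) : Finset ℕ :=
  X.nm v \ (oV X P n).image X.c0

theorem NK_sub (X : HD V) (P : Pcs V M) (n : Fin M) (v : V) : NK X P n v ⊆ X.nm v :=
  sdiff_subset

theorem mem_oT (X : HD V) (P : Pcs V M) (n : Fin M) (v : Ts P n) :
    v ∈ oT X P n ↔ v.1 ∈ X.VH := by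
  simp [oT]

theorem mem_oV (X : HD V) (P : Pcs V M) (n : Fin M) (v : Ts P n) :
    v.1 ∈ oV X P n ↔ v.1 ∈ X.VH := by
  rw [oV, mem_filter]
  exact ⟨fun h => h.1, fun h => ⟨h, v.2⟩⟩

/-- the names outside `c0` of the members are at most the thin edges -/
theorem nm_le_thin {k : ℕ} {G : SimpleGraph V} {d : ℕ} {P : Pcs V M} {X : HD V}
    {t : V → V → ℕ} (hX : HP k d G X) (hS : SupP P X)
    (hinj : ∀ v, Set.InjOn (t v) (nb (thin2 G X P) v : Set V)) (n : Fin M) (v : Ts P n)
    (R : Finset ℕ) (hR : R ⊆ X.nm v.1) (hR2 : Disjoint R ((oV X P n).image X.c0)) :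
    R.card ≤ (Fn2 G X P t n v).card := by
  have h1 : R ⊆ X.nm v.1 \ (oV X P n).image X.c0 := by
    intro b hb
    rw [mem_sdiff]
    exact ⟨hR hb, disjoint_left.1 hR2 hb⟩
  have h2 := hX.nmF v.1 (oV X P n) (filter_subset _ _)
  have h3 : (nb G v.1 ∩ (X.VH ∪ X.S0)) \ oV X P n ⊆ nb (thin2 G X P) v.1 := by
    intro w hw
    rw [mem_sdiff, mem_inter, mem_nb, mem_union] at hw
    rw [mem_nb]
    refine ⟨hw.1.1, fun hb => ?_⟩
    rcases hw.1.2 with h | h
    · apply hw.2
      rw [oV, mem_filter]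
      refine ⟨h, hb.1.2.2.1, ?_⟩
      rw [← hb.1.2.2.2.1]
      exact v.2.2
    · exact hb.1.2.2.1 (hS w h).1
  unfold Fn2
  rw [card_Fc2 G X P t v.1 (hinj v.1)]
  exact le_trans (card_le_card h1) (le_trans h2 (card_le_card h3))

/-- blocked colours and members of `VH` in near-cliques -/
theorem near_facts {C g ρ ρ' π κ ε ζ θ θL θh : ℝ} {Mx k k2 : ℕ} {G : SimpleGraph V} {d : ℕ}
    {P : Pcs V M} {A : Pal} {X : HD V} {Ss : Finset ℕ} {t : V → V → ℕ} {cP : V → ℕ}
    {Sp : Finset ℕ}
    (hc : Con2 C g ρ ρ' π κ ε ζ θ θL θh M Mx d k k2)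
    (hD : DecP C g ρ ζ θ G d P) (hX : HP k d G X) (hS : SupP P X)
    (hR : PreP2 ε ζ k G d P A X Ss t cP Sp) (n : Fin M) (hn : P.ty n = Ty.K)
    (v0 : Ts P n) (hv0 : v0.1 ∈ X.VH) :
    (∀ v : Ts P n, v.1 ∈ X.VH → v = v0 ∨ X.H.Adj v0.1 v.1) ∧
    ∀ b, b ≠ X.c0 v0.1 → b ≠ X.p0 v0.1 →
      (d : ℝ) / 10 ≤ ((univ.filter (fun v : Ts P n => b ∉ X.nm v.1)).card : ℝ) := by
  obtain ⟨hd, hzd, h4z, hz1, hKt, hKk, hk1, ht1, hMz⟩ := con_fac hc
  have hk0 : (0 : ℝ) ≤ k := Nat.cast_nonneg k
  have hk20 : (0 : ℝ) ≤ k2 := Nat.cast_nonneg k2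
  have hz2 : ζ * d ≤ 1 / 10 ^ 30 * d := mul_le_mul_of_nonneg_right hz1 hd.le
  set W := (nb G v0.1).filter (fun w => w ∉ X.VH ∧ w ∉ X.S0 ∧
    X.nm w ⊆ {X.c0 v0.1, X.p0 v0.1} ∧ ∀ v' ∈ X.VH, G.Adj v' w → v' = v0.1 ∨ X.H.Adj v0.1 v')
    with hW
  have hWc : (d : ℝ) ≤ 5 * (W.card : ℝ) := by exact_mod_cast hX.real v0.1 hv0
  set WT := (univ : Finset (Ts P n)).filter (fun w => w.1 ∈ W) with hWT
  have h1 : W.card ≤ WT.card + (nb (thin2 G X P) v0.1).card := by
    have h2 : W ⊆ WT.image (fun v => v.1) ∪ nb (thin2 G X P) v0.1 := by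
      intro w hw
      have hwa : G.Adj v0.1 w := (mem_nb _ _ _).1 (mem_filter.1 hw).1
      by_cases hb : (bulk2 G X P).Adj v0.1 w
      · apply mem_union_left
        rw [mem_image]
        refine ⟨⟨w, hb.1.2.2.1, ?_⟩, ?_, rfl⟩
        · rw [← hb.1.2.2.2.1]
          exact v0.2.2
        · rw [hWT, mem_filter]
          exact ⟨mem_univ _, hw⟩
      · apply mem_union_right
        rw [mem_nb]
        exact ⟨hwa, hb⟩
    refine le_trans (card_le_card h2) (le_trans (card_union_le _ _) ?_)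
    exact Nat.add_le_add_right card_image_le _
  have h2 : (W.card : ℝ) ≤ WT.card + (nb (thin2 G X P) v0.1).card := by exact_mod_cast h1
  have h3 := thin2_real hD hX v0.1 v0.2.1
  norm_num at hz2 hk1
  have h4 : (d : ℝ) / 10 ≤ WT.card := by linarith
  constructor
  · intro v hv
    by_contra hne
    rw [not_or] at hne
    -- all vertices of `WT` are nonneighbours of `v`
    have h5 : WT ⊆ nn (bk2 G X P n) univ v ∪ {v} := by
      intro w hw
      rw [mem_union, mem_singleton]
      by_cases hwv : w = v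
      · exact Or.inr hwv
      · left
        simp only [nn, mem_filter, mem_univ, true_and]
        have h6 := (mem_filter.1 (mem_filter.1 hw).2).2.2.2.2
        refine ⟨hwv, fun hadj => ?_⟩
        have h7 := h6 v.1 hv hadj.1.1
        rcases h7 with h7 | h7
        · exact hne.1 (Subtype.ext h7)
        · exact hne.2 h7
    have h6 := card_le_card h5
    have h7 := card_union_le (nn (bk2 G X P n) univ v) {v}
    rw [card_singleton] at h7
    have h8 := nn_nb (bk2 G X P n) v
    have h9 := deg_bk2 hD hR.inj n v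
    have h10 := Fn2_card (t := t) hD hX n v
    have h11 : (WT.card : ℝ) + d ≤ Fintype.card (Ts P n) + 1 + (Fn2 G X P t n v).card := by
      exact_mod_cast (by omega :
        WT.card + d ≤ Fintype.card (Ts P n) + 1 + (Fn2 G X P t n v).card)
    have h12 := hD.kU n hn
    rw [hc.g1] at h12
    norm_num at h12
    linarith
  · intro b hb1 hb2
    refine le_trans h4 ?_
    have h5 : WT ⊆ univ.filter (fun v : Ts P n => b ∉ X.nm v.1) := by
      intro w hw
      rw [mem_filter]
      refine ⟨mem_univ _, fun hbw => ?_⟩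
      have h6 := (mem_filter.1 (mem_filter.1 hw).2).2.2.2.1 hbw
      rw [mem_insert, mem_singleton] at h6
      rcases h6 with h6 | h6
      · exact hb1 h6
      · exact hb2 h6
    exact_mod_cast card_le_card h5

theorem piece_conv2 (P : Pcs V M) (n : Fin M) (p : V → Prop) [DecidablePred p] :
    ((univ : Finset (Ts P n)).filter (fun v => p v.1)).card = ((pV P n).filter p).card := by
  apply card_bij (fun v _ => v.1)
  · intro v hv
    rw [mem_filter] at hv
    rw [mem_filter]
    refine ⟨?_, hv.2⟩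
    simp only [pV, mem_filter, mem_univ, true_and]
    exact v.2
  · intro v _ w _ h
    exact Subtype.ext h
  · intro v hv
    simp only [pV, mem_filter, mem_univ, true_and] at hv
    exact ⟨⟨v, hv.1⟩, by rw [mem_filter]; exact ⟨mem_univ _, hv.2⟩, rfl⟩

/-- The colours which are allowed at less than `z` vertices of a near-clique. -/
theorem blocked_facts {C g ρ ρ' π κ ε ζ θ θL θh : ℝ} {Mx k k2 : ℕ} {G : SimpleGraph V}
    {d : ℕ} {P : Pcs V M} {A : Pal} {X : HD V} {Ss : Finset ℕ} {t : V → V → ℕ} {cP : V → ℕ}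
    {Sp : Finset ℕ}
    (hc : Con2 C g ρ ρ' π κ ε ζ θ θL θh M Mx d k k2)
    (hD : DecP C g ρ ζ θ G d P) (hX : HP k d G X) (hS : SupP P X)
    (hR : PreP2 ε ζ k G d P A X Ss t cP Sp) (n : Fin M) (hn : P.ty n = Ty.K)
    (R : Finset ℕ) (hR1 : Disjoint R ((oV X P n).image X.c0))
    (hR2 : ∀ b ∈ R, ((univ.filter (fun v : Ts P n => b ∉ X.nm v.1)).card : ℝ) ≤ ζ * d / 7) :
    R.card ≤ 2 ∧ ((oT X P n).Nonempty → R.card ≤ 1) ∧
    ((univ.filter (fun v : Ts P n => (Fn2 G X P t n v).card < R.card)).card : ℝ) ≤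
      ζ * d * (2 / 7) := by
  obtain ⟨hd, hzd, h4z, hz1, hKt, hKk, hk1, ht1, hMz⟩ := con_fac hc
  have hk0 : (0 : ℝ) ≤ k := Nat.cast_nonneg k
  have hk20 : (0 : ℝ) ≤ k2 := Nat.cast_nonneg k2
  have hz2 : ζ * d ≤ 1 / 10 ^ 30 * d := mul_le_mul_of_nonneg_right hz1 hd.le
  norm_num at hz2 hk1
  have hmL : (1 - ζ) * d ≤ (Fintype.card (Ts P n) : ℝ) := hD.kL n hn
  have hun : ∀ R' ⊆ R, ((univ.filter (fun v : Ts P n => ¬ R' ⊆ X.nm v.1)).card : ℝ) ≤
      R'.card * (ζ * d / 7) := by
    intro R' hR'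
    have h1 : univ.filter (fun v : Ts P n => ¬ R' ⊆ X.nm v.1) ⊆
        R'.biUnion (fun b => univ.filter (fun v : Ts P n => b ∉ X.nm v.1)) := by
      intro v hv
      rw [mem_filter, not_subset] at hv
      obtain ⟨_, b, hb, hb2⟩ := hv
      rw [mem_biUnion]
      exact ⟨b, hb, by rw [mem_filter]; exact ⟨mem_univ _, hb2⟩⟩
    have h2 := le_trans (card_le_card h1) card_biUnion_le
    have h3 : ((∑ b ∈ R', (univ.filter (fun v : Ts P n => b ∉ X.nm v.1)).card : ℕ) : ℝ) ≤
        R'.card * (ζ * d / 7) := by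
      push_cast
      have := sum_le_card_nsmul R'
        (fun b => ((univ.filter (fun v : Ts P n => b ∉ X.nm v.1)).card : ℝ)) (ζ * d / 7)
        (fun b hb => hR2 b (hR' hb))
      simpa [nsmul_eq_mul] using this
    refine le_trans ?_ h3
    exact_mod_cast h2
  have hR3 : R.card ≤ 2 := by
    by_contra hlt
    obtain ⟨R', hR', hc3⟩ := exists_subset_card_eq (show 3 ≤ R.card by omega)
    have h1 := hun R' hR'
    rw [hc3] at h1
    have h2 : (univ : Finset (Ts P n)) ⊆ univ.filter (fun v : Ts P n => ¬ R' ⊆ X.nm v.1) ∪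
        univ.filter (fun v : Ts P n => 2 < (X.nm v.1).card) := by
      intro v _
      rw [mem_union, mem_filter, mem_filter]
      by_cases h : R' ⊆ X.nm v.1
      · right
        have := card_le_card h
        exact ⟨mem_univ _, by omega⟩
      · exact Or.inl ⟨mem_univ _, h⟩
    have h3 := le_trans (card_le_card h2) (card_union_le _ _)
    have h4 : (univ.filter (fun v : Ts P n => 2 < (X.nm v.1).card)).card ≤ k := by
      refine le_trans ?_ hX.nm2
      apply card_le_card_of_injOn (fun v => v.1)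
      · intro v hv
        rw [mem_coe, mem_filter] at hv ⊢
        exact ⟨mem_univ _, hv.2⟩
      · intro v _ w _ h
        exact Subtype.ext h
    rw [card_univ] at h3
    have h5 : (Fintype.card (Ts P n) : ℝ) ≤
        ((univ.filter (fun v : Ts P n => ¬ R' ⊆ X.nm v.1)).card : ℝ) + k := by
      exact_mod_cast le_trans h3 (Nat.add_le_add_left h4 _)
    push_cast at h1
    have h6 : (1 - ζ) * (d : ℝ) = d - ζ * d := by ring
    rw [h6] at hmL
    linarith
  refine ⟨hR3, ?_, ?_⟩
  · rintro ⟨v0, hv0⟩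
    rw [mem_oT] at hv0
    by_contra hlt
    obtain ⟨b, hb, hbp⟩ : ∃ b ∈ R, b ≠ X.p0 v0.1 := by
      by_contra hno
      push Not at hno
      have : R ⊆ {X.p0 v0.1} := by
        intro b hb
        rw [mem_singleton]
        exact hno b hb
      have := card_le_card this
      rw [card_singleton] at this
      omega
    have h1 := (near_facts hc hD hX hS hR n hn v0 hv0).2 b (by
      intro he
      apply disjoint_left.1 hR1 hb
      rw [he]
      exact mem_image_of_mem _ ((mem_oV X P n v0).2 hv0)) hbp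
    have h2 := hR2 b hb
    linarith
  · have h1 : univ.filter (fun v : Ts P n => (Fn2 G X P t n v).card < R.card) ⊆
        univ.filter (fun v : Ts P n => ¬ R ⊆ X.nm v.1) := by
      intro v hv
      rw [mem_filter] at hv ⊢
      refine ⟨mem_univ _, fun h => ?_⟩
      have := nm_le_thin hX hS hR.inj n v R h hR1
      omega
    have h2 : ((univ.filter (fun v : Ts P n => (Fn2 G X P t n v).card < R.card)).card : ℝ) ≤
        ((univ.filter (fun v : Ts P n => ¬ R ⊆ X.nm v.1)).card : ℝ) := by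
      exact_mod_cast card_le_card h1
    have h3 := hun R (Subset.refl _)
    have h4 : (R.card : ℝ) ≤ 2 := by exact_mod_cast hR3
    nlinarith

end inputs

end Pool.Agent.Work.MP_db9399_da.helper62
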