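import Pool.Agent.Work.MP_db9399_da_helper62.Bsm4

/-!
# MP_db9399, DENSE-ALL, phase 2: assembly, part 5 (owner helper62)

The input of LOCK2, pieces of type K.
-/

set_option autoImplicit false

namespace Pool.Agent.Work.MP_db9399_da.helper62

open Finset Classical
open Pool.Agent.Work.MP_db9399_all (nb)
open Pool.Agent.Work.MP_db9399_nc (nn)
open Pool.Agent.Work.MP_db9399_lt (us)

universe u

section inputs
variable {V : Type u} {M : ℕ} [Fintype V]

theorem LK_of2 {C g ρ ρ' π κ ε ζ θ θL θh : ℝ} {Mx k k2 : ℕ} {G : SimpleGraph V} {d : ℕ}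
    {P : Pcs V M} {A : Pal} {X : HD V} {Ss : Finset ℕ} {t : V → V → ℕ} {cP : V → ℕ}
    {Sp : Finset ℕ}
    (hc : Con2 C g ρ ρ' π κ ε ζ θ θL θh M Mx d k k2)
    (hD : DecP C g ρ ζ θ G d P) (hL : PartL ρ' ε G d P) (hA : PalP A d π κ)
    (hX : HP k d G X) (hS : SupP P X) (hR : PreP2 ε ζ k G d P A X Ss t cP Sp)
    (hSC : Ss ⊆ A.C0 d) (hk2 : Ss.card ≤ k2)
    (hcs : ∀ v ∈ X.VH, X.c0 v ∈ Ss)
    (hH : ∀ b, b < d + 2 → b ∉ Ss →
      ((univ.filter (fun v => b ∈ X.nm v)).card : ℝ) ≤ θh * d)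
    (Dn : Finset (Fin M)) (c : V → ℕ)
    (hI : Inv2 Mx (bb2 ζ M Mx d k) G d P X t cP (Sp ∪ Ss) Dn c) (n : Fin M)
    (hn : P.ty n = Ty.K) :
    ∃ (x y h s : ℕ) (C' : Fin 3 → Finset ℕ) (Z0 R : Finset ℕ),
      LK2 (bk2 G X P n) d x y h s ⌊ζ * d / 8⌋₊ (Fn2 G X P t n)
        (fun v => Af2 (bb2 ζ M Mx d k) G P X t (Sp ∪ Ss) (NK X P n) Dn c v.1)
        (thn P n) (sdn P n) C' (oT X P n) (oT X P n) (fun v => X.c0 v.1) Z0 R := by
  obtain ⟨hd, hzd, h4z, hz1, hKt, hKk, hk1, ht1, hMz⟩ := con_fac hc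
  obtain ⟨hb2, hbK, hbM⟩ := bb2_facts hc
  obtain ⟨hzf, hzf2, hz8⟩ := z_floor2 hc
  have hd0 : (0 : ℝ) ≤ d := hd.le
  have hM0 : (0 : ℝ) ≤ (M : ℝ) * Mx := by positivity
  have hk0 : (0 : ℝ) ≤ k := Nat.cast_nonneg k
  have hk20 : (0 : ℝ) ≤ k2 := Nat.cast_nonneg k2
  have hSSc := SS_card hD hR hk2
  have hd40 : (10 : ℝ) ^ 40 ≤ d := by exact_mod_cast hc.d0
  have hζ1 : ζ * d ≤ d / 10 ^ 30 := by
    have h1 : ζ * d ≤ 1 / 10 ^ 30 * d := mul_le_mul_of_nonneg_right hz1 hd0
    linarith only [h1]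
  have hεζ : ε * ζ * d ≤ ζ * d := by
    rw [mul_assoc]
    exact mul_le_of_le_one_left hzd.le (le_trans hc.e2 (by norm_num))
  have hk1' : (k : ℝ) + k2 + 1 ≤ ζ * d / 10 ^ 8 := by
    rw [le_div_iff₀ (by norm_num)]
    linarith only [hk1]
  have ht1' : θ * d ≤ ζ * d / 10 ^ 8 := by
    rw [le_div_iff₀ (by norm_num)]
    linarith only [ht1]
  have hoc : (oT X P n).card ≤ k := by
    refine le_trans ?_ hX.VHk
    apply card_le_card_of_injOn (fun v => v.1)
    · intro v hv
      rw [mem_coe, mem_oT] at hv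
      exact hv
    · intro v _ w _ h
      exact Subtype.ext h
  -- forbidden colours
  set AA : Ts P n → Finset ℕ :=
    fun v => Af2 (bb2 ζ M Mx d k) G P X t (Sp ∪ Ss) (NK X P n) Dn c v.1 with hAA
  -- blocked colours
  set R : Finset ℕ := (Ss \ (oV X P n).image X.c0).filter
    (fun b => (univ.filter (fun v : Ts P n => b ∉ AA v ∧ v ∉ oT X P n)).card <
      ⌊ζ * d / 8⌋₊) with hRd
  set Z0 : Finset ℕ := ((Sp ∪ Ss) \ (oV X P n).image X.c0) \ R with hZ0
  have hRS : ∀ b ∈ R, b ∈ Ss ∧ b ∉ (oV X P n).image X.c0 := fun b hb =>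
    mem_sdiff.1 (mem_filter.1 hb).1
  have hRdis : Disjoint R ((oV X P n).image X.c0) := by
    rw [disjoint_left]
    intro b hb
    exact (hRS b hb).2
  have hallow : ∀ b, (univ \ us AA b).card ≤
      (univ.filter (fun v : Ts P n => b ∉ AA v ∧ v ∉ oT X P n)).card + k := by
    intro b
    have h1 : univ \ us AA b ⊆
        univ.filter (fun v : Ts P n => b ∉ AA v ∧ v ∉ oT X P n) ∪ oT X P n := by
      intro v hv
      rw [mem_sdiff, mem_us] at hv
      rw [mem_union, mem_filter]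
      by_cases h : v ∈ oT X P n
      · exact Or.inr h
      · exact Or.inl ⟨mem_univ _, hv.2, h⟩
    exact le_trans (card_le_card h1) (le_trans (card_union_le _ _) (Nat.add_le_add_left hoc _))
  have hsp : ∀ b ∈ Sp ∪ Ss, (((univ : Finset (Ts P n)).filter (fun v => b ∉ NK X P n v.1 ∧
      ∀ w ∈ P.V0, w ∉ X.VH → cP w = b → ¬ G.Adj v.1 w)).card : ℝ) - ζ * d / 300 ≤
      ((univ \ us AA b).card : ℝ) := by
    intro b hb
    exact special2 hc hD hX hR (NK X P n) Dn c hI n b hb univ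
  have hR2 : ∀ b ∈ R, ((univ.filter (fun v : Ts P n => b ∉ X.nm v.1)).card : ℝ) ≤
      ζ * d / 7 := by
    intro b hb
    have h1 := hRS b hb
    have h2 := (mem_filter.1 hb).2
    have h3 := hsp b (mem_union_right _ h1.1)
    rw [Ss_filter hR (NK X P n) n b h1.1] at h3
    have h4 : (univ.filter (fun v : Ts P n => b ∉ X.nm v.1)) ⊆
        (univ : Finset (Ts P n)).filter (fun v => b ∉ NK X P n v.1) := by
      intro v hv
      rw [mem_filter] at hv ⊢
      exact ⟨mem_univ _, fun h => hv.2 (NK_sub X P n v.1 h)⟩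
    have h5 : ((univ.filter (fun v : Ts P n => b ∉ X.nm v.1)).card : ℝ) ≤
        (((univ : Finset (Ts P n)).filter (fun v => b ∉ NK X P n v.1)).card : ℝ) := by
      exact_mod_cast card_le_card h4
    have h6 : ((univ \ us AA b).card : ℝ) ≤
        (univ.filter (fun v : Ts P n => b ∉ AA v ∧ v ∉ oT X P n)).card + k := by
      exact_mod_cast hallow b
    have h7 : ((univ.filter (fun v : Ts P n => b ∉ AA v ∧ v ∉ oT X P n)).card : ℝ) ≤
        (⌊ζ * d / 8⌋₊ : ℝ) := by exact_mod_cast h2.le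
    linarith only [h3, h5, h6, h7, hzf2, hk1', hk20, hk0, hzd]
  obtain ⟨hRc, hRo, hRF⟩ := blocked_facts hc hD hX hS hR n hn R hRdis hR2
  -- sizes
  set m := Fintype.card (Ts P n) with hm
  have hmU : (m : ℝ) ≤ (1 + 1 / 10 ^ 28) * d := by
    have := hD.kU n hn
    rwa [hc.g1] at this
  have hmL : (1 - ζ) * d ≤ (m : ℝ) := hD.kL n hn
  set x : ℕ := d / 10 ^ 27 with hx
  set h : ℕ := 5 * d / 10 ^ 13 with hh
  have hx1 : (d : ℝ) / 10 ^ 27 - 1 ≤ x := by
    have h1 : d < 10 ^ 27 * (x + 1) := by omega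
    have h2 : (d : ℝ) < 10 ^ 27 * ((x : ℝ) + 1) := by exact_mod_cast h1
    rw [sub_le_iff_le_add, div_le_iff₀ (by positivity)]
    linarith only [h2]
  have hx2 : 10 ^ 27 * x ≤ d := by omega
  have hh1 : 5 * (d : ℝ) / 10 ^ 13 - 1 ≤ h := by
    have h1 : 5 * d < 10 ^ 13 * (h + 1) := by omega
    have h2 : 5 * (d : ℝ) < 10 ^ 13 * ((h : ℝ) + 1) := by exact_mod_cast h1
    rw [sub_le_iff_le_add, div_le_iff₀ (by positivity)]
    linarith only [h2]
  have hh2 : 10 ^ 13 * h ≤ 5 * d := by omega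
  have hh3 : 10 ^ 13 * (h : ℝ) ≤ 5 * d := by exact_mod_cast hh2
  set s : ℕ := (univ : Finset (Fin 3 × Bool)).sup
    (fun q => (MP_db9399_lt.cell (thn P n) (sdn P n) q.1 q.2).card) with hs
  have hεd : ε * d ≤ d / 10 ^ 30 := by
    have := hc.e2
    have h1 : ε * d ≤ 1 / 10 ^ 30 * d := mul_le_mul_of_nonneg_right this hd0
    linarith only [h1]
  have hcell : ∀ i l, ((MP_db9399_lt.cell (thn P n) (sdn P n) i l).card : ℝ) ≤
      m / 6 + d / 10 ^ 30 ∧
      (m : ℝ) / 6 - d / 10 ^ 30 ≤ (MP_db9399_lt.cell (thn P n) (sdn P n) i l).card := by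
    intro i l
    have h1 := abs_le.1 (hL.kC n hn i l)
    constructor
    · linarith only [h1.2, hεd]
    · linarith only [h1.1, hεd]
  have hs1 : ∀ i l, (MP_db9399_lt.cell (thn P n) (sdn P n) i l).card ≤ s := by
    intro i l
    exact le_sup (f := fun q : Fin 3 × Bool =>
      (MP_db9399_lt.cell (thn P n) (sdn P n) q.1 q.2).card) (mem_univ (i, l))
  have hs2 : (s : ℝ) ≤ m / 6 + d / 10 ^ 30 := by
    obtain ⟨q, _, hq⟩ := exists_mem_eq_sup (univ : Finset (Fin 3 × Bool)) univ_nonempty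
      (fun q => (MP_db9399_lt.cell (thn P n) (sdn P n) q.1 q.2).card)
    rw [hs, hq]
    exact (hcell q.1 q.2).1
  have hs3 : (m : ℝ) / 6 - d / 10 ^ 30 ≤ s := by
    have h1 : ((MP_db9399_lt.cell (thn P n) (sdn P n) 0 false).card : ℝ) ≤ s := by
      exact_mod_cast hs1 0 false
    linarith only [(hcell 0 false).2, h1]
  have hhs : h ≤ 2 * s := by
    have h1 : (h : ℝ) ≤ 2 * s := by
      have : (1 - ζ) * (d : ℝ) = d - ζ * d := by ring
      rw [this] at hmL
      linarith only [hmL, hs3, hh3, hζ1, hd]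
    exact_mod_cast h1
  have hCc : ∀ j, 2 * s - h ≤ (A.C j).card := by
    intro j
    have h1 := (abs_le.1 (hA.Cc j)).1
    have h2 : (2 * (s : ℝ)) ≤ (A.C j).card + h := by
      linarith only [h1, hs2, hmU, hh1, hd40]
    have h3 : 2 * s ≤ (A.C j).card + h := by exact_mod_cast h2
    omega
  have hex : ∀ j, ∃ D ⊆ A.C j, D.card = 2 * s - h := fun j =>
    exists_subset_card_eq (hCc j)
  choose C' hC1 hC2 using hex
  have hAf : ∀ v : Ts P n, (AA v).card + 1 ≤ x := by
    intro v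
    have h1 := Af2_real (bb2 ζ M Mx d k) hc hD hX hR hk2 (NK X P n) (NK_sub X P n) Dn c v.1
      v.2.1
    have h2 : ((AA v).card : ℝ) + 1 ≤ x := by
      have h3 : ((AA v).card : ℝ) ≤ 3 * (ζ * d) := h1
      linarith only [h3, hζ1, hx1, hd40]
    exact_mod_cast h2
  have hFx : ∀ v : Ts P n, (Fn2 G X P t n v).card + 1 ≤ x := by
    intro v
    have h1 := Fn2_card (t := t) hD hX n v
    have h2 : ((Fn2 G X P t n v).card : ℝ) + 1 ≤ x := by
      linarith only [h1, hζ1, hx1, hd40]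
    exact_mod_cast h2
  have hZ0c : (Z0.card : ℝ) ≤ θ * d + k2 := by
    refine le_trans ?_ hSSc
    have : Z0 ⊆ Sp ∪ Ss := sdiff_subset.trans sdiff_subset
    exact_mod_cast card_le_card this
  have hzmu : ζ / 4 * d = ζ * d / 4 := by ring
  refine ⟨x, x, h, s, C', Z0, R,
    { x1 := ?_, xd := hx2, yh := ?_, hd := ?_, dh := ?_, Zx := ?_, deg := deg_bk2 hD hR.inj n,
      inn := ?_, FA := ?_, Ax := fun v _ => hAf v, Fo := fun v _ => hFx v, Flt := ?_,
      load := ?_, oZ := Subset.refl _, o2 := ?_, oc := ?_, oi := ?_, oR := hRo, gA := ?_,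
      Ze := ?_, ZC := ?_, Zz := ?_, Zc := ?_, zV := ?_, R2 := hRc, Rlt := ?_, Rc0 := ?_,
      RF := ?_, Rp := ?_, cs := ?_, Clt := ?_, Cdis := ?_, Ccard := ?_, CF := ?_ }⟩
  · have h1 : (1 : ℝ) ≤ x := by linarith only [hx1, hd40]
    exact_mod_cast h1
  · have h1 : (100 * ((x : ℝ) + 4 * x)) ≤ h := by
      have h2 : 10 ^ 27 * (x : ℝ) ≤ d := by exact_mod_cast hx2
      linarith only [h2, hh1, hd40]
    exact_mod_cast h1
  · have h1 : 10 ^ 12 * (h : ℝ) ≤ d := by
      linarith only [hh3, hd]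
    exact_mod_cast h1
  · have h1 : (d : ℝ) ≤ 10 ^ 13 * h := by
      linarith only [hh1, hd40]
    exact_mod_cast h1
  · have h1 : (k : ℝ) ≤ x := by linarith only [hk1', hk20, hζ1, hx1, hd40]
    have h2 : k ≤ x := by exact_mod_cast h1
    exact le_trans hoc h2
  · intro v
    have h1 := nn_nb (bk2 G X P n) v
    have h2 := deg_bk2 hD hR.inj n v
    have h3 := Fn2_card (t := t) hD hX n v
    have h4 : ((nn (bk2 G X P n) univ v).card : ℝ) + (nb (bk2 G X P n) v).card ≤ m := by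
      exact_mod_cast h1
    have h5 : ((nb (bk2 G X P n) v).card : ℝ) + (Fn2 G X P t n v).card = d := by
      exact_mod_cast h2
    have h6 : ((nn (bk2 G X P n) univ v).card : ℝ) ≤ x := by
      have h7 : (1 + 1 / 10 ^ 28) * (d : ℝ) = d + d / 10 ^ 28 := by ring
      rw [h7] at hmU
      linarith only [hmU, h3, h4, h5, hζ1, hx1, hd40]
    exact_mod_cast h6
  · intro v _ b hb
    exact Fc2_sub_Af2 _ G P X t _ _ Dn c v.1 hb
  · intro v b hb
    exact mem_Fc2_lt hR.lt v.1 b hb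
  · intro b
    have h1 := hR.load n b
    have h3 : ((us (Fn2 G X P t n) b).card : ℝ) + 3 ≤ x := by
      linarith only [h1, hεζ, hζ1, hx1, hd40]
    exact_mod_cast h3
  · -- at most two members of VH
    rcases (oT X P n).eq_empty_or_nonempty with h0 | ⟨v0, hv0⟩
    · rw [h0]
      simp
    · rw [mem_oT] at hv0
      have h1 := (near_facts hc hD hX hS hR n hn v0 hv0).1
      by_cases hw : ∃ w : Ts P n, w.1 ∈ X.VH ∧ X.H.Adj v0.1 w.1
      · obtain ⟨w, hw1, hw2⟩ := hw
        have h2 : oT X P n ⊆ {v0, w} := by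
          intro v hv
          rw [mem_oT] at hv
          rw [mem_insert, mem_singleton]
          rcases h1 v hv with h3 | h3
          · exact Or.inl h3
          · exact Or.inr (Subtype.ext (hX.Hm v0.1 v.1 w.1 h3 hw2))
        exact le_trans (card_le_card h2) card_le_two
      · have h2 : oT X P n ⊆ {v0} := by
          intro v hv
          rw [mem_oT] at hv
          rw [mem_singleton]
          rcases h1 v hv with h3 | h3
          · exact h3
          · exact absurd ⟨v, hv, h3⟩ hw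
        have h3 := card_le_card h2
        rw [card_singleton] at h3
        omega
  · intro v hv
    rw [mem_oT] at hv
    exact ⟨hX.c0l v.1 hv, hR.cVH v.1 hv⟩
  · intro v hv w hw he
    rw [mem_coe, mem_oT] at hv hw
    by_contra hne
    rcases (near_facts hc hD hX hS hR n hn v hv).1 w hw with h1 | h1
    · exact hne h1.symm
    · exact (hX.cc v.1 hv w.1 hw h1).1 he
  · intro b hbd hbZ hbR
    have hsub : (us AA b \ oT X P n).card ≤ (us AA b).card := card_le_card sdiff_subset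
    have hsub' : ((us AA b \ oT X P n).card : ℝ) ≤ ((us AA b).card : ℝ) := by
      exact_mod_cast hsub
    by_cases hbS : b ∈ Sp ∪ Ss
    · -- `b` is an own colour of a member
      have hbi : b ∈ (oV X P n).image X.c0 := by
        by_contra hbi
        apply hbZ
        rw [hZ0, mem_sdiff, mem_sdiff]
        exact ⟨⟨hbS, hbi⟩, hbR⟩
      have hbSs : b ∈ Ss := by
        rw [mem_image] at hbi
        obtain ⟨v, hv, rfl⟩ := hbi
        exact hcs v (mem_filter.1 hv).1
      have h1 := hsp b hbS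
      rw [Ss_filter hR (NK X P n) n b hbSs] at h1
      have h2 : (univ : Finset (Ts P n)).filter (fun v => b ∉ NK X P n v.1) = univ := by
        apply filter_true_of_mem
        intro v _ hv
        exact (mem_sdiff.1 hv).2 hbi
      rw [h2] at h1
      have h3 : (us AA b).card + (univ \ us AA b).card = (univ : Finset (Ts P n)).card := by
        have := card_sdiff_add_card_eq_card (subset_univ (us AA b))
        omega
      have h4 : ((us AA b).card : ℝ) + (univ \ us AA b).card =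
          ((univ : Finset (Ts P n)).card : ℝ) := by exact_mod_cast h3
      have h5 : ((us AA b \ oT X P n).card : ℝ) ≤ x := by
        linarith only [hsub', h1, h4, hζ1, hx1, hd40]
      have h6 : (us AA b \ oT X P n).card ≤ x := by exact_mod_cast h5
      exact dec_irrel (p := fun (_ : DecidableEq (Ts P n)) =>
      (us AA b \ oT X P n).card ≤ x) h6
    · rw [mem_union, not_or] at hbS
      have hy : ((univ.filter (fun v => b ∈ NK X P n v)).card : ℝ) ≤ θh * d := by
        refine le_trans ?_ (hH b hbd hbS.2)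
        have : univ.filter (fun v => b ∈ NK X P n v) ⊆ univ.filter (fun v => b ∈ X.nm v) := by
          intro v hv
          rw [mem_filter] at hv ⊢
          exact ⟨mem_univ _, NK_sub X P n v hv.2⟩
        exact_mod_cast card_le_card this
      have h1 := us_Af_generic2 Mx (bb2 ζ M Mx d k) (ε * ζ * d) (ζ * d + 1) (θh * d) G d P X t
        cP (Sp ∪ Ss) (NK X P n) Dn c hI (fun z hz hzV => by
          rw [mem_union, hR.own]
          exact Or.inl (mem_image_of_mem _ (mem_sdiff.2 ⟨hz, hzV⟩))) hR.load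
        (thin2_real hD hX) (by linarith) n b (by rw [mem_union, not_or]; exact hbS) hy
      have h1' : ((us AA b).card : ℝ) ≤
          ε * ζ * d + θh * d + M * Mx * (ζ * d + 1) := h1
      have h3 : (M : ℝ) * Mx * (ζ * d + 1) ≤ 2 * (d / 10 ^ 30) := by
        have h4 := hc.z2
        have h5 : (M : ℝ) * Mx * ζ ≤ 1 / 10 ^ 30 := by linarith only [h4, hc.z0]
        have h6 : (M : ℝ) * Mx * ζ * d ≤ 1 / 10 ^ 30 * d := mul_le_mul_of_nonneg_right h5 hd0
        have h7 : (M : ℝ) * Mx ≤ (M : ℝ) * Mx * (ζ * d) := by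
          exact le_mul_of_one_le_right hM0 (le_trans (by norm_num) hz8)
        linarith only [h6, h7]
      have h4 : θh * d ≤ d / 10 ^ 29 := by
        have h5 : θh * d ≤ 1 / 10 ^ 29 * d := mul_le_mul_of_nonneg_right hc.h2 hd0
        linarith only [h5]
      have h5 : ((us AA b \ oT X P n).card : ℝ) ≤ x := by
        linarith only [hsub', h1', hεζ, h3, h4, hζ1, hx1, hd40]
      have h6 : (us AA b \ oT X P n).card ≤ x := by exact_mod_cast h5
      exact dec_irrel (p := fun (_ : DecidableEq (Ts P n)) =>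
      (us AA b \ oT X P n).card ≤ x) h6
  · intro b hb
    rw [hZ0, mem_sdiff, mem_sdiff] at hb
    obtain ⟨⟨hbS, hbi⟩, hbR⟩ := hb
    refine dec_irrel (p := fun (_ : DecidableEq (Ts P n)) =>
      ⌊ζ * d / 8⌋₊ ≤ (univ.filter (fun v : Ts P n => b ∉ AA v ∧ v ∉ oT X P n)).card)
      (i1 := fun a b => Subtype.instDecidableEq a b) ?_
    by_cases hbSs : b ∈ Ss
    · by_contra hlt
      apply hbR
      rw [hRd, mem_filter, mem_sdiff]
      exact ⟨⟨hbSs, hbi⟩, not_le.1 hlt⟩
    · have hb' : b ∈ Sp := by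
        rw [mem_union] at hbS
        exact hbS.resolve_right hbSs
      rw [hR.own, mem_image] at hb'
      obtain ⟨z, hz, rfl⟩ := hb'
      rw [mem_sdiff] at hz
      have h1 := hD.hubK n hn z hz.1
      rw [← piece_conv] at h1
      have h2 := own_filter hD hR (NK X P n) (NK_sub X P n) n z hz.1 hz.2 univ h1
      have h3 := hsp (cP z) hbS
      have h4 : ((univ \ us AA (cP z)).card : ℝ) ≤
          (univ.filter (fun v : Ts P n => cP z ∉ AA v ∧ v ∉ oT X P n)).card + k := by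
        exact_mod_cast hallow (cP z)
      apply Nat.floor_le_of_le
      linarith only [h2, h3, h4, hk1', hk20, hzd]
  · intro i
    have h1 : Z0 ⊆ A.C0 d := by
      refine Subset.trans ?_ (union_subset hR.SC hSC)
      exact sdiff_subset.trans sdiff_subset
    exact disjoint_of_subset_left h1 (disjoint_of_subset_right (hC1 i) (Pal_C0_dis i))
  · have h1 : (8 : ℝ) * Z0.card + 20 ≤ (⌊ζ * d / 8⌋₊ : ℝ) := by
      linarith only [hz8, hZ0c, ht1', hk1', hk0, hzf]
    exact_mod_cast h1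
  · have h1 : (Z0.card : ℝ) ≤ x := by
      linarith only [hZ0c, ht1', hk1', hk0, hζ1, hx1, hd40]
    exact_mod_cast h1
  · have h1 : (10 : ℝ) * (⌊ζ * d / 8⌋₊ : ℝ) ≤ d := by
      linarith only [hzf2, hζ1, hd]
    exact_mod_cast h1
  · intro b hb
    have h1 := hSC (hRS b hb).1
    have h2 := (mem_sdiff.1 h1).1
    rwa [mem_range] at h2
  · intro v hv hvR
    rw [mem_oT] at hv
    exact (hRS _ hvR).2 (mem_image_of_mem _ ((mem_oV X P n v).2 hv))
  · have h1 : ((univ.filter (fun v : Ts P n => (Fn2 G X P t n v).card < R.card)).card : ℝ) ≤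
        4 * (⌊ζ * d / 8⌋₊ : ℝ) := by linarith only [hRF, hzf]
    exact_mod_cast h1
  · -- parity
    by_cases hR1 : R.card ≤ 1
    · exact Or.inl hR1
    right
    by_cases hcomp : ∃ v w : Ts P n, v ≠ w ∧ ¬ (bk2 G X P n).Adj v w
    · exact Or.inl hcomp
    right
    have ho : oT X P n = ∅ := by
      by_contra h0
      exact hR1 (hRo (nonempty_iff_ne_empty.2 h0))
    have hcomp' : ∀ v w : Ts P n, v ≠ w → (bk2 G X P n).Adj v w := by
      intro v w hvw
      by_contra h0
      exact hcomp ⟨v, w, hvw, h0⟩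
    have h2 : 2 ≤ (Ss.filter (fun b =>
        (((pV P n).filter (fun v => b ∉ X.nm v)).card : ℝ) < ζ / 4 * d)).card := by
      have h3 : R ⊆ Ss.filter (fun b =>
          (((pV P n).filter (fun v => b ∉ X.nm v)).card : ℝ) < ζ / 4 * d) := by
        intro b hb
        rw [mem_filter]
        refine ⟨(hRS b hb).1, ?_⟩
        have h4 := hR2 b hb
        have h5 : ((univ : Finset (Ts P n)).filter (fun v => b ∉ X.nm v.1)).card =
            ((pV P n).filter (fun v => b ∉ X.nm v)).card := by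
          have := piece_conv2 P n (fun v => b ∉ X.nm v)
          exact this
        rw [← h5, hzmu]
        linarith only [h4, hzd]
      exact le_trans (by omega) (card_le_card h3)
    rcases hR.kp n hn hcomp' ho h2 with ⟨b, hb1, hb2, hb3⟩ | hev
    · right
      exact ⟨b, hb1, fun h => hb2 (hRS b h).1, hb3⟩
    · left
      obtain ⟨b, hb⟩ : R.Nonempty := by
        rw [nonempty_iff_ne_empty]
        intro h0
        rw [h0] at hR1
        simp at hR1
      exact ⟨b, hb, hev b (hRS b hb).1⟩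
  · intro i l
    refine ⟨hs1 i l, ?_⟩
    have h1 := (hcell i l).2
    have h2 : (s : ℝ) ≤ (MP_db9399_lt.cell (thn P n) (sdn P n) i l).card + x := by
      linarith only [h1, hs2, hx1, hd40]
    exact_mod_cast h2
  · intro i b hb
    have := hA.Clt i (hC1 i hb)
    rwa [mem_range] at this
  · intro i j hij
    exact disjoint_of_subset_left (hC1 i) (disjoint_of_subset_right (hC1 j) (hA.Cdis i j hij))
  · intro i
    rw [hC2 i]
    omega
  · intro v _
    exact disjoint_of_subset_right (hC1 _) (hR.rK v.1 v.2.1 (by rw [v.2.2]; exact hn))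

/-- one more piece of type K -/
theorem step_K2 {C g ρ ρ' π κ ε ζ θ θL θh : ℝ} {Mx k k2 : ℕ} {G : SimpleGraph V} {d : ℕ}
    {P : Pcs V M} {A : Pal} {X : HD V} {Ss : Finset ℕ} {t : V → V → ℕ} {cP : V → ℕ}
    {Sp : Finset ℕ}
    (hc : Con2 C g ρ ρ' π κ ε ζ θ θL θh M Mx d k k2)
    (hD : DecP C g ρ ζ θ G d P) (hL : PartL ρ' ε G d P) (hA : PalP A d π κ)
    (hX : HP k d G X) (hS : SupP P X) (hR : PreP2 ε ζ k G d P A X Ss t cP Sp)
    (hSC : Ss ⊆ A.C0 d) (hk2 : Ss.card ≤ k2)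
    (hcs : ∀ v ∈ X.VH, X.c0 v ∈ Ss)
    (hH : ∀ b, b < d + 2 → b ∉ Ss →
      ((univ.filter (fun v => b ∈ X.nm v)).card : ℝ) ≤ θh * d)
    (h2 : 2 ≤ Mx) (hLK : Stmt_LOCK2.{u})
    (Dn : Finset (Fin M)) (c : V → ℕ)
    (hI : Inv2 Mx (bb2 ζ M Mx d k) G d P X t cP (Sp ∪ Ss) Dn c) (n : Fin M)
    (hn : P.ty n = Ty.K) (hnD : n ∉ Dn) :
    ∃ c', Inv2 Mx (bb2 ζ M Mx d k) G d P X t cP (Sp ∪ Ss) (insert n Dn) c' := by
  obtain ⟨x, y, h, s, C', Z0, R, hK⟩ := LK_of2 hc hD hL hA hX hS hR hSC hk2 hcs hH Dn c hI n hn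
  obtain ⟨cn, τ, h1, h3, h4, h5, h6, h7, h8⟩ := hLK _ _ _ _ _ _ _ _ _ _ _ _ _ _ _ _ _ hK
  refine inv_step2 Mx _ G d P X t cP (Sp ∪ Ss) Dn c n hI hnD cn ?_ ?_ ?_ h5 ?_
    (fun b => le_trans (h7 b) h2) ⟨τ, h8⟩
  · intro v
    refine ⟨h1 v, ?_⟩
    by_cases hv : v.1 ∈ X.VH
    · rw [h4 v ((mem_oT X P n v).2 hv)]
      exact hR.cVH v.1 hv
    · intro hF
      exact h3 v (fun h => hv ((mem_oT X P n v).1 h)) (Fc2_sub_Af2 _ G P X t _ _ Dn c v.1 hF)
  · intro v hv hF
    have ha := h3 v (fun h => hv ((mem_oT X P n v).1 h))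
    apply ha
    simp only [Af2, mem_union] at hF ⊢
    rcases hF with ((hF | hF) | hF) | hF
    · exact Or.inl (Or.inl (Or.inl hF))
    · left
      left
      right
      rw [NK, mem_sdiff]
      refine ⟨hF, fun hi => ?_⟩
      rw [mem_image] at hi
      obtain ⟨u, hu, he⟩ := hi
      rw [oV, mem_filter] at hu
      have hu' : (⟨u, hu.2⟩ : Ts P n) ∈ oT X P n := (mem_oT X P n _).2 hu.1
      have hne : v ≠ (⟨u, hu.2⟩ : Ts P n) := by
        intro hvu
        apply hv
        rw [hvu]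
        exact hu.1
      apply h6 _ hu' v hne
      rw [h4 _ hu']
      exact he.symm
    · exact Or.inl (Or.inr hF)
    · exact Or.inr hF
  · intro v hv
    exact h4 v ((mem_oT X P n v).2 hv)
  · intro v w hvV hwV hvw
    exfalso
    apply hvw.2
    refine ⟨⟨hvw.1, v.2.1, w.2.1, ?_, ?_⟩, ?_⟩
    · rw [v.2.2, w.2.2]
    · intro h
      rw [v.2.2, hn] at h
      cases h
    · intro hH'
      rcases hX.HH v.1 w.1 hH' with h | h
      · exact hvV h
      · exact hwV h

end inputs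

end Pool.Agent.Work.MP_db9399_da.helper62
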