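import Pool.Agent.Work.MP_db9399_da_helper62.Bsm5

/-!
# MP_db9399, DENSE-ALL, phase 2: assembly, part 6 (owner helper62)

The start (pieces of type N), all pieces, palettes.
-/

set_option autoImplicit false

namespace Pool.Agent.Work.MP_db9399_da.helper62

open Finset Classical
open Pool.Agent.Work.MP_db9399_all (nb)
open Pool.Agent.Work.MP_db9399_nc (nn)
open Pool.Agent.Work.MP_db9399_lt (us)

universe u

theorem Con2.mono {C g ρ ρ' π κ ε ζ θ θL θL' θh : ℝ} {M Mx d k k2 : ℕ}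
    (hc : Con2 C g ρ ρ' π κ ε ζ θ θL θh M Mx d k k2) (h : θL ≤ θL') :
    Con2 C g ρ ρ' π κ ε ζ θ θL' θh M Mx d k k2 := by
  have hd0 : (0 : ℝ) ≤ d := Nat.cast_nonneg d
  have h1 : θL / 8 * d ≤ θL' / 8 * d := mul_le_mul_of_nonneg_right (by linarith) hd0
  exact { hc with
    e1 := by linarith [hc.e1]
    h1 := by linarith [hc.h1]
    z1 := by linarith [hc.z1]
    t2 := by linarith [hc.t2]
    d2 := by linarith [hc.d2] }

section start
variable {V : Type u} {M : ℕ} [Fintype V]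

/-- the start: exceptional vertices and pieces of type N -/
theorem start_N2 {C g ρ ρ' π κ ε ζ θ θL θh : ℝ} {Mx s1 k k2 : ℕ} {G : SimpleGraph V} {d : ℕ}
    {P : Pcs V M} {A : Pal} {X : HD V} {Ss : Finset ℕ} {t : V → V → ℕ} {cP : V → ℕ}
    {Sp : Finset ℕ}
    (hc : Con2 C g ρ ρ' π κ ε ζ θ θL θh M Mx d k k2)
    (hD : DecP C g ρ ζ θ G d P) (hL : PartL ρ' ε G d P) (hA : PalP A d π κ)
    (hX : HP k d G X) (hR : PreP2 ε ζ k G d P A X Ss t cP Sp)
    (hSC : Ss ⊆ A.C0 d) (hcs : ∀ v ∈ X.VH, X.c0 v ∈ Ss) (hs1 : s1 + k ≤ Mx)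
    (hLN : ∀ {W : Type u} [Fintype W] (G : SimpleGraph W) (sd pt : W → Bool)
      (Q : Bool → Finset ℕ) (P2 : Finset ℕ) (F : W → Finset ℕ),
      LI2 G d (KK k) C (ρ' / 2) π κ θL sd pt Q P2 F → LN G d (g / 2) (ρ' / 2) θL sd pt F →
      ∃ t : W → W → ℕ, PEF G d F t)
    (cN : V → ℕ)
    (h1 : ∀ v, v ∉ P.V0 → P.ty (P.pc v) = Ty.N → cN v ∈ P1 d A.Q A.P2 \ (Sp ∪ Ss) ∧
      cN v ∉ Fc2 G X P t v ∧ cN v ∉ X.nm v)
    (h2 : ∀ v w, v ∉ P.V0 → P.ty (P.pc v) = Ty.N → w ∉ P.V0 → P.ty (P.pc w) = Ty.N →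
      G.Adj v w → cN v ≠ cN w)
    (h3 : ∀ b, (univ.filter (fun v => v ∉ P.V0 ∧ P.ty (P.pc v) = Ty.N ∧ cN v = b)).card ≤ s1) :
    ∃ c, Inv2 Mx (bb2 ζ M Mx d k) G d P X t cP (Sp ∪ Ss)
      (univ.filter (fun n => P.ty n = Ty.N ∨ P.ty n = Ty.E)) c := by
  set c : V → ℕ := fun v => if v ∈ X.VH then X.c0 v else if v ∈ P.V0 then cP v else cN v
    with hcd
  have e0 : ∀ v, v ∈ X.VH → c v = X.c0 v := fun v hv => by simp only [hcd, hv, if_true]
  have e1 : ∀ v, v ∉ X.VH → v ∈ P.V0 → c v = cP v := fun v hv hv0 => by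
    simp only [hcd, hv, hv0, if_true, if_false]
  have e2 : ∀ v, v ∉ X.VH → v ∉ P.V0 → c v = cN v := fun v hv hv0 => by
    simp only [hcd, hv, hv0, if_false]
  have hDV : ∀ v ∈ DV P (univ.filter (fun n => P.ty n = Ty.N ∨ P.ty n = Ty.E)),
      v ∈ P.V0 ∨ (v ∉ P.V0 ∧ P.ty (P.pc v) = Ty.N) := by
    intro v hv
    simp only [DV, mem_filter, mem_univ, true_and] at hv
    by_cases h : v ∈ P.V0
    · exact Or.inl h
    · right
      refine ⟨h, ?_⟩
      rcases hv with hv | hv | hv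
      · exact absurd hv h
      · exact hv
      · exact ((hD.emp _ hv).false ⟨v, h, rfl⟩).elim
  have hSp : ∀ z ∈ P.V0, z ∉ X.VH → cP z ∈ Sp := fun z hz hzV => by
    rw [hR.own]
    exact mem_image_of_mem _ (mem_sdiff.2 ⟨hz, hzV⟩)
  have hlt : ∀ b ∈ P1 d A.Q A.P2, b < d + 2 := by
    intro b hb
    have := (mem_sdiff.1 hb).1
    rwa [mem_range] at this
  refine ⟨c, ?_, ?_, ?_, ?_, e0, fun v hv0 hv => e1 v hv hv0, ?_, ?_, ?_⟩
  · intro v hv
    by_cases hV : v ∈ X.VH
    · rw [e0 v hV]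
      exact hX.c0l v hV
    · rcases hDV v hv with h | ⟨h, h'⟩
      · rw [e1 v hV h]
        exact hlt _ (Pal_C0_sub hA (hR.SC (hSp v h hV)))
      · rw [e2 v hV h]
        exact hlt _ (mem_sdiff.1 (h1 v h h').1).1
  · intro v hv
    by_cases hV : v ∈ X.VH
    · rw [e0 v hV]
      exact hR.cVH v hV
    · rcases hDV v hv with h | ⟨h, h'⟩
      · rw [e1 v hV h]
        exact (hR.onb v h hV).1
      · rw [e2 v hV h]
        exact (h1 v h h').2.1
  · intro v hv hV
    rcases hDV v hv with h | ⟨h, h'⟩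
    · rw [e1 v hV h]
      exact (hR.onb v h hV).2
    · rw [e2 v hV h]
      exact (h1 v h h').2.2
  · intro v hv w hw hvV hwV hvw
    rcases hDV v hv with h | ⟨h, h'⟩
    · rcases hDV w hw with k | ⟨k, k'⟩
      · rw [e1 v hvV h, e1 w hwV k]
        intro he
        have := hR.oin (by rw [mem_coe, mem_sdiff]; exact ⟨h, hvV⟩)
          (by rw [mem_coe, mem_sdiff]; exact ⟨k, hwV⟩) he
        rw [this] at hvw
        exact G.loopless.irrefl w hvw
      · rw [e1 v hvV h, e2 w hwV k]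
        intro he
        exact (mem_sdiff.1 (h1 w k k').1).2 (he ▸ mem_union_left _ (hSp v h hvV))
    · rcases hDV w hw with k | ⟨k, k'⟩
      · rw [e2 v hvV h, e1 w hwV k]
        intro he
        exact (mem_sdiff.1 (h1 v h h').1).2 (he ▸ mem_union_left _ (hSp w k hwV))
      · rw [e2 v hvV h, e2 w hwV k]
        exact h2 v w h h' k k' hvw
  · intro b n hn
    simp only [mem_filter, mem_univ, true_and] at hn
    have hsub : (pV P n).filter (fun v => c v = b) ⊆
        univ.filter (fun v => v ∉ P.V0 ∧ P.ty (P.pc v) = Ty.N ∧ cN v = b) ∪ X.VH := by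
      intro v hv
      simp only [pV, mem_filter, mem_univ, true_and] at hv
      rw [mem_union, mem_filter]
      by_cases hV : v ∈ X.VH
      · exact Or.inr hV
      · left
        rcases hn with hn | hn
        · refine ⟨mem_univ _, hv.1.1, ?_, ?_⟩
          · rw [hv.1.2]
            exact hn
          · rw [← e2 v hV hv.1.1]
            exact hv.2
        · exact ((hD.emp _ hn).false ⟨v, hv.1⟩).elim
    have h4 := le_trans (card_le_card hsub) (card_union_le _ _)
    have h5 := h3 b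
    have h6 := hX.VHk
    omega
  · intro v hv0 hvV hv hs
    simp only [mem_filter, mem_univ, true_and] at hv
    rcases hv with hv | hv
    · rw [e2 v hvV hv0] at hs
      exact absurd hs (mem_sdiff.1 (h1 v hv0 hv).1).2
    · exact ((hD.emp _ hv).false ⟨v, hv0, rfl⟩).elim
  · intro n hn
    simp only [mem_filter, mem_univ, true_and] at hn
    rcases hn with hn | hn
    · have hN : ∀ v : Ts P n, P.ty (P.pc v.1) = Ty.N := fun v => by rw [v.2.2]; exact hn
      have hcP : ∀ v : Ts P n, c v.1 ∈ P1 d A.Q A.P2 := by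
        intro v
        by_cases hV : v.1 ∈ X.VH
        · rw [e0 v.1 hV]
          exact Pal_C0_sub hA (hSC (hcs v.1 hV))
        · rw [e2 v.1 hV v.2.1]
          exact (mem_sdiff.1 (h1 v.1 v.2.1 (hN v)).1).1
      have hcF : ∀ v : Ts P n, c v.1 ∉ Fn2 G X P t n v := by
        intro v
        by_cases hV : v.1 ∈ X.VH
        · rw [e0 v.1 hV]
          exact hR.cVH v.1 hV
        · rw [e2 v.1 hV v.2.1]
          exact (h1 v.1 v.2.1 (hN v)).2.1
      have hLI := LI_of2 hc hD hL hA hX hR n (Or.inl hn)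
        (fun v => insert (c v.1) (Fn2 G X P t n v)) (fun v => card_insert_le _ _) (by
          intro v b hb
          rw [mem_insert] at hb
          rcases hb with hb | hb
          · right
            rw [hb]
            exact hcP v
          · exact Or.inl hb) (fun v => subset_insert _ _) (by
          intro b
          have h4 : us (fun v : Ts P n => insert (c v.1) (Fn2 G X P t n v)) b ⊆
              us (Fn2 G X P t n) b ∪ univ.filter (fun v : Ts P n => c v.1 = b) := by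
            intro v hv
            rw [mem_us, mem_insert] at hv
            rw [mem_union, mem_us, mem_filter]
            rcases hv with hv | hv
            · exact Or.inr ⟨mem_univ _, hv.symm⟩
            · exact Or.inl hv
          have h5 : (univ.filter (fun v : Ts P n => c v.1 = b)).card ≤ Mx := by
            have h6 : (univ.filter (fun v : Ts P n => c v.1 = b)).card ≤
                (univ.filter (fun v => v ∉ P.V0 ∧ P.ty (P.pc v) = Ty.N ∧ cN v = b) ∪
                  X.VH).card := by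
              apply card_le_card_of_injOn (fun v => v.1)
              · intro v hv
                rw [mem_coe, mem_filter] at hv
                rw [mem_coe, mem_union, mem_filter]
                by_cases hV : v.1 ∈ X.VH
                · exact Or.inr hV
                · left
                  refine ⟨mem_univ _, v.2.1, hN v, ?_⟩
                  rw [← e2 v.1 hV v.2.1]
                  exact hv.2
              · intro v _ w _ h
                exact Subtype.ext h
            have h7 := le_trans h6 (card_union_le _ _)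
            have h8 := h3 b
            have h9 := hX.VHk
            omega
          have h6 := le_trans (card_le_card h4) (card_union_le _ _)
          exact_mod_cast le_trans h6 (Nat.add_le_add_left h5 _))
      have hLNn := LN_of2 hc hD hL hX hR n hn (fun v => c v.1) hcF
      exact hLN _ _ _ _ _ _ hLI hLNn
    · haveI := hD.emp n hn
      exact ⟨fun _ _ => 0, fun _ _ => rfl, fun v => isEmptyElim v, fun v => isEmptyElim v⟩

/-- all pieces -/
theorem all_pieces2 {C g ρ ρ' π κ ε ζ θ θN θB θh : ℝ} {Mx s1 MB k k2 : ℕ} {G : SimpleGraph V}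
    {d : ℕ} {P : Pcs V M} {A : Pal} {X : HD V} {Ss : Finset ℕ} {t : V → V → ℕ} {cP : V → ℕ}
    {Sp : Finset ℕ}
    (hcN : Con2 C g ρ ρ' π κ ε ζ θ θN θh M Mx d k k2)
    (hcB : Con2 C g ρ ρ' π κ ε ζ θ θB θh M Mx d k k2)
    (hD : DecP C g ρ ζ θ G d P) (hL : PartL ρ' ε G d P) (hA : PalP A d π κ)
    (hX : HP k d G X) (hS : SupP P X) (hR : PreP2 ε ζ k G d P A X Ss t cP Sp)
    (hSC : Ss ⊆ A.C0 d) (hk2 : Ss.card ≤ k2)
    (hcs : ∀ v ∈ X.VH, X.c0 v ∈ Ss)
    (hH : ∀ b, b < d + 2 → b ∉ Ss →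
      ((univ.filter (fun v => b ∈ X.nm v)).card : ℝ) ≤ θh * d)
    (hs1 : s1 + k ≤ Mx) (hMB : MB ≤ Mx) (hM2 : 2 ≤ Mx)
    (hLN : ∀ {W : Type u} [Fintype W] (G : SimpleGraph W) (sd pt : W → Bool)
      (Q : Bool → Finset ℕ) (P2 : Finset ℕ) (F : W → Finset ℕ),
      LI2 G d (KK k) C (ρ' / 2) π κ θN sd pt Q P2 F → LN G d (g / 2) (ρ' / 2) θN sd pt F →
      ∃ t : W → W → ℕ, PEF G d F t)
    (hLB : ∀ {W : Type u} [Fintype W] (G Th : SimpleGraph W) (z : ℕ) (sd pt : W → Bool)
      (Q : Bool → Finset ℕ) (P2 : Finset ℕ) (F A : W → Finset ℕ) (Sp : Finset ℕ)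
      (Bk : Bool → Finset ℕ) (o : Finset W) (c0 : W → ℕ),
      LI2 G d (KK k) C (ρ' / 2) π κ θB sd pt Q P2 F →
      LB2 G Th d z (KK k) θB sd pt Q P2 F A Sp Bk o c0 →
      ∃ (c : W → ℕ) (t : W → W → ℕ), OWN2 G Th d MB A o c0 c ∧
        PEF G d (fun v => insert (c v) (F v)) t)
    (hLK : Stmt_LOCK2.{u})
    (cN : V → ℕ)
    (h1 : ∀ v, v ∉ P.V0 → P.ty (P.pc v) = Ty.N → cN v ∈ P1 d A.Q A.P2 \ (Sp ∪ Ss) ∧
      cN v ∉ Fc2 G X P t v ∧ cN v ∉ X.nm v)
    (h2 : ∀ v w, v ∉ P.V0 → P.ty (P.pc v) = Ty.N → w ∉ P.V0 → P.ty (P.pc w) = Ty.N →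
      G.Adj v w → cN v ≠ cN w)
    (h3 : ∀ b, (univ.filter (fun v => v ∉ P.V0 ∧ P.ty (P.pc v) = Ty.N ∧ cN v = b)).card ≤ s1) :
    ∃ c t', TotH d G X c t' := by
  have key : ∀ E : Finset (Fin M), ∃ c, Inv2 Mx (bb2 ζ M Mx d k) G d P X t cP (Sp ∪ Ss)
      (univ.filter (fun n => P.ty n = Ty.N ∨ P.ty n = Ty.E) ∪ E) c := by
    intro E
    induction E using Finset.induction_on with
    | empty =>
      obtain ⟨c, hc⟩ := start_N2 hcN hD hL hA hX hR hSC hcs hs1 hLN cN h1 h2 h3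
      exact ⟨c, by rwa [union_empty]⟩
    | insert n E _ ih =>
      obtain ⟨c, hI⟩ := ih
      rw [union_insert]
      by_cases hn : n ∈ univ.filter (fun n => P.ty n = Ty.N ∨ P.ty n = Ty.E) ∪ E
      · rw [insert_eq_of_mem hn]
        exact ⟨c, hI⟩
      · have hty : P.ty n = Ty.K ∨ P.ty n = Ty.B := by
          have h4 : ¬ (P.ty n = Ty.N ∨ P.ty n = Ty.E) := by
            intro h
            apply hn
            rw [mem_union, mem_filter]
            exact Or.inl ⟨mem_univ _, h⟩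
          rcases h5 : P.ty n with _ | _ | _ | _
          · exact absurd (Or.inr h5) h4
          · exact Or.inl rfl
          · exact absurd (Or.inl h5) h4
          · exact Or.inr rfl
        rcases hty with h | h
        · exact step_K2 hcN hD hL hA hX hS hR hSC hk2 hcs hH hM2 hLK _ c hI n h hn
        · exact step_B2 hcB hD hL hA hX hS hR hSC hk2 hcs hH hMB hLB _ c hI n h hn
  obtain ⟨c, hI⟩ := key univ
  have : (univ.filter (fun n => P.ty n = Ty.N ∨ P.ty n = Ty.E) ∪ univ : Finset (Fin M)) =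
      univ := by simp
  rw [this] at hI
  obtain ⟨t', ht⟩ := inv_end2 Mx _ G d P X hX t cP (Sp ∪ Ss) c (fun z hz => (hS z hz).1) hR.sym
    hR.lt hR.inj hR.th hR.ne hI
  exact ⟨c, t', ht⟩

end start

/-- palettes with prescribed colours outside -/
theorem exists_pal2 (d : ℕ) (π κ : ℝ) (Ss : Finset ℕ) (hπ0 : 0 < π) (hπ1 : π ≤ 1 / 100)
    (hκ0 : 0 < κ) (hκ1 : κ ≤ 1 / 100) (hπd : 1 ≤ π * d) (hκd : 1 ≤ κ * d)
    (hS : Ss ⊆ range (d + 2)) (hSc : (Ss.card : ℝ) ≤ d / 10 ^ 13) :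
    ∃ A : Pal, PalP A d π κ ∧ Ss ⊆ A.C0 d := by
  have hd : (100 : ℝ) ≤ d := by
    have : (0 : ℝ) ≤ d := Nat.cast_nonneg d
    nlinarith
  obtain ⟨c, hc⟩ : ∃ c : ℕ, c = ⌊(1 / 3 - 3 / 10 ^ 13) * (d : ℝ)⌋₊ := ⟨_, rfl⟩
  obtain ⟨q, hq⟩ : ∃ q : ℕ, q = ⌈κ * d⌉₊ := ⟨_, rfl⟩
  obtain ⟨p, hp⟩ : ∃ p : ℕ, p = ⌈π * d⌉₊ := ⟨_, rfl⟩
  have hc1 : (c : ℝ) ≤ (1 / 3 - 3 / 10 ^ 13) * (d : ℝ) := by
    rw [hc]; exact Nat.floor_le (by positivity)
  have hc2 : (1 / 3 - 3 / 10 ^ 13) * (d : ℝ) < c + 1 := by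
    rw [hc]; exact Nat.lt_floor_add_one _
  have hq1 : κ * d ≤ q := by rw [hq]; exact Nat.le_ceil _
  have hq2 : (q : ℝ) < κ * d + 1 := by rw [hq]; exact Nat.ceil_lt_add_one (by positivity)
  have hp1 : π * d ≤ p := by rw [hp]; exact Nat.le_ceil _
  have hp2 : (p : ℝ) < π * d + 1 := by rw [hp]; exact Nat.ceil_lt_add_one (by positivity)
  have hqd : (q : ℝ) ≤ d / 100 + 1 := by nlinarith
  have hpd : (p : ℝ) ≤ d / 100 + 1 := by nlinarith
  have hqc : q ≤ c := by
    have : (q : ℝ) ≤ c := by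
      norm_num at hc2
      linarith
    exact_mod_cast this
  have hpc : p ≤ c := by
    have : (p : ℝ) ≤ c := by
      norm_num at hc2
      linarith
    exact_mod_cast this
  have hU : (range (d + 2) \ Ss).card + Ss.card = d + 2 := by
    have := card_sdiff_add_card_eq_card hS
    rwa [card_range] at this
  have h3c : 3 * c ≤ (range (d + 2) \ Ss).card := by
    have h1 : ((range (d + 2) \ Ss).card : ℝ) + Ss.card = d + 2 := by exact_mod_cast hU
    have : 3 * (c : ℝ) ≤ (range (d + 2) \ Ss).card := by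
      norm_num at hc1 hSc
      linarith
    exact_mod_cast this
  obtain ⟨C0, hC0, hC0c⟩ := exists_subset_card_eq
    (show c ≤ (range (d + 2) \ Ss).card by omega)
  have hr1 : ((range (d + 2) \ Ss) \ C0).card + C0.card = (range (d + 2) \ Ss).card :=
    card_sdiff_add_card_eq_card hC0
  obtain ⟨C1, hC1, hC1c⟩ := exists_subset_card_eq
    (show c ≤ ((range (d + 2) \ Ss) \ C0).card by omega)
  have hr2 : (((range (d + 2) \ Ss) \ C0) \ C1).card + C1.card =
      ((range (d + 2) \ Ss) \ C0).card := card_sdiff_add_card_eq_card hC1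
  obtain ⟨C2, hC2, hC2c⟩ := exists_subset_card_eq
    (show c ≤ (((range (d + 2) \ Ss) \ C0) \ C1).card by omega)
  obtain ⟨Q0, hQ0, hQ0c⟩ := exists_subset_card_eq (show q ≤ C0.card by omega)
  obtain ⟨Q1, hQ1, hQ1c⟩ := exists_subset_card_eq (show q ≤ C1.card by omega)
  obtain ⟨P2, hP2, hP2c⟩ := exists_subset_card_eq (show p ≤ C2.card by omega)
  have hs0 : ∀ b ∈ C0, b ∈ range (d + 2) ∧ b ∉ Ss := fun b hb => mem_sdiff.1 (hC0 hb)
  have hs1 : ∀ b ∈ C1, (b ∈ range (d + 2) ∧ b ∉ Ss) ∧ b ∉ C0 := fun b hb =>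
    ⟨mem_sdiff.1 (mem_sdiff.1 (hC1 hb)).1, (mem_sdiff.1 (hC1 hb)).2⟩
  have hs2 : ∀ b ∈ C2, (b ∈ range (d + 2) ∧ b ∉ Ss) ∧ b ∉ C0 ∧ b ∉ C1 := fun b hb =>
    ⟨mem_sdiff.1 (mem_sdiff.1 (mem_sdiff.1 (hC2 hb)).1).1,
      (mem_sdiff.1 (mem_sdiff.1 (hC2 hb)).1).2, (mem_sdiff.1 (hC2 hb)).2⟩
  have d01 : Disjoint C0 C1 := by
    rw [disjoint_left]
    exact fun b hb hb' => (hs1 b hb').2 hb
  have d02 : Disjoint C0 C2 := by
    rw [disjoint_left]
    exact fun b hb hb' => (hs2 b hb').2.1 hb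
  have d12 : Disjoint C1 C2 := by
    rw [disjoint_left]
    exact fun b hb hb' => (hs2 b hb').2.2 hb
  refine ⟨⟨![C0, C1, C2], fun i => if i then Q1 else Q0, P2⟩, ⟨?_, ?_, ?_, ?_, ?_, ?_, ?_, ?_⟩,
    ?_⟩
  · intro j
    fin_cases j
    · exact fun b hb => (hs0 b hb).1
    · exact fun b hb => (hs1 b hb).1.1
    · exact fun b hb => (hs2 b hb).1.1
  · intro i j hij
    fin_cases i <;> fin_cases j
    · exact absurd rfl hij
    · exact d01
    · exact d02
    · exact d01.symm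
    · exact absurd rfl hij
    · exact d12
    · exact d02.symm
    · exact d12.symm
    · exact absurd rfl hij
  · intro j
    have : (![C0, C1, C2] j).card = c := by
      fin_cases j
      · exact hC0c
      · exact hC1c
      · exact hC2c
    rw [this, abs_le]
    constructor
    · linarith
    · linarith
  · simpa using hQ0
  · simpa using hQ1
  · exact hP2
  · intro i
    cases i
    · simp only [Bool.false_eq_true, if_false, hQ0c]
      constructor
      · exact hq1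
      · linarith
    · simp only [if_true, hQ1c]
      constructor
      · exact hq1
      · linarith
  · simp only [hP2c]
    constructor
    · exact hp1
    · linarith
  · intro b hb
    simp only [Pal.C0, mem_sdiff, mem_union, not_or]
    refine ⟨hS hb, ⟨fun h => (hs0 b h).2 hb, fun h => (hs1 b h).1.2 hb⟩,
      fun h => (hs2 b h).1.2 hb⟩

end Pool.Agent.Work.MP_db9399_da.helper62
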