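import Pool.Agent.Work.MP_db9399_da_helper62.Bsm6

/-!
# MP_db9399, DENSE-ALL, phase 2: assembly, part 7 (owner helper62)

The constants and the theorem.
-/

set_option autoImplicit false

namespace Pool.Agent.Work.MP_db9399_da.helper62

open Finset Classical
open Pool.Agent.Work.MP_db9399_all (nb)
open Pool.Agent.Work.MP_db9399_nc (nn)
open Pool.Agent.Work.MP_db9399_lt (us)

universe u

/-- names which occur often -/
noncomputable def heavy {V : Type u} [Fintype V] (X : HD V) (d : ℕ) (θh : ℝ) : Finset ℕ :=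
  (range (d + 2)).filter
    (fun b => θh * d < ((univ.filter (fun v => b ∈ X.nm v)).card : ℝ))

theorem heavy_card {V : Type u} [Fintype V] {k d : ℕ} {G : SimpleGraph V} {X : HD V}
    (hX : HP k d G X) (C θh : ℝ) (hθ : 0 < θh) (hV : (Fintype.card V : ℝ) ≤ C * d)
    (hk : (k : ℝ) ^ 2 ≤ d) (hd : (0 : ℝ) < d) :
    ((heavy X d θh).card : ℝ) ≤ (2 * C + 1) / θh := by
  rw [le_div_iff₀ hθ]
  have h1 : ((heavy X d θh).card : ℝ) * (θh * d) ≤
      ∑ b ∈ heavy X d θh, ((univ.filter (fun v => b ∈ X.nm v)).card : ℝ) := by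
    have := card_nsmul_le_sum (heavy X d θh)
      (fun b => ((univ.filter (fun v => b ∈ X.nm v)).card : ℝ)) (θh * d) (by
      intro b hb
      exact (mem_filter.1 hb).2.le)
    simpa [nsmul_eq_mul] using this
  have h2 : ∑ b ∈ heavy X d θh, (univ.filter (fun v => b ∈ X.nm v)).card ≤
      ∑ v : V, (X.nm v).card := by
    have e1 : ∀ b, (univ.filter (fun v => b ∈ X.nm v)).card =
        ∑ v : V, if b ∈ X.nm v then 1 else 0 := fun b => card_filter _ _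
    rw [sum_congr rfl (fun b _ => e1 b), sum_comm]
    apply sum_le_sum
    intro v _
    rw [← card_filter]
    apply card_le_card
    intro b hb
    exact (mem_filter.1 hb).2
  have h3 : ∑ v : V, (X.nm v).card ≤ 2 * Fintype.card V + k * k := by
    have e1 : ∀ v : V, (X.nm v).card ≤ 2 + if 2 < (X.nm v).card then k else 0 := by
      intro v
      split_ifs with h
      · have := hX.nmk v
        omega
      · omega
    refine le_trans (sum_le_sum (fun v _ => e1 v)) ?_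
    rw [sum_add_distrib]
    have e2 : ∑ _v : V, 2 = 2 * Fintype.card V := by
      rw [sum_const, card_univ, smul_eq_mul, mul_comm]
    have e3 : (∑ v : V, if 2 < (X.nm v).card then k else 0) =
        (univ.filter (fun v => 2 < (X.nm v).card)).card * k := by
      rw [← sum_filter, sum_const, smul_eq_mul]
    rw [e2, e3]
    exact Nat.add_le_add_left (Nat.mul_le_mul_right k hX.nm2) _
  have h4 : (∑ b ∈ heavy X d θh, ((univ.filter (fun v => b ∈ X.nm v)).card : ℝ)) ≤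
      2 * Fintype.card V + k * k := by
    exact_mod_cast le_trans h2 h3
  have h5 : ((heavy X d θh).card : ℝ) * (θh * d) ≤ (2 * C + 1) * d := by
    nlinarith
  have h6 : ((heavy X d θh).card : ℝ) * θh * d ≤ (2 * C + 1) * d := by
    rw [mul_assoc]
    exact h5
  exact le_of_mul_le_mul_right h6 hd

theorem VHp_same {V : Type u} [Fintype V] {M : ℕ} {σ : ℝ} {G : SimpleGraph V} {d : ℕ}
    {P P' : Pcs V M} {X : HD V} (hS : SameP P P') (h : VHp σ G d P X) : VHp σ G d P' X := by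
  obtain ⟨e1, e2, e3, e4, e5⟩ := hS
  intro z hz hz0
  rw [e1] at hz0
  obtain ⟨a1, a2, a3⟩ := h z hz hz0
  refine ⟨by rw [e4]; exact a1, ?_, ?_⟩
  · intro n β hn
    rw [e3] at hn
    have : sV P' n β = sV P n β := by
      ext v
      simp only [sV, mem_filter, mem_univ, true_and, e1, e2]
      constructor
      · rintro ⟨h1, h2, h3⟩
        refine ⟨h1, h2, ?_⟩
        rw [← e5 v (by rw [h2]; exact hn)]
        exact h3
      · rintro ⟨h1, h2, h3⟩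
        refine ⟨h1, h2, ?_⟩
        rw [e5 v (by rw [h2]; exact hn)]
        exact h3
    rw [this]
    exact a2 n β hn
  · intro n hn
    rw [e3] at hn
    have : pV P' n = pV P n := by
      ext v
      simp only [pV, mem_filter, mem_univ, true_and, e1, e2]
    rw [this]
    exact a3 n hn

/-- one scale -/
theorem per_scale (hPARTS : Stmt_PARTS2.{u}) (hSUP : Stmt_SUP.{u}) (hPRE : Stmt_PRE2.{u})
    (hOWNN : Stmt_OWNN.{u})
    (hLOCN : Stmt_LOCN2.{u}) (hLOCB : Stmt_LOCB2.{u}) (hLOCK : Stmt_LOCK2.{u}) (C ρ σ : ℝ)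
    (M k : ℕ) (hC : 1 ≤ C) (hρ0 : 0 < ρ) (hρ1 : ρ ≤ 1) (hσ0 : 0 < σ) (hσ1 : σ ≤ 1 / 100) :
    ∃ (ζ θ : ℝ) (d1 : ℕ), 0 < ζ ∧ ζ ≤ σ / 100 ∧ 0 < θ ∧
      ∀ {V : Type u} [Fintype V] (G : SimpleGraph V) (d : ℕ) (P : Pcs V M) (X : HD V),
        d1 ≤ d → DecP C (1 / 10 ^ 28) ρ ζ θ G d P → HP k d G X → VHp σ G d P X →
        ∃ c t, TotH d G X c t := by
  set g : ℝ := 1 / 10 ^ 28 with hg
  have hg0 : 0 < g := by rw [hg]; norm_num
  have hg1 : g ≤ 1 / 10 := by rw [hg]; norm_num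
  obtain ⟨hK1, hK2⟩ := KK_real k
  have hKK : 1 ≤ KK k := by
    have : (1 : ℝ) ≤ KK k := by linarith
    exact_mod_cast this
  obtain ⟨ρ', K, hρ'0, hρ'1, hK, hPA⟩ := hPARTS C g ρ M hC hg0 hg1 hρ0 hρ1
  obtain ⟨s, ζO, s1, dO, hs0, hs1, hζO, hO⟩ := hOWNN C g ρ M hC hg0 hg1 hρ0 hρ1
  obtain ⟨ζS, dS, hζS, hSU⟩ := hSUP C g ρ k hC hg0 hg1 hρ0 hρ1
  obtain ⟨πN, hπN, hN1⟩ := hLOCN C (g / 2) (ρ' / 2) (KK k) hC (by positivity) (by positivity)
  obtain ⟨πB, hπB, hB1⟩ := hLOCB C (ρ' / 2) (KK k) hC (by positivity) hKK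
  have hk0 : (0 : ℝ) ≤ k := Nat.cast_nonneg k
  have hσk : 0 < σ / (1000 * ((k : ℝ) + 1)) := by positivity
  have hσk1 : σ / (1000 * ((k : ℝ) + 1)) ≤ 1 / 100 := by
    rw [div_le_iff₀ (by positivity)]
    nlinarith
  obtain ⟨π, hπ⟩ : ∃ π : ℝ, π = min (min πN πB) (min (s / 16) (σ / (1000 * ((k : ℝ) + 1)))) :=
    ⟨_, rfl⟩
  have hπ0 : 0 < π := by rw [hπ]; positivity
  have hπa : π ≤ πN := by rw [hπ]; exact le_trans (min_le_left _ _) (min_le_left _ _)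
  have hπb : π ≤ πB := by rw [hπ]; exact le_trans (min_le_left _ _) (min_le_right _ _)
  have hπc : π ≤ s / 16 := by rw [hπ]; exact le_trans (min_le_right _ _) (min_le_left _ _)
  have hπe : π ≤ σ / (1000 * ((k : ℝ) + 1)) := by
    rw [hπ]; exact le_trans (min_le_right _ _) (min_le_right _ _)
  have hπd : π ≤ 1 / 100 := le_trans hπe hσk1
  obtain ⟨κN, hκN, hN2⟩ := hN1 π hπ0 hπa
  obtain ⟨κB, hκB, hB2⟩ := hB1 π hπ0 hπb
  obtain ⟨κ, hκ⟩ : ∃ κ : ℝ, κ = min (min κN κB) (min (s / 32) (σ / (1000 * ((k : ℝ) + 1)))) :=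
    ⟨_, rfl⟩
  have hκ0 : 0 < κ := by rw [hκ]; positivity
  have hκa : κ ≤ κN := by rw [hκ]; exact le_trans (min_le_left _ _) (min_le_left _ _)
  have hκb : κ ≤ κB := by rw [hκ]; exact le_trans (min_le_left _ _) (min_le_right _ _)
  have hκc : κ ≤ s / 32 := by rw [hκ]; exact le_trans (min_le_right _ _) (min_le_left _ _)
  have hκe : κ ≤ σ / (1000 * ((k : ℝ) + 1)) := by
    rw [hκ]; exact le_trans (min_le_right _ _) (min_le_right _ _)
  have hκd : κ ≤ 1 / 100 := le_trans hκe hσk1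
  obtain ⟨θN, dN, hθN, hN3⟩ := hN2 κ hκ0 hκa
  obtain ⟨MB, θB, dB, hθB, hB3⟩ := hB2 κ hκ0 hκb
  obtain ⟨Mx, hMx⟩ : ∃ Mx : ℕ, Mx = max MB (max 2 (s1 + k)) := ⟨_, rfl⟩
  have hMx1 : MB ≤ Mx := by rw [hMx]; exact le_max_left _ _
  have hMx2 : 2 ≤ Mx := by rw [hMx]; exact le_trans (le_max_left _ _) (le_max_right _ _)
  have hMx3 : s1 + k ≤ Mx := by rw [hMx]; exact le_trans (le_max_right _ _) (le_max_right _ _)
  obtain ⟨θL, hθL⟩ : ∃ θL : ℝ, θL = min θN θB := ⟨_, rfl⟩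
  have hθL0 : 0 < θL := by rw [hθL]; positivity
  have hθL1 : θL ≤ θN := by rw [hθL]; exact min_le_left _ _
  have hθL2 : θL ≤ θB := by rw [hθL]; exact min_le_right _ _
  obtain ⟨ε, hε⟩ : ∃ ε : ℝ, ε = min (θL / 4) (1 / 10 ^ 30) := ⟨_, rfl⟩
  have hε0 : 0 < ε := by rw [hε]; positivity
  have hε1 : ε ≤ θL / 4 := by rw [hε]; exact min_le_left _ _
  have hε2 : ε ≤ 1 / 10 ^ 30 := by rw [hε]; exact min_le_right _ _
  obtain ⟨θh, hθh⟩ : ∃ θh : ℝ, θh = min (θL / 8) (1 / 10 ^ 29) := ⟨_, rfl⟩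
  have hθh0 : 0 < θh := by rw [hθh]; positivity
  have hθh1 : θh ≤ θL / 8 := by rw [hθh]; exact min_le_left _ _
  have hθh2 : θh ≤ 1 / 10 ^ 29 := by rw [hθh]; exact min_le_right _ _
  obtain ⟨k2, hk2⟩ : ∃ k2 : ℕ, k2 = 2 * k + ⌊(2 * C + 1) / θh⌋₊ := ⟨_, rfl⟩
  obtain ⟨ε1, hε10, hε11, hP1⟩ := hPRE C g ρ ρ' K π κ ε σ M k k2 hC hg0 hg1 hρ'0 hρ'1 hρ1 hK
    hσ0 hσ1 hπ0 hπe hκ0 hκe hε0
  obtain ⟨e2, he2⟩ : ∃ e2 : ℝ, e2 = min ε ε1 := ⟨_, rfl⟩
  have he20 : 0 < e2 := by rw [he2]; positivity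
  have he2a : e2 ≤ ε := by rw [he2]; exact min_le_left _ _
  have he2b : e2 ≤ ε1 := by rw [he2]; exact min_le_right _ _
  obtain ⟨ζP, hζP, hP2⟩ := hP1 e2 he20 he2b
  obtain ⟨ζA, hζA, hA2⟩ := hPA e2 he20 (le_trans he2b hε11)
  have hMM : (0 : ℝ) ≤ (M : ℝ) * Mx := by positivity
  obtain ⟨ζ, hζ⟩ : ∃ ζ : ℝ, ζ = min (min (min ζP ζA) (min (ζO / 2) (min ζS (σ / 100))))
    (min (θL / (8 * (4 + (M : ℝ) * Mx))) (1 / (10 ^ 30 * (4 + (M : ℝ) * Mx)))) := ⟨_, rfl⟩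
  have hζ0 : 0 < ζ := by rw [hζ]; positivity
  have hζa : ζ ≤ ζP := by
    rw [hζ]; exact le_trans (min_le_left _ _) (le_trans (min_le_left _ _) (min_le_left _ _))
  have hζb : ζ ≤ ζA := by
    rw [hζ]; exact le_trans (min_le_left _ _) (le_trans (min_le_left _ _) (min_le_right _ _))
  have hζc : ζ ≤ ζO / 2 := by
    rw [hζ]; exact le_trans (min_le_left _ _) (le_trans (min_le_right _ _) (min_le_left _ _))
  have hζs : ζ ≤ ζS := by
    rw [hζ]
    exact le_trans (min_le_left _ _) (le_trans (min_le_right _ _)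
      (le_trans (min_le_right _ _) (min_le_left _ _)))
  have hζd : ζ ≤ σ / 100 := by
    rw [hζ]
    exact le_trans (min_le_left _ _) (le_trans (min_le_right _ _)
      (le_trans (min_le_right _ _) (min_le_right _ _)))
  have hζe : ζ ≤ θL / (8 * (4 + (M : ℝ) * Mx)) := by
    rw [hζ]; exact le_trans (min_le_right _ _) (min_le_left _ _)
  have hζf : ζ ≤ 1 / (10 ^ 30 * (4 + (M : ℝ) * Mx)) := by
    rw [hζ]; exact le_trans (min_le_right _ _) (min_le_right _ _)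
  clear hζ
  obtain ⟨θP, hθP, hP3⟩ := hP2 ζ hζ0 hζa
  obtain ⟨θA, hθA, hA3⟩ := hA2 ζ hζ0 hζb
  have hKp : (0 : ℝ) < KK k := by linarith
  obtain ⟨θ, hθ⟩ : ∃ θ : ℝ, θ = min (min (min θP θA) (min (min ζO ζS) (s / 32)))
    (min (ζ ^ 2 / (10 ^ 8 * (1 + (M : ℝ) * Mx) * KK k)) (θL / 8)) := ⟨_, rfl⟩
  have hθ0 : 0 < θ := by rw [hθ]; positivity
  have hθa : θ ≤ θP := by
    rw [hθ]; exact le_trans (min_le_left _ _) (le_trans (min_le_left _ _) (min_le_left _ _))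
  have hθb : θ ≤ θA := by
    rw [hθ]; exact le_trans (min_le_left _ _) (le_trans (min_le_left _ _) (min_le_right _ _))
  have hθc : θ ≤ ζO := by
    rw [hθ]
    exact le_trans (min_le_left _ _) (le_trans (min_le_right _ _)
      (le_trans (min_le_left _ _) (min_le_left _ _)))
  have hθs : θ ≤ ζS := by
    rw [hθ]
    exact le_trans (min_le_left _ _) (le_trans (min_le_right _ _)
      (le_trans (min_le_left _ _) (min_le_right _ _)))
  have hθd : θ ≤ s / 32 := by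
    rw [hθ]; exact le_trans (min_le_left _ _) (le_trans (min_le_right _ _) (min_le_right _ _))
  have hθe : θ ≤ ζ ^ 2 / (10 ^ 8 * (1 + (M : ℝ) * Mx) * KK k) := by
    rw [hθ]; exact le_trans (min_le_right _ _) (min_le_left _ _)
  have hθf : θ ≤ θL / 8 := by
    rw [hθ]; exact le_trans (min_le_right _ _) (min_le_right _ _)
  clear hθ
  obtain ⟨dP, hP4⟩ := hP3 θ hθ0 hθa
  obtain ⟨dA, hA4⟩ := hA3 θ hθ0 hθb
  obtain ⟨d5, hd5⟩ := exists_nat_ge
    (10 ^ 8 * (1 + (M : ℝ) * Mx) * (KK k : ℝ) * ((k : ℝ) + k2 + 1) / ζ)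
  obtain ⟨d6, hd6⟩ := exists_nat_ge (((Mx : ℝ) + k2 + k + 2) / (θL / 8))
  obtain ⟨d7, hd7⟩ := exists_nat_ge (1 / π)
  obtain ⟨d8, hd8⟩ := exists_nat_ge (1 / κ)
  obtain ⟨d9, hd9⟩ := exists_nat_ge (100 * C / ρ')
  obtain ⟨d10, hd10⟩ := exists_nat_ge ((k2 : ℝ) / (s / 32))
  refine ⟨ζ, θ, dO + dN + dB + dP + dA + dS + d5 + d6 + d7 + d8 + d9 + d10 + 10 ^ 13 * k2 +
    k ^ 2 + 10 ^ 40, hζ0, hζd, hθ0, ?_⟩
  intro V _ G d P X hd hD hX hVH
  have hdr : ∀ m : ℕ, m ≤ dO + dN + dB + dP + dA + dS + d5 + d6 + d7 + d8 + d9 + d10 +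
      10 ^ 13 * k2 + k ^ 2 + 10 ^ 40 → (m : ℝ) ≤ d :=
    fun m hm => by exact_mod_cast le_trans hm hd
  have hd0 : (0 : ℝ) ≤ d := Nat.cast_nonneg d
  have q5 : 10 ^ 8 * (1 + (M : ℝ) * Mx) * (KK k : ℝ) * ((k : ℝ) + k2 + 1) ≤ ζ * d := by
    have := le_trans hd5 (hdr d5 (by omega))
    rw [div_le_iff₀ hζ0] at this
    linarith only [this]
  have q6 : (Mx : ℝ) + k2 + k + 2 ≤ θL / 8 * d := by
    have := le_trans hd6 (hdr d6 (by omega))
    rw [div_le_iff₀ (by positivity)] at this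
    linarith only [this]
  have q7 : 1 ≤ π * d := by
    have := le_trans hd7 (hdr d7 (by omega))
    rw [div_le_iff₀ hπ0] at this
    linarith only [this]
  have q8 : 1 ≤ κ * d := by
    have := le_trans hd8 (hdr d8 (by omega))
    rw [div_le_iff₀ hκ0] at this
    linarith only [this]
  have q9 : 100 * C ≤ ρ' * d := by
    have := le_trans hd9 (hdr d9 (by omega))
    rw [div_le_iff₀ hρ'0] at this
    linarith only [this]
  have q10 : (k2 : ℝ) ≤ s / 32 * d := by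
    have := le_trans hd10 (hdr d10 (by omega))
    rw [div_le_iff₀ (by positivity)] at this
    linarith only [this]
  have q11 : (k2 : ℝ) ≤ d / 10 ^ 13 := by
    have := hdr (10 ^ 13 * k2) (by omega)
    push_cast at this
    rw [le_div_iff₀ (by norm_num)]
    linarith only [this]
  have q12 : (k : ℝ) ^ 2 ≤ d := by
    have := hdr (k ^ 2) (by omega)
    push_cast at this
    exact this
  have q13 : (0 : ℝ) < d := by
    have := hdr (10 ^ 40) (by omega)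
    push_cast at this
    exact lt_of_lt_of_le (by norm_num) this
  have hζe' : (4 + (M : ℝ) * Mx) * ζ ≤ θL / 8 := by
    rw [le_div_iff₀ (by positivity)] at hζe
    linarith only [hζe]
  have hζf' : (4 + (M : ℝ) * Mx) * ζ ≤ 1 / 10 ^ 30 := by
    rw [le_div_iff₀ (by positivity)] at hζf
    rw [le_div_iff₀ (by positivity)]
    linarith only [hζf]
  have hθe' : 10 ^ 8 * (1 + (M : ℝ) * Mx) * (KK k : ℝ) * θ ≤ ζ ^ 2 := by
    rw [le_div_iff₀ (by positivity)] at hθe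
    linarith only [hθe]
  obtain ⟨P', hSame, hD', hL', hX'⟩ := hA4 G d P (by omega) hD
  have hS' : SupP P' X := hSU G d P' X ζ θ (by omega) hζs hθs hD' hX
  have hVH' : VHp σ G d P' X := VHp_same hSame hVH
  -- special colours
  set Ss : Finset ℕ := X.VH.image X.c0 ∪ X.VH.image X.h0 ∪ heavy X d θh with hSs
  have hSs1 : Ss.card ≤ k2 := by
    have h1 : (X.VH.image X.c0).card ≤ k := le_trans card_image_le hX.VHk
    have h2 : (X.VH.image X.h0).card ≤ k := le_trans card_image_le hX.VHk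
    have h3 : (heavy X d θh).card ≤ ⌊(2 * C + 1) / θh⌋₊ :=
      Nat.le_floor (heavy_card hX C θh hθh0 hD.siz q12 q13)
    have h4 := card_union_le (X.VH.image X.c0 ∪ X.VH.image X.h0) (heavy X d θh)
    have h5 := card_union_le (X.VH.image X.c0) (X.VH.image X.h0)
    rw [hk2, hSs]
    omega
  have hSs2 : Ss ⊆ range (d + 2) := by
    intro b hb
    rw [hSs, mem_union, mem_union] at hb
    rw [mem_range]
    rcases hb with (hb | hb) | hb
    · rw [mem_image] at hb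
      obtain ⟨v, hv, rfl⟩ := hb
      exact hX.c0l v hv
    · rw [mem_image] at hb
      obtain ⟨v, hv, rfl⟩ := hb
      obtain ⟨w, hw⟩ := hX.HV v hv
      exact (hX.h0l v w hw).1
    · have := (mem_filter.1 hb).1
      rwa [mem_range] at this
  have hSs3 : ∀ v ∈ X.VH, X.c0 v ∈ Ss ∧ X.h0 v ∈ Ss := by
    intro v hv
    rw [hSs]
    exact ⟨mem_union_left _ (mem_union_left _ (mem_image_of_mem _ hv)),
      mem_union_left _ (mem_union_right _ (mem_image_of_mem _ hv))⟩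
  have hSs4 : ∀ b, b < d + 2 → b ∉ Ss →
      ((univ.filter (fun v => b ∈ X.nm v)).card : ℝ) ≤ θh * d := by
    intro b hb hbS
    by_contra hlt
    apply hbS
    rw [hSs]
    apply mem_union_right
    rw [heavy, mem_filter, mem_range]
    exact ⟨hb, not_le.1 hlt⟩
  obtain ⟨A, hA, hSC⟩ := exists_pal2 d π κ Ss hπ0 hπd hκ0 hκd q7 q8 hSs2
    (le_trans (by exact_mod_cast hSs1) q11)
  obtain ⟨t, c0, Sp, hR⟩ := hP4 G d P' A X Ss (by omega) hD' hL' hX' hA hX hS' hVH' hSC hSs1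
    hSs3
  have hL'' : PartL ρ' ε G d P' := by
    have h0 : e2 * (d : ℝ) ≤ ε * d := mul_le_mul_of_nonneg_right he2a hd0
    exact { hL' with
      nD := fun n hn v β i => le_trans (hL'.nD n hn v β i) h0
      bD := fun n hn v i => le_trans (hL'.bD n hn v i) h0
      kC := fun n hn i l => le_trans (hL'.kC n hn i l) h0 }
  have hcL : Con2 C g ρ ρ' π κ ε ζ θ θL θh M Mx d k k2 :=
    { C1 := hC, g1 := hg, r0 := hρ'0, r1 := hρ'1, e0 := hε0, e1 := hε1, e2 := hε2, h0 := hθh0,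
      h1 := hθh1, h2 := hθh2, z0 := hζ0, z1 := hζe', z2 := hζf', t0 := hθ0, t1 := hθe',
      t2 := hθf, d0 := by omega, d1 := q5, d2 := q6, d3 := q9 }
  have hSpc := SS_card hD' hR hSs1
  have hPl : (1 - s) * d ≤ ((P1 d A.Q A.P2 \ (Sp ∪ Ss)).card : ℝ) := by
    have h1 := P1_card hA
    have h2 : (P1 d A.Q A.P2).card ≤ (P1 d A.Q A.P2 \ (Sp ∪ Ss)).card + (Sp ∪ Ss).card := by
      have := card_le_card (show P1 d A.Q A.P2 ⊆ (P1 d A.Q A.P2 \ (Sp ∪ Ss)) ∪ (Sp ∪ Ss) from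
        fun b hb => by
          by_cases h : b ∈ Sp ∪ Ss
          · exact mem_union_right _ h
          · exact mem_union_left _ (mem_sdiff.2 ⟨hb, h⟩))
      exact le_trans this (card_union_le _ _)
    have h3 : ((P1 d A.Q A.P2).card : ℝ) ≤
        (P1 d A.Q A.P2 \ (Sp ∪ Ss)).card + (Sp ∪ Ss).card := by
      exact_mod_cast h2
    have h4 : (1 - s) * (d : ℝ) ≤ (1 - 4 * κ - 2 * π - θ - s / 32) * d := by
      apply mul_le_mul_of_nonneg_right _ hd0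
      linarith only [hκc, hπc, hθd, hs0]
    have h5 : (1 - 4 * κ - 2 * π - θ - s / 32) * (d : ℝ) =
        (1 - 4 * κ - 2 * π) * d - θ * d - s / 32 * d := by ring
    linarith only [h1, h3, h4, h5, hSpc, q10]
  obtain ⟨_, hzd, _, _, _, _, hk1, _, _⟩ := con_fac hcL
  obtain ⟨cN, hc1, hc2, hc3⟩ := hO G d P' ζ θ (P1 d A.Q A.P2 \ (Sp ∪ Ss))
    (fun v => if v ∈ P'.V0 then ∅ else Fc2 G X P' t v ∪ X.nm v) (by omega)
    (by linarith only [hζc, hζO]) hθc hD' hPl (by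
      intro v
      by_cases hv : v ∈ P'.V0
      · simp only [hv, if_true, card_empty, Nat.cast_zero]
        positivity
      · simp only [hv, if_false]
        have h1 := thin2_real hD' hX v hv
        have h2 : ((Fc2 G X P' t v ∪ X.nm v).card : ℝ) ≤
            (nb (thin2 G X P') v).card + k := by
          have h3 : (Fc2 G X P' t v).card ≤ (nb (thin2 G X P') v).card := card_image_le
          have h4 := card_union_le (Fc2 G X P' t v) (X.nm v)
          have h5 := hX.nmk v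
          exact_mod_cast (by omega :
            (Fc2 G X P' t v ∪ X.nm v).card ≤ (nb (thin2 G X P') v).card + k)
        have h3 : ζ * d ≤ ζO / 2 * d := mul_le_mul_of_nonneg_right hζc hd0
        have h4 : (0 : ℝ) ≤ k2 := Nat.cast_nonneg k2
        norm_num at hk1
        linarith only [h1, h2, h3, h4, hk1, hzd])
  refine all_pieces2 (hcL.mono hθL1) (hcL.mono hθL2) hD' hL'' hA hX hS' hR hSC hSs1
    (fun v hv => (hSs3 v hv).1) hSs4 hMx3 hMx1 hMx2 ?_ ?_ hLOCK cN ?_ hc2 hc3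
  · intro W _ G' sd pt Q P2 F h1 h2
    exact hN3 G' d sd pt Q P2 F (by omega) h1 h2
  · intro W _ G' Th z sd pt Q P2 F A' Sp' Bk o c0' h1 h2
    exact hB3 G' Th d z sd pt Q P2 F A' Sp' Bk o c0' (by omega) h1 h2
  · intro v hv hvN
    have h1 := hc1 v hv hvN
    refine ⟨h1.1, ?_⟩
    have h2 := h1.2
    simp only [hv, if_false, mem_union, not_or] at h2
    exact h2

/-- ASSEMBLY2. -/
theorem stmt_ASSEMBLY2 : Stmt_ASSEMBLY2.{u} := by
  intro hDEC hPARTS hSUP hPRE hOWNN hLOCN hLOCB hLOCK C k hC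
  have hg0 : (0 : ℝ) < 1 / 10 ^ 28 := by norm_num
  have hg1 : (1 : ℝ) / 10 ^ 28 ≤ 1 / 10 := by norm_num
  obtain ⟨M, hM⟩ := hDEC C (1 / 10 ^ 28) hC hg0 hg1
  have hper := fun (ρ σ : ℝ) (h : (0 < ρ ∧ ρ ≤ 1) ∧ (0 < σ ∧ σ ≤ 1 / 100)) =>
    per_scale hPARTS hSUP hPRE hOWNN hLOCN hLOCB hLOCK C ρ σ M k hC h.1.1 h.1.2 h.2.1 h.2.2
  choose fz ft fd h1 h2 h3 h4 using hper
  obtain ⟨Rs, Sg, d0, hRs, hSg, hDC⟩ := hM k
    (fun ρ σ => if h : (0 < ρ ∧ ρ ≤ 1) ∧ (0 < σ ∧ σ ≤ 1 / 100) then fz ρ σ h else σ / 100)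
    (fun ρ σ => if h : (0 < ρ ∧ ρ ≤ 1) ∧ (0 < σ ∧ σ ≤ 1 / 100) then ft ρ σ h else 1) (by
      intro x s hx hs
      by_cases h : (0 < x ∧ x ≤ 1) ∧ (0 < s ∧ s ≤ 1 / 100)
      · rw [dif_pos h, dif_pos h]
        exact ⟨h1 x s h, h2 x s h, h3 x s h⟩
      · rw [dif_neg h, dif_neg h]
        refine ⟨by positivity, le_refl _, one_pos⟩)
  set fm : ℝ × ℝ → ℕ := fun q =>
    if h : (0 < q.1 ∧ q.1 ≤ 1) ∧ (0 < q.2 ∧ q.2 ≤ 1 / 100) then fd q.1 q.2 h else 0 with hfm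
  refine ⟨d0 + (Rs ×ˢ Sg).sup fm, ?_⟩
  intro V _ G d X hd hreg hV hX
  obtain ⟨ρ, hρ, σ, hσ, P, hP, hVH⟩ := hDC G d X.VH (by omega) hreg hV hX.VHk
  have hc : (0 < ρ ∧ ρ ≤ 1) ∧ (0 < σ ∧ σ ≤ 1 / 100) := ⟨hRs ρ hρ, hSg σ hσ⟩
  rw [dif_pos hc, dif_pos hc] at hP
  have hfd : fd ρ σ hc ≤ d := by
    have h5 : fm (ρ, σ) ≤ (Rs ×ˢ Sg).sup fm := le_sup (mem_product.2 ⟨hρ, hσ⟩)
    have h6 : fm (ρ, σ) = fd ρ σ hc := by
      simp only [hfm]
      rw [dif_pos hc]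
    omega
  exact h4 ρ σ hc G d P X hfd hP hX hVH

end Pool.Agent.Work.MP_db9399_da.helper62
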