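import Pool.Agent.Work.MP_db9399_da.Frame

/-!
# MP_db9399, DENSE-ALL: the form of the problem file (owner helper62)
-/

set_option autoImplicit false

namespace Pool.Agent.Work.MP_db9399_da.helper62

open Finset Classical
open Pool.Agent.Work.MP_db9399_all (nb)
open Pool.Agent.Work.MP_db9399_dn (Tot)
open _root_.MP_db9399_co (IsTotalColoring)

universe u

theorem isTotal_of_tot {V : Type u} [Fintype V] {k : ℕ} (G : SimpleGraph V) (c : V → Fin k)
    (t : V → V → Fin k) (h : Tot G c t) : ∃ t' : Sym2 V → Fin k, IsTotalColoring G c t' := by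
  refine ⟨Sym2.lift ⟨t, h.2.1⟩, ?_, ?_, ?_⟩
  · intro u v huv
    exact h.1 u v huv
  · intro u v w huv huw hvw he
    simp only [Sym2.lift_mk] at he
    apply hvw
    apply h.2.2.1 u _ _ he
    · simpa [nb] using huv
    · simpa [nb] using huw
  · intro u v huv
    simp only [Sym2.lift_mk]
    exact h.2.2.2 u v huv

/-- the total colouring theorem for dense graphs in the form of the problem file -/
theorem dense_of_main1 (h : Stmt_MAIN1.{u}) : ∀ η : ℝ, 0 < η → ∃ n₀ : ℕ,
    ∀ (V : Type u) [Fintype V] (G : SimpleGraph V) [DecidableRel G.Adj] (k : ℕ),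
      n₀ ≤ Fintype.card V → η * Fintype.card V ≤ G.maxDegree → G.maxDegree + 2 ≤ k →
      ∃ (c : V → Fin k) (t : Sym2 V → Fin k), IsTotalColoring G c t := by
  intro η hη
  obtain ⟨n0, hn0⟩ := h η hη
  refine ⟨n0 + 1, ?_⟩
  intro V _ G _ k hn hd hk
  have hne : Nonempty V := by
    rw [← Fintype.card_pos_iff]
    omega
  have hlt : G.maxDegree + 1 ≤ Fintype.card V := G.maxDegree_lt_card_verts
  obtain ⟨c, t, ht⟩ := hn0 G G.maxDegree k (by omega) hd hlt (by
    intro v
    have h1 := G.degree_le_maxDegree v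
    have h2 : (nb G v).card = G.degree v := by
      rw [← G.card_neighborFinset_eq_degree]
      congr 1
      ext w
      simp [nb]
    omega) hk
  obtain ⟨t', ht'⟩ := isTotal_of_tot G c t ht
  exact ⟨c, t', ht'⟩

end Pool.Agent.Work.MP_db9399_da.helper62
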