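import Pool.Agent.Work.MP_db9399_da_helper62.Asm5
import Pool.Agent.Work.MP_db9399_da_helper93.EMB
import Pool.Agent.Work.MP_db9399_da_helper55.DEC2
import Pool.Agent.Work.MP_db9399_da_helper99.PARTV
import Pool.Agent.Work.MP_db9399_da_helper45.LBB
import Pool.Agent.Work.MP_db9399_da_helper74.LBH
import Pool.Agent.Work.MP_db9399_da_helper85.LBV
import Pool.Agent.Work.MP_db9399_da_helper73.CPB
import Pool.Agent.Work.MP_db9399_da_helper73.CPN
import Pool.Agent.Work.MP_db9399_da_helper73.WR
import Pool.Agent.Work.MP_db9399_da_helper73.PCUT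
import Pool.Agent.Work.MP_db9399_da_helper19.DCUT
import Pool.Agent.Work.MP_db9399_dp_helper82.PREAll
import Pool.Agent.Work.MP_db9399_da_helper94.OWNN
import Pool.Agent.Work.MP_db9399_da_helper46.LOCNU
import Pool.Agent.Work.MP_db9399_da_helper26.LOCK
import Pool.Agent.Work.MP_db9399_da_helper72.LOCBU
import Pool.Agent.Work.MP_db9399_da_helper62.Conv
import Pool.Agent.Work.MP_db9399_ot_helper94.LTZFinal

/-!
# MP_db9399, DENSE-ALL, phase 1: the theorem (owner helper62)

All blocks of phase 1 together.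
-/

set_option autoImplicit false

namespace Pool.Agent.Work.MP_db9399_da.helper62

open Pool.Agent.Work.MP_db9399_da

universe u

theorem all_dec : Stmt_DEC.{u} := helper55.stmt_DEC2 helper55.stmt_DEC1

theorem all_pcut : MP_db9399_da_helper72.Stmt_PCUT.{u} := MP_db9399_da_helper73.stmt_PCUT MP_db9399_da_helper73.stmt_WR

theorem all_parts : Stmt_PARTS.{u} :=
  helper99.stmt_PARTV
    (helper45.stmt_LAB3 helper45.stmt_LBA (helper45.stmt_LBB helper74.stmt_LBH helper85.stmt_LBV))
    (helper73.stmt_CPB all_pcut) (helper73.stmt_CPN all_pcut helper19.stmt_DCUT)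

theorem all_pre : Stmt_PRE.{u} := MP_db9399_dp.helper82.stmt_PRE_all

theorem all_lock : Stmt_LOCK.{u} := helper26.stmt_LOCK MP_db9399_ot.helper94.ltz

theorem main1_of (hB : Stmt_LOCB.{u}) : Stmt_MAIN1.{u} :=
  stmt_ASSEMBLY helper93.stmt_EMB all_dec all_parts all_pre helper94.stmt_OWNN helper46.locn hB
    all_lock

theorem main1 : Stmt_MAIN1.{u} := main1_of MP_db9399_da_helper72.stmt_LOCB

end Pool.Agent.Work.MP_db9399_da.helper62
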