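import Pool.Agent.Work.MP_db9399_da_helper62.Base

/-!
# MP_db9399, DENSE-ALL: gluing the colourings of the pieces (owner helper62)
-/

set_option autoImplicit false

namespace Pool.Agent.Work.MP_db9399_da.helper62

open Finset Classical
open Pool.Agent.Work.MP_db9399_all (nb)
open Pool.Agent.Work.MP_db9399_nc (nn)
open Pool.Agent.Work.MP_db9399_lt (us)
open Pool.Agent.Work.MP_db9399_dn (Tot)

universe u

/-- total colouring with colours `< d + 2` -/
structure TotN {V : Type u} [Fintype V] (G : SimpleGraph V) (d : ℕ) (c : V → ℕ) (t : V → V → ℕ) :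
    Prop where
  clt : ∀ v, c v < d + 2
  cc : ∀ v w, G.Adj v w → c v ≠ c w
  sym : ∀ v w, t v w = t w v
  tlt : ∀ v w, G.Adj v w → t v w < d + 2
  inj : ∀ v, Set.InjOn (t v) (nb G v : Set V)
  tc : ∀ v w, G.Adj v w → t v w ≠ c v

theorem tot_of_totN {V : Type u} [Fintype V] (G : SimpleGraph V) (d k : ℕ) (c : V → ℕ)
    (t : V → V → ℕ) (h : TotN G d c t) (hk : d + 2 ≤ k) :
    ∃ (c' : V → Fin k) (t' : V → V → Fin k), Tot G c' t' := by
  have hk0 : 0 < k := by omega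
  refine ⟨fun v => ⟨c v, lt_of_lt_of_le (h.clt v) hk⟩,
    fun v w => if hlt : t v w < k then ⟨t v w, hlt⟩ else ⟨0, hk0⟩, ?_, ?_, ?_, ?_⟩
  · intro v w hvw he
    apply h.cc v w hvw
    simpa using he
  · intro v w
    simp only [h.sym v w]
  · intro v w hw w' hw' he
    rw [mem_coe, mem_nb] at hw hw'
    have h1 : t v w < k := lt_of_lt_of_le (h.tlt v w hw) hk
    have h2 : t v w' < k := lt_of_lt_of_le (h.tlt v w' hw') hk
    simp only [h1, h2, dif_pos, Fin.mk.injEq] at he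
    apply h.inj v _ _ he
    · rw [mem_coe, mem_nb]; exact hw
    · rw [mem_coe, mem_nb]; exact hw'
  · intro v w hvw he
    have h1 : t v w < k := lt_of_lt_of_le (h.tlt v w hvw) hk
    simp only [h1, dif_pos, Fin.mk.injEq] at he
    exact h.tc v w hvw he

section glue
variable {V : Type u} {M : ℕ} [Fintype V]

/-- the colourings of the pieces in one function -/
noncomputable def gl (P : Pcs V M) (τ : ∀ n, Ts P n → Ts P n → ℕ) (v w : V) : ℕ :=
  if h : v ∉ P.V0 ∧ w ∉ P.V0 ∧ P.pc w = P.pc v then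
    τ (P.pc v) ⟨v, h.1, rfl⟩ ⟨w, h.2.1, h.2.2⟩ else 0

theorem gl_eq (P : Pcs V M) (τ : ∀ n, Ts P n → Ts P n → ℕ) (n : Fin M) (a b : Ts P n) :
    gl P τ a.1 b.1 = τ n a b := by
  obtain ⟨a, ha, hn⟩ := a
  obtain ⟨b, hb, hm⟩ := b
  subst hn
  unfold gl
  rw [dif_pos ⟨ha, hb, hm⟩]

/-- Gluing: prescribed colours `t0` of the thin edges, `τ n` on the pieces. -/
theorem glue (G : SimpleGraph V) (P : Pcs V M) (d : ℕ) (t0 : V → V → ℕ) (c : V → ℕ)
    (τ : ∀ n, Ts P n → Ts P n → ℕ)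
    (sym : ∀ v w, t0 v w = t0 w v)
    (lt : ∀ v w, (thin G P).Adj v w → t0 v w < d + 2)
    (inj : ∀ v, Set.InjOn (t0 v) (nb (thin G P) v : Set V))
    (hc : ∀ v, c v < d + 2 ∧ c v ∉ Fc G P t0 v)
    (hcc : ∀ v w, G.Adj v w → c v ≠ c w)
    (hτ : ∀ n, PEF (bk G P n) d (fun v => insert (c v.1) (Fn G P t0 n v)) (τ n)) :
    ∃ t, TotN G d c t := by
  set t : V → V → ℕ := fun v w => if (bulk G P).Adj v w then gl P τ v w else t0 v w with ht
  have e1 : ∀ v w, (bulk G P).Adj v w → t v w = gl P τ v w := fun v w h => by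
    simp only [ht, h, if_true]
  have e2 : ∀ v w, (thin G P).Adj v w → t v w = t0 v w := fun v w h => by
    simp only [ht, h.2, if_false]
  have hF : ∀ v w, (thin G P).Adj v w → t0 v w ∈ Fc G P t0 v := by
    intro v w h
    unfold Fc
    rw [mem_image]
    exact ⟨w, (mem_nb _ _ _).2 h, rfl⟩
  -- bulk edges inside their piece
  have hb : ∀ v w, (bulk G P).Adj v w → ∃ (n : Fin M) (a b : Ts P n), a.1 = v ∧ b.1 = w ∧
      (bk G P n).Adj a b ∧ t v w = τ n a b := by
    intro v w h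
    refine ⟨P.pc v, ⟨v, h.2.1, rfl⟩, ⟨w, h.2.2.1, h.2.2.2.1.symm⟩, rfl, rfl, h, ?_⟩
    rw [e1 v w h]
    exact gl_eq P τ (P.pc v) ⟨v, h.2.1, rfl⟩ ⟨w, h.2.2.1, h.2.2.2.1.symm⟩
  have hbF : ∀ v w, (bulk G P).Adj v w → t v w < d + 2 ∧ t v w ≠ c v ∧ t v w ∉ Fc G P t0 v := by
    intro v w h
    obtain ⟨n, a, b, rfl, rfl, hab, he⟩ := hb v w h
    rw [he]
    have := (hτ n).2.1 a b hab
    simp only [mem_insert, not_or] at this
    exact ⟨this.1, this.2.1, this.2.2⟩
  refine ⟨t, fun v => (hc v).1, hcc, ?_, ?_, ?_, ?_⟩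
  · intro v w
    by_cases h : (bulk G P).Adj v w
    · obtain ⟨n, a, b, rfl, rfl, hab, he⟩ := hb v w h
      rw [he, e1 _ _ h.symm, gl_eq, (hτ n).1]
    · have h' : ¬ (bulk G P).Adj w v := fun h' => h h'.symm
      simp only [ht, h, h', if_false]
      exact sym v w
  · intro v w h
    by_cases hb' : (bulk G P).Adj v w
    · exact (hbF v w hb').1
    · rw [e2 v w ⟨h, hb'⟩]
      exact lt v w ⟨h, hb'⟩
  · intro v w hw w' hw' he
    rw [mem_coe, mem_nb] at hw hw'
    by_cases h : (bulk G P).Adj v w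
    · by_cases h' : (bulk G P).Adj v w'
      · have hv : v ∉ P.V0 := h.2.1
        have k1 := gl_eq P τ (P.pc v) ⟨v, hv, rfl⟩ ⟨w, h.2.2.1, h.2.2.2.1.symm⟩
        have k2 := gl_eq P τ (P.pc v) ⟨v, hv, rfl⟩ ⟨w', h'.2.2.1, h'.2.2.2.1.symm⟩
        rw [e1 v w h, e1 v w' h'] at he
        simp only at k1 k2
        rw [k1, k2] at he
        have := (hτ (P.pc v)).2.2 ⟨v, hv, rfl⟩ (by
          rw [mem_coe, mem_nb]; exact h) (by rw [mem_coe, mem_nb]; exact h') he
        exact congrArg Subtype.val this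
      · exfalso
        rw [e2 v w' ⟨hw', h'⟩] at he
        apply (hbF v w h).2.2
        rw [he]
        exact hF v w' ⟨hw', h'⟩
    · by_cases h' : (bulk G P).Adj v w'
      · exfalso
        rw [e2 v w ⟨hw, h⟩] at he
        apply (hbF v w' h').2.2
        rw [← he]
        exact hF v w ⟨hw, h⟩
      · rw [e2 v w ⟨hw, h⟩, e2 v w' ⟨hw', h'⟩] at he
        apply inj v _ _ he
        · rw [mem_coe, mem_nb]; exact ⟨hw, h⟩
        · rw [mem_coe, mem_nb]; exact ⟨hw', h'⟩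
  · intro v w h
    by_cases hb' : (bulk G P).Adj v w
    · exact (hbF v w hb').2.1
    · rw [e2 v w ⟨h, hb'⟩]
      intro he
      apply (hc v).2
      rw [← he]
      exact hF v w ⟨h, hb'⟩

end glue

end Pool.Agent.Work.MP_db9399_da.helper62
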