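import Pool.Agent.Work.MP_db9399_da_helper62.Base2
import Pool.Agent.Work.MP_db9399_da_helper62.Glue

/-!
# MP_db9399, DENSE-ALL, phase 2: gluing the colourings of the pieces (owner helper62)
-/

set_option autoImplicit false

namespace Pool.Agent.Work.MP_db9399_da.helper62

open Finset Classical
open Pool.Agent.Work.MP_db9399_all (nb)
open Pool.Agent.Work.MP_db9399_nc (nn)
open Pool.Agent.Work.MP_db9399_lt (us)

universe u

section glue
variable {V : Type u} {M : ℕ} [Fintype V]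

/-- Gluing: prescribed colours `t0` of the edges of `thin2`, `τ n` on the pieces. -/
theorem glue2 {k d : ℕ} {G : SimpleGraph V} {X : HD V} (hX : HP k d G X) (P : Pcs V M)
    (t0 : V → V → ℕ) (c : V → ℕ) (τ : ∀ n, Ts P n → Ts P n → ℕ)
    (hS0 : ∀ z ∈ X.S0, z ∈ P.V0)
    (sym : ∀ v w, t0 v w = t0 w v)
    (lt : ∀ v w, (thin2 G X P).Adj v w → t0 v w < d + 2)
    (inj : ∀ v, Set.InjOn (t0 v) (nb (thin2 G X P) v : Set V))
    (th : ∀ v w, X.H.Adj v w → t0 v w = X.h0 v)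
    (ne : ∀ z ∈ X.S0, ∀ w, G.Adj z w → t0 z w ∉ X.ne z w)
    (hc : ∀ v, c v < d + 2 ∧ c v ∉ Fc2 G X P t0 v)
    (hcc : ∀ v w, v ∉ X.VH → w ∉ X.VH → G.Adj v w → c v ≠ c w)
    (hcV : ∀ v ∈ X.VH, c v = X.c0 v)
    (hnm : ∀ v, v ∉ X.VH → c v ∉ X.nm v)
    (hτ : ∀ n, PEF (bk2 G X P n) d (fun v => insert (c v.1) (Fn2 G X P t0 n v)) (τ n)) :
    ∃ t, TotH d G X c t := by
  set t : V → V → ℕ := fun v w => if (bulk2 G X P).Adj v w then gl P τ v w else t0 v w with ht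
  have e1 : ∀ v w, (bulk2 G X P).Adj v w → t v w = gl P τ v w := fun v w h => by
    simp only [ht, h, if_true]
  have e2 : ∀ v w, (thin2 G X P).Adj v w → t v w = t0 v w := fun v w h => by
    simp only [ht, h.2, if_false]
  have hF : ∀ v w, (thin2 G X P).Adj v w → t0 v w ∈ Fc2 G X P t0 v := fun v w h =>
    mem_Fc2 G X P t0 v w h
  -- bulk edges inside their piece
  have hb : ∀ v w, (bulk2 G X P).Adj v w → ∃ (n : Fin M) (a b : Ts P n), a.1 = v ∧ b.1 = w ∧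
      (bk2 G X P n).Adj a b ∧ t v w = τ n a b := by
    intro v w h
    refine ⟨P.pc v, ⟨v, h.1.2.1, rfl⟩, ⟨w, h.1.2.2.1, h.1.2.2.2.1.symm⟩, rfl, rfl, h, ?_⟩
    rw [e1 v w h]
    exact gl_eq P τ (P.pc v) ⟨v, h.1.2.1, rfl⟩ ⟨w, h.1.2.2.1, h.1.2.2.2.1.symm⟩
  have hbF : ∀ v w, (bulk2 G X P).Adj v w → t v w < d + 2 ∧ t v w ≠ c v ∧
      t v w ∉ Fc2 G X P t0 v := by
    intro v w h
    obtain ⟨n, a, b, rfl, rfl, hab, he⟩ := hb v w h
    rw [he]
    have := (hτ n).2.1 a b hab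
    simp only [mem_insert, not_or] at this
    exact ⟨this.1, this.2.1, this.2.2⟩
  refine ⟨t, fun v => (hc v).1, hcc, hcV, hnm, ?_, ?_, ?_, ?_, ?_, ?_⟩
  · intro v w
    by_cases h : (bulk2 G X P).Adj v w
    · obtain ⟨n, a, b, rfl, rfl, hab, he⟩ := hb v w h
      rw [he, e1 _ _ h.symm, gl_eq, (hτ n).1]
    · have h' : ¬ (bulk2 G X P).Adj w v := fun h' => h h'.symm
      simp only [ht, h, h', if_false]
      exact sym v w
  · intro v w h
    by_cases hb' : (bulk2 G X P).Adj v w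
    · exact (hbF v w hb').1
    · rw [e2 v w ⟨h, hb'⟩]
      exact lt v w ⟨h, hb'⟩
  · intro v w hw w' hw' he
    rw [mem_coe, mem_nb] at hw hw'
    by_cases h : (bulk2 G X P).Adj v w
    · by_cases h' : (bulk2 G X P).Adj v w'
      · have hv : v ∉ P.V0 := h.1.2.1
        have k1 := gl_eq P τ (P.pc v) ⟨v, hv, rfl⟩ ⟨w, h.1.2.2.1, h.1.2.2.2.1.symm⟩
        have k2 := gl_eq P τ (P.pc v) ⟨v, hv, rfl⟩ ⟨w', h'.1.2.2.1, h'.1.2.2.2.1.symm⟩
        rw [e1 v w h, e1 v w' h'] at he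
        simp only at k1 k2
        rw [k1, k2] at he
        have := (hτ (P.pc v)).2.2 ⟨v, hv, rfl⟩ (by
          rw [mem_coe, mem_nb]; exact h) (by rw [mem_coe, mem_nb]; exact h') he
        exact congrArg Subtype.val this
      · exfalso
        rw [e2 v w' ⟨hw', h'⟩] at he
        apply (hbF v w h).2.2
        rw [he]
        exact hF v w' ⟨hw', h'⟩
    · by_cases h' : (bulk2 G X P).Adj v w'
      · exfalso
        rw [e2 v w ⟨hw, h⟩] at he
        apply (hbF v w' h').2.2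
        rw [← he]
        exact hF v w ⟨hw, h⟩
      · rw [e2 v w ⟨hw, h⟩, e2 v w' ⟨hw', h'⟩] at he
        apply inj v _ _ he
        · rw [mem_coe, mem_nb]; exact ⟨hw, h⟩
        · rw [mem_coe, mem_nb]; exact ⟨hw', h'⟩
  · intro v w h
    by_cases hb' : (bulk2 G X P).Adj v w
    · exact (hbF v w hb').2.1
    · rw [e2 v w ⟨h, hb'⟩]
      intro he
      apply (hc v).2
      rw [← he]
      exact hF v w ⟨h, hb'⟩
  · intro v w h
    rw [e2 v w (H_thin2 hX P v w h)]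
    exact th v w h
  · intro z hz w h
    have hb' : ¬ (bulk2 G X P).Adj z w := fun h' => h'.1.2.1 (hS0 z hz)
    rw [e2 z w ⟨h, hb'⟩]
    exact ne z hz w h

end glue

end Pool.Agent.Work.MP_db9399_da.helper62
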